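import Pool.Agent.NH44.LT.Scale

/-!
# Counting zeros on grids
-/

set_option autoImplicit false

open MeasureTheory Real Filter Topology Set Function
open Pool.Agent.Y291.DB

namespace Pool.Agent.NH44.LT

open Classical in
/-- the zeros on a side -/
theorem side_zeros {u : ℝ → ℝ} {P : ℝ} (hP : 0 < P) (per : ∀ x, u (x + P) = u x) {V : Finset ℝ}
    (hV : ∀ z ∈ Ico 0 P, u z = 0 → z ∈ V) (good : ℝ → Prop) {s1 s2 : ℝ} (hs : s2 < s1 + P)
    (hg : ∀ t ∈ Icc s1 s2, ∀ k : ℤ, good (t - k * P)) :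
    ∃ Z : Finset ℝ, Z.card ≤ (V.filter good).card ∧ ∀ t ∈ Icc s1 s2, u t = 0 → t ∈ Z := by
  have hper : Function.Periodic u P := per
  refine ⟨(V.filter good).image (toIcoMod hP s1), Finset.card_image_le, fun t ht h0 => ?_⟩
  have e1 : toIcoMod hP 0 t = t - toIcoDiv hP 0 t • P := rfl
  have e2 : toIcoMod hP 0 t = t - (toIcoDiv hP 0 t : ℤ) * P := by
    rw [e1, zsmul_eq_mul]
  refine Finset.mem_image.2 ⟨toIcoMod hP 0 t, Finset.mem_filter.2 ⟨hV _ ?_ ?_, ?_⟩, ?_⟩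
  · have := toIcoMod_mem_Ico hP 0 t
    rwa [zero_add] at this
  · rw [e2, hper.sub_int_mul_eq]
    exact h0
  · rw [e2]
    exact hg t ht _
  · rw [e1, toIcoMod_sub_zsmul]
    exact (toIcoMod_eq_self hP).2 ⟨ht.1, ht.2.trans_lt hs⟩

/-- closeness modulo the lattice -/
def Nr (P1 P2 D a b pa pb : ℝ) : Prop := ∃ m n : ℤ, |a + m * P1 - pa| ≤ D ∧ |b + n * P2 - pb| ≤ D

open Classical in
theorem line_count {u : ℝ → ℝ → ℝ} {P1 P2 ξ D pa pb : ℝ} (hP2 : 0 < P2)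
    (per1 : ∀ a b, u (a + P1) b = u a b) (per2 : ∀ a b, u a (b + P2) = u a b) {N : ℕ}
    (hN : 0 < N) {V : ℕ → Finset ℝ}
    (hV : ∀ k < N, ∀ z ∈ Ico 0 P2, u (ξ + k * (P1 / N)) z = 0 → z ∈ V k) (k : ℤ) {s1 s2 : ℝ}
    (hs : s2 < s1 + P2) (h1 : |ξ + k * (P1 / N) - pa| ≤ D) (h2 : ∀ t ∈ Icc s1 s2, |t - pb| ≤ D) :
    ∃ Z : Finset ℝ, Z.card ≤ ∑ k ∈ Finset.range N,
      ((V k).filter fun z => Nr P1 P2 D (ξ + k * (P1 / N)) z pa pb).card ∧
      ∀ t ∈ Icc s1 s2, u (ξ + k * (P1 / N)) t = 0 → t ∈ Z := by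
  have hNr : (N : ℝ) ≠ 0 := by exact_mod_cast hN.ne'
  have hNZ : (0 : ℤ) < N := by exact_mod_cast hN
  obtain ⟨k', hk'⟩ : ∃ k' : ℕ, (k' : ℤ) = k % N :=
    ⟨(k % N).toNat, Int.toNat_of_nonneg (Int.emod_nonneg _ hNZ.ne')⟩
  have hk'N : k' < N := by
    have := Int.emod_lt_of_pos k hNZ
    omega
  have hkk : (k : ℝ) = N * (k / N : ℤ) + k' := by
    have h3 : k = N * (k / N) + k' := by
      rw [hk']
      exact (Int.mul_ediv_add_emod k N).symm
    exact_mod_cast h3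
  have e1 : ξ + k * (P1 / N) = ξ + k' * (P1 / N) + (k / N : ℤ) * P1 := by
    rw [hkk]
    field_simp
    ring
  have hper1 : ∀ b, Function.Periodic (fun a => u a b) P1 := fun b a => per1 a b
  have e2 : ∀ t, u (ξ + k * (P1 / N)) t = u (ξ + k' * (P1 / N)) t := by
    intro t
    rw [e1]
    exact (hper1 t).int_mul (k / N) _
  obtain ⟨Z, hZ1, hZ2⟩ := side_zeros (u := fun t => u (ξ + k' * (P1 / N)) t) hP2
    (fun t => per2 _ t) (V := V k') (hV k' hk'N)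
    (fun z => Nr P1 P2 D (ξ + k' * (P1 / N)) z pa pb) hs (fun t ht n => by
      refine ⟨(k / N : ℤ), n, ?_, ?_⟩
      · rw [← e1]
        exact h1
      · rw [sub_add_cancel]
        exact h2 t ht)
  refine ⟨Z, hZ1.trans ?_, fun t ht h0 => hZ2 t ht (by rw [← e2]; exact h0)⟩
  exact Finset.single_le_sum (f := fun k : ℕ =>
    ((V k).filter fun z => Nr P1 P2 D (ξ + k * (P1 / N)) z pa pb).card)
    (fun _ _ => Nat.zero_le _) (Finset.mem_range.2 hk'N)

open Classical in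
theorem double_count {ι : Type} [Fintype ι] {K : Finset ℕ} {V : ℕ → Finset ℝ}
    {R : ℕ → ℝ → ι → Prop} {M0 M1 : ℝ} (hM0 : 0 ≤ M0)
    (h : ∀ k ∈ K, ∀ z ∈ V k, ((Finset.univ.filter (R k z)).card : ℝ) ≤ M0)
    (hV : ∀ k ∈ K, ((V k).card : ℝ) ≤ M1) :
    ∑ i, ((∑ k ∈ K, ((V k).filter fun z => R k z i).card : ℕ) : ℝ) ≤ K.card * M1 * M0 := by
  have h1 : ∑ i, ((∑ k ∈ K, ((V k).filter fun z => R k z i).card : ℕ) : ℝ) =
      ∑ k ∈ K, ∑ z ∈ V k, ((Finset.univ.filter (R k z)).card : ℝ) := by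
    push_cast [Finset.card_filter]
    rw [Finset.sum_comm]
    refine Finset.sum_congr rfl fun k _ => ?_
    rw [Finset.sum_comm]
  rw [h1]
  calc ∑ k ∈ K, ∑ z ∈ V k, ((Finset.univ.filter (R k z)).card : ℝ)
      ≤ ∑ k ∈ K, M1 * M0 := by
        refine Finset.sum_le_sum fun k hk => ?_
        refine (Finset.sum_le_sum (h k hk)).trans ?_
        rw [Finset.sum_const, nsmul_eq_mul]
        exact mul_le_mul_of_nonneg_right (hV k hk) hM0
    _ = K.card * M1 * M0 := by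
        rw [Finset.sum_const, nsmul_eq_mul]
        ring

/-- the chain of squares -/
theorem chain_growth {φ : ℝ × ℝ → ℝ} {p : ℝ × ℝ} {δ m E : ℝ} {N : ℕ} (hδ : 0 < δ) (hm : 0 < m)
    (hstep : ∀ q' : ℝ × ℝ, |q'.1 - p.1| ≤ N * δ → |q'.2 - p.2| ≤ N * δ → ∀ m : ℝ, 0 < m →
      (∀ q : ℝ × ℝ, |q.1 - q'.1| ≤ δ → |q.2 - q'.2| ≤ δ → |φ q| ≤ m) →
      ∀ q : ℝ × ℝ, |q.1 - q'.1| ≤ 2 * δ → |q.2 - q'.2| ≤ 2 * δ → |φ q| ≤ m * Real.exp E)
    (h0 : ∀ q : ℝ × ℝ, |q.1 - p.1| ≤ δ → |q.2 - p.2| ≤ δ → |φ q| ≤ m) :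
    ∀ r : ℕ, r ≤ N → ∀ q : ℝ × ℝ, |q.1 - p.1| ≤ (r + 1) * δ → |q.2 - p.2| ≤ (r + 1) * δ →
      |φ q| ≤ m * Real.exp (r * E) := by
  intro r
  induction r with
  | zero =>
    intro _ q h1 h2
    have := h0 q (by simpa using h1) (by simpa using h2)
    simpa using this
  | succ r ih =>
    intro hr q h1 h2
    have hr' : (r : ℝ) + 1 ≤ N := by exact_mod_cast hr
    have hr0 : (0 : ℝ) ≤ r := Nat.cast_nonneg r
    push_cast at h1 h2
    set θ : ℝ := r / (r + 2) with hθ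
    have hθ0 : 0 ≤ θ := by positivity
    have hθ1 : θ * (r + 2) = r := by
      rw [hθ]
      field_simp
    have key : ∀ a b : ℝ, |a - b| ≤ (r + 1 + 1) * δ → |b + θ * (a - b) - b| ≤ r * δ ∧
        |a - (b + θ * (a - b))| ≤ 2 * δ := by
      intro a b hab
      constructor
      · rw [add_sub_cancel_left, abs_mul, abs_of_nonneg hθ0]
        calc θ * |a - b| ≤ θ * ((r + 1 + 1) * δ) := mul_le_mul_of_nonneg_left hab hθ0
          _ = (θ * (r + 2)) * δ := by ring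
          _ = r * δ := by rw [hθ1]
      · have e1 : a - (b + θ * (a - b)) = (1 - θ) * (a - b) := by ring
        have e2 : (1 - θ) * (r + 2) = 2 := by
          rw [sub_mul, hθ1]
          ring
        have e3 : 0 ≤ 1 - θ := by
          by_contra hcon
          rw [not_le] at hcon
          have := mul_neg_of_neg_of_pos hcon (show (0 : ℝ) < r + 2 by positivity)
          linarith
        rw [e1, abs_mul, abs_of_nonneg e3]
        calc (1 - θ) * |a - b| ≤ (1 - θ) * ((r + 1 + 1) * δ) := mul_le_mul_of_nonneg_left hab e3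
          _ = ((1 - θ) * (r + 2)) * δ := by ring
          _ = 2 * δ := by rw [e2]
    obtain ⟨k1, k2⟩ := key q.1 p.1 h1
    obtain ⟨k3, k4⟩ := key q.2 p.2 h2
    have hrN : (r : ℝ) * δ ≤ N * δ := mul_le_mul_of_nonneg_right (by linarith) hδ.le
    have h3 := hstep (p.1 + θ * (q.1 - p.1), p.2 + θ * (q.2 - p.2)) (k1.trans hrN) (k3.trans hrN)
      (m * Real.exp (r * E)) (by positivity) (fun w hw1 hw2 => by
        refine ih (Nat.le_of_succ_le hr) w ?_ ?_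
        · have : |w.1 - p.1| ≤ |w.1 - (p.1 + θ * (q.1 - p.1))| + |p.1 + θ * (q.1 - p.1) - p.1| :=
            abs_sub_le _ _ _
          simp only at hw1
          linarith
        · have : |w.2 - p.2| ≤ |w.2 - (p.2 + θ * (q.2 - p.2))| + |p.2 + θ * (q.2 - p.2) - p.2| :=
            abs_sub_le _ _ _
          simp only at hw2
          linarith) q k2 k4
    rw [mul_assoc, ← Real.exp_add] at h3
    have e4 : (r : ℝ) * E + E = ((r + 1 : ℕ) : ℝ) * E := by push_cast; ring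
    rwa [e4] at h3

end Pool.Agent.NH44.LT
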