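import Pool.Agent.NH44.LT.Sturm

/-!
# The number of zeros of a sum of eigenfunctions
-/

set_option autoImplicit false

open Filter Topology Metric Set

namespace Pool.Agent.NH44.LT

/-- sums -/
def FS (S : Finset ℝ) (c : ℝ → ℝ) (v : ℝ → ℝ → ℝ) (x : ℝ) : ℝ := ∑ κ ∈ S, c κ * v κ x

theorem deriv_zero_of {H : ℝ → ℝ} {H' a b x : ℝ} (h : ∀ x ∈ Ioo a b, H x = 0)
    (hH : HasDerivAt H H' x) (hx : x ∈ Ioo a b) : H' = 0 := by
  have h1 : H =ᶠ[𝓝 x] fun _ => (0 : ℝ) := by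
    filter_upwards [Ioo_mem_nhds hx.1 hx.2] with y hy
    exact h y hy
  exact hH.unique ((hasDerivAt_const x (0 : ℝ)).congr_of_eventuallyEq h1)

theorem per_bound {f : ℝ → ℝ} (hf : Continuous f) {P : ℝ} (hP : 0 < P)
    (per : ∀ x, f (x + P) = f x) : ∃ B : ℝ, 0 ≤ B ∧ ∀ x, |f x| ≤ B := by
  obtain ⟨B, hB⟩ := (isCompact_Icc (a := (0 : ℝ)) (b := P)).exists_bound_of_continuousOn
    hf.continuousOn
  have hper : Function.Periodic f P := per
  refine ⟨B, (norm_nonneg _).trans (hB 0 ⟨le_rfl, hP.le⟩), fun x => ?_⟩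
  obtain ⟨y, hy, e⟩ := hper.exists_mem_Ico₀ hP x
  rw [e]
  exact hB y ⟨hy.1, hy.2.le⟩

/-- the first zeros -/
theorem Zs_init {w : ℝ → ℝ} {P : ℝ} (hP : 0 < P) (per : ∀ x, w (x + P) = w x) {Z : Finset ℝ}
    (hZ : ∀ z ∈ Z, z ∈ Ico 0 P ∧ w z = 0) (hn : 0 < Z.card) : Zs w (P / Z.card) := by
  set n := Z.card with hn'
  set e := Z.orderEmbOfFin hn'.symm with he
  have hper : Function.Periodic w P := per
  have hmem : ∀ j, e j ∈ Z := fun j => Finset.orderEmbOfFin_mem _ _ j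
  set z : ℕ → ℝ := fun i => e ⟨i % n, Nat.mod_lt _ hn⟩ + (i / n : ℕ) * P with hz
  have hzz : ∀ k j (hj : j < n), z (n * k + j) = e ⟨j, hj⟩ + k * P := by
    intro k j hj
    rw [hz]
    simp only
    have h1 : (n * k + j) % n = j := by
      rw [Nat.mul_add_mod, Nat.mod_eq_of_lt hj]
    have h2 : (n * k + j) / n = k := by
      rw [Nat.mul_add_div hn, Nat.div_eq_of_lt hj, add_zero]
    simp only [h1, h2]
  refine ⟨z, P, ?_, ?_, ?_⟩
  · refine strictMono_nat_of_lt_succ fun i => ?_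
    have hi : n * (i / n) + i % n = i := Nat.div_add_mod i n
    have hj : i % n < n := Nat.mod_lt _ hn
    set k := i / n with hk
    set j := i % n with hj'
    rw [← hi, hzz k j hj]
    by_cases h : j + 1 < n
    · rw [add_assoc, hzz k (j + 1) h]
      have : e ⟨j, hj⟩ < e ⟨j + 1, h⟩ := e.strictMono (by
        rw [Fin.mk_lt_mk]; exact Nat.lt_succ_self j)
      linarith
    · have h1 : n * k + j + 1 = n * (k + 1) + 0 := by
        rw [mul_add, mul_one]
        omega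
      rw [h1, hzz (k + 1) 0 hn]
      have h2 := (hZ _ (hmem ⟨j, hj⟩)).1.2
      have h3 := (hZ _ (hmem ⟨0, hn⟩)).1.1
      push_cast
      linarith
  · intro i
    rw [hz]
    simp only
    rw [← nsmul_eq_mul]
    rw [hper.nsmul (i / n)]
    exact (hZ _ (hmem _)).2
  · intro i
    rw [hz]
    simp only
    have h1 := (hZ _ (hmem ⟨i % n, Nat.mod_lt _ hn⟩)).1.2
    have h2 : ((i / n : ℕ) : ℝ) ≤ (i : ℝ) / n := Nat.cast_div_le
    have h3 := mul_le_mul_of_nonneg_right h2 hP.le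
    have h4 : (i : ℝ) / n * P = i * (P / n) := by ring
    linarith

section

variable {q : ℝ → ℝ} {v v' : ℝ → ℝ → ℝ} (hqc : Continuous q)
  (hv : ∀ κ x, HasDerivAt (v κ) (v' κ x) x)
  (hv' : ∀ κ x, HasDerivAt (v' κ) ((q x - κ) * v κ x) x)

include hv in
theorem FS_d (S : Finset ℝ) (c : ℝ → ℝ) (x : ℝ) : HasDerivAt (FS S c v) (FS S c v' x) x := by
  unfold FS
  exact HasDerivAt.fun_sum fun κ _ => (hv κ x).const_mul (c κ)

include hv' in
theorem FS_d' (S : Finset ℝ) (c : ℝ → ℝ) (x : ℝ) :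
    HasDerivAt (FS S c v') (q x * FS S c v x - FS S (fun κ => c κ * κ) v x) x := by
  have h1 : HasDerivAt (FS S c v') (∑ κ ∈ S, c κ * ((q x - κ) * v κ x)) x := by
    unfold FS
    exact HasDerivAt.fun_sum fun κ _ => (hv' κ x).const_mul (c κ)
  refine h1.congr_deriv ?_
  unfold FS
  rw [Finset.mul_sum, ← Finset.sum_sub_distrib]
  refine Finset.sum_congr rfl fun κ _ => ?_
  ring

include hv hv' in
theorem indep {Q : ℝ} (hQ : ∀ x, |q x| ≤ Q) (S : Finset ℝ) : ∀ c : ℝ → ℝ, S.Nonempty →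
    (∀ κ ∈ S, c κ ≠ 0) → (∀ κ ∈ S, ∃ x, v κ x ≠ 0) → ∀ a b, a < b →
    ∃ x ∈ Ioo a b, FS S c v x ≠ 0 := by
  induction S using Finset.induction_on with
  | empty =>
    intro c h
    exact absurd h (by simp)
  | insert κ1 S hκ1 ih =>
    intro c _ hc hne a b hab
    by_contra hcon
    push Not at hcon
    have h1 : ∀ x ∈ Ioo a b, FS (insert κ1 S) c v' x = 0 := fun x hx =>
      deriv_zero_of hcon (FS_d hv _ c x) hx
    have h2 : ∀ x ∈ Ioo a b, FS (insert κ1 S) (fun κ => c κ * κ) v x = 0 := by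
      intro x hx
      have h3 := deriv_zero_of h1 (FS_d' hv' _ c x) hx
      rw [hcon x hx] at h3
      linarith
    have h4 : ∀ x ∈ Ioo a b, FS S (fun κ => c κ * (κ - κ1)) v x = 0 := by
      intro x hx
      have e1 := hcon x hx
      have e2 := h2 x hx
      unfold FS at e1 e2 ⊢
      rw [Finset.sum_insert hκ1] at e1 e2
      have e3 : ∑ κ ∈ S, c κ * (κ - κ1) * v κ x =
          ∑ κ ∈ S, c κ * κ * v κ x - κ1 * ∑ κ ∈ S, c κ * v κ x := by
        rw [Finset.mul_sum, ← Finset.sum_sub_distrib]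
        refine Finset.sum_congr rfl fun κ _ => ?_
        ring
      rw [e3]
      linear_combination e2 - κ1 * e1
    rcases S.eq_empty_or_nonempty with hS | hS
    · subst hS
      have h5 : ∀ x ∈ Ioo a b, v κ1 x = 0 := by
        intro x hx
        have := hcon x hx
        unfold FS at this
        rw [Finset.sum_insert hκ1, Finset.sum_empty, add_zero] at this
        rcases mul_eq_zero.1 this with h | h
        · exact absurd h (hc κ1 (Finset.mem_insert_self _ _))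
        · exact h
      have hmid : (a + b) / 2 ∈ Ioo a b := ⟨by linarith, by linarith⟩
      have h6 : v' κ1 ((a + b) / 2) = 0 := deriv_zero_of h5 (hv κ1 _) hmid
      obtain ⟨x, hx⟩ := hne κ1 (Finset.mem_insert_self _ _)
      refine hx (ode_zero (hv κ1) (hv' κ1) (Λ := Q + |κ1|) (fun y => ?_) (h5 _ hmid) h6 x)
      exact (abs_sub _ _).trans (add_le_add (hQ y) le_rfl)
    · obtain ⟨x, hx, h5⟩ := ih (fun κ => c κ * (κ - κ1)) hS (fun κ hκ => by
        refine mul_ne_zero (hc κ (Finset.mem_insert_of_mem hκ)) (sub_ne_zero.2 ?_)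
        rintro rfl
        exact hκ1 hκ) (fun κ hκ => hne κ (Finset.mem_insert_of_mem hκ)) a b hab
      exact h5 (h4 x hx)

include hv hv' in
theorem kappa_pos {P : ℝ} (hP : 0 < P) (hq0 : ∀ x, 0 < q x) {κ : ℝ}
    (per : ∀ x, v κ (x + P) = v κ x) (hne : ∃ x, v κ x ≠ 0) : 0 < κ := by
  have hvc : Continuous (v κ) := continuous_iff_continuousAt.2 fun t => (hv κ t).continuousAt
  have hper : Function.Periodic (v κ) P := per
  obtain ⟨p, hp, hmax⟩ := (isCompact_Icc (a := (0 : ℝ)) (b := P)).exists_isMaxOn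
    ⟨0, le_rfl, hP.le⟩ hvc.abs.continuousOn
  have hM : ∀ x, |v κ x| ≤ |v κ p| := by
    intro x
    obtain ⟨y, hy, e⟩ := hper.exists_mem_Ico₀ hP x
    rw [e]
    exact hmax ⟨hy.1, hy.2.le⟩
  obtain ⟨x, hx⟩ := hne
  have h0 : v κ p ≠ 0 := abs_pos.1 ((abs_pos.2 hx).trans_le (hM x))
  rcases lt_or_gt_of_ne h0 with h6 | h6
  · have h1 : IsLocalMin (v κ) p := by
      refine Eventually.of_forall fun y => ?_
      have := hM y
      rw [abs_of_neg h6] at this
      linarith [neg_abs_le (v κ y)]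
    have h2 := good_neg (hv κ) (hv' κ) hq0 h6 h1
    have h3 : -((q p - κ) * v κ p) + q p * v κ p = κ * v κ p := by ring
    rw [h3] at h2
    by_contra hcon
    rw [not_lt] at hcon
    have := mul_nonneg_of_nonpos_of_nonpos hcon h6.le
    linarith
  · have h1 : IsLocalMax (v κ) p := by
      refine Eventually.of_forall fun y => ?_
      have := hM y
      rw [abs_of_pos h6] at this
      exact (le_abs_self _).trans this
    have h2 := good_pos (hv κ) (hv' κ) hq0 h6 h1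
    have h3 : -((q p - κ) * v κ p) + q p * v κ p = κ * v κ p := by ring
    rw [h3] at h2
    by_contra hcon
    rw [not_lt] at hcon
    have := mul_nonpos_of_nonpos_of_nonneg hcon h6.le
    linarith

include hqc hv hv' in
theorem Zs_iter {Q : ℝ} (hQ : ∀ x, |q x| ≤ Q) (hq0 : ∀ x, 0 < q x) {S : Finset ℝ}
    (hS : S.Nonempty) (hpos : ∀ κ ∈ S, 0 < κ) (hne : ∀ κ ∈ S, ∃ x, v κ x ≠ 0) {h : ℝ}
    (h0 : Zs (FS S (fun κ => κ ^ 0) v) h) (k : ℕ) : Zs (FS S (fun κ => κ ^ k) v) h := by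
  induction k with
  | zero => exact h0
  | succ k ih =>
    have hvc : ∀ κ, Continuous (v κ) := fun κ =>
      continuous_iff_continuousAt.2 fun t => (hv κ t).continuousAt
    have hFSc : ∀ c : ℝ → ℝ, Continuous (FS S c v) := fun c => by
      unfold FS
      exact continuous_finsetSum _ fun κ _ => continuous_const.mul (hvc κ)
    have h1 := Zs_step (F := FS S (fun κ => κ ^ k) v) (F' := FS S (fun κ => κ ^ k) v')
      (F'' := fun x => q x * FS S (fun κ => κ ^ k) v x - FS S (fun κ => κ ^ k * κ) v x) (q := q)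
      (FS_d hv S _) (FS_d' hv' S _) ((hqc.mul (hFSc _)).sub (hFSc _)) hqc hq0
      (indep hv hv' hQ S _ hS (fun κ hκ => pow_ne_zero _ (hpos κ hκ).ne') hne) ih
    have h2 : (fun x => -(q x * FS S (fun κ => κ ^ k) v x - FS S (fun κ => κ ^ k * κ) v x) +
        q x * FS S (fun κ => κ ^ k) v x) = FS S (fun κ => κ ^ (k + 1)) v := by
      funext x
      simp only [pow_succ]
      ring
    rwa [h2] at h1

include hqc hv hv' in
/-- The number of zeros in a period of a sum of eigenfunctions. -/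
theorem sturm_main {P : ℝ} (hP : 0 < P) (hq0 : ∀ x, 0 < q x) (hqP : ∀ x, q (x + P) = q x)
    {S : Finset ℝ} (hS : S.Nonempty) (per : ∀ κ x, v κ (x + P) = v κ x)
    (hne : ∀ κ ∈ S, ∃ x, v κ x ≠ 0) {Λ : ℝ} (hΛ : ∀ κ ∈ S, ∀ x, |q x - κ| ≤ Λ) {Z : Finset ℝ}
    (hZ : ∀ z ∈ Z, z ∈ Ico 0 P ∧ ∑ κ ∈ S, v κ z = 0) : (Z.card : ℝ) ≤ P * Real.sqrt Λ := by
  obtain ⟨κ1, hκ1⟩ := hS
  have hS : S.Nonempty := ⟨κ1, hκ1⟩
  have hΛ0 : 0 ≤ Λ := (abs_nonneg _).trans (hΛ κ1 hκ1 0)
  by_contra hcon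
  rw [not_le] at hcon
  have hn0 : (0 : ℝ) < Z.card := lt_of_le_of_lt (by positivity) hcon
  have hn : 0 < Z.card := by exact_mod_cast hn0
  obtain ⟨Q, -, hQ⟩ := per_bound hqc hP hqP
  have hpos : ∀ κ ∈ S, 0 < κ := fun κ hκ => kappa_pos hv hv' hP hq0 (per κ) (hne κ hκ)
  -- the infinite sequences of zeros
  have hFS0 : ∀ x, FS S (fun κ => κ ^ 0) v x = ∑ κ ∈ S, v κ x := fun x => by
    unfold FS
    simp
  have hZ0 : Zs (FS S (fun κ => κ ^ 0) v) (P / Z.card) :=
    Zs_init hP (fun x => by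
      rw [hFS0, hFS0]
      exact Finset.sum_congr rfl fun κ _ => per κ x) (fun z hz => by
      rw [hFS0]
      exact hZ z hz) hn
  have hZk := Zs_iter hqc hv hv' hQ hq0 hS hpos hne hZ0
  set h := P / Z.card with hh
  have hh0 : 0 < h := by positivity
  have hΛh : Λ * h ^ 2 < 1 := by
    rw [hh, div_pow, ← mul_div_assoc, div_lt_one (by positivity)]
    have h1 : (P * Real.sqrt Λ) ^ 2 < (Z.card : ℝ) ^ 2 := by
      have h2 : 0 ≤ P * Real.sqrt Λ := by positivity
      nlinarith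
    rw [mul_pow, Real.sq_sqrt hΛ0] at h1
    linarith
  obtain ⟨ε, hε, hl⟩ : ∃ ε : ℝ, 0 < ε ∧ Λ * (h + ε) ^ 2 < 1 := by
    set d := (1 - Λ * h ^ 2) / (Λ * (2 * h + 1) + 1) with hd
    have hd0 : 0 < d := by
      have : 0 < 1 - Λ * h ^ 2 := by linarith
      positivity
    refine ⟨min 1 d, by positivity, ?_⟩
    have h1 : min 1 d ≤ 1 := min_le_left _ _
    have h2 : min 1 d ≤ d := min_le_right _ _
    have h3 : 0 < min 1 d := by positivity
    set m := min 1 d
    have h4 : d * (Λ * (2 * h + 1) + 1) = 1 - Λ * h ^ 2 := by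
      rw [hd]
      field_simp
    have h5 : 0 ≤ Λ * (2 * h + 1) := by positivity
    have h6 : m * (Λ * (2 * h + 1)) ≤ d * (Λ * (2 * h + 1)) := mul_le_mul_of_nonneg_right h2 h5
    have h7 : Λ * (m * m) ≤ Λ * m := by
      have : m * m ≤ m := by nlinarith
      exact mul_le_mul_of_nonneg_left this hΛ0
    nlinarith
  set l := h + ε with hldef
  have hl0 : 0 < l := by positivity
  -- the top eigenvalue
  set κ0 := S.max' hS with hκ0
  have hκ0S : κ0 ∈ S := S.max'_mem hS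
  have hκ0p := hpos κ0 hκ0S
  have hvc : ∀ κ, Continuous (v κ) := fun κ =>
    continuous_iff_continuousAt.2 fun t => (hv κ t).continuousAt
  have hvc' : ∀ κ, Continuous (v' κ) := fun κ =>
    continuous_iff_continuousAt.2 fun t => (hv' κ t).continuousAt
  have per' : ∀ κ x, v' κ (x + P) = v' κ x := by
    intro κ x
    have h1 : HasDerivAt (fun t => v κ (t + P)) (v' κ (x + P)) x :=
      (hv κ (x + P)).comp_add_const x P
    have h2 : (fun t => v κ (t + P)) = v κ := funext fun t => per κ t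
    rw [h2] at h1
    exact h1.unique (hv κ x)
  have hB : ∀ κ, ∃ B : ℝ, 0 ≤ B ∧ ∀ x, |v κ x| ≤ B ∧ |v' κ x| ≤ B := by
    intro κ
    obtain ⟨B1, h1, h2⟩ := per_bound (hvc κ) hP (per κ)
    obtain ⟨B2, h3, h4⟩ := per_bound (hvc' κ) hP (per' κ)
    exact ⟨B1 + B2, by positivity, fun x => ⟨(h2 x).trans (by linarith),
      (h4 x).trans (by linarith)⟩⟩
  choose B hB0 hB using hB
  -- positivity on the compact set
  obtain ⟨c, hc, hΦ⟩ : ∃ c : ℝ, 0 < c ∧ ∀ s ∈ Icc 0 P, ∀ t ∈ Icc 0 l,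
      c ≤ |v κ0 s| + |v' κ0 (s + t)| := by
    have hcomp : IsCompact (Icc 0 P ×ˢ Icc 0 l) := isCompact_Icc.prod isCompact_Icc
    have hcont : Continuous fun p : ℝ × ℝ => |v κ0 p.1| + |v' κ0 (p.1 + p.2)| :=
      ((hvc κ0).comp continuous_fst).abs.add
        ((hvc' κ0).comp (continuous_fst.add continuous_snd)).abs
    obtain ⟨p, hp, hmin⟩ := hcomp.exists_isMinOn
      ⟨(0, 0), ⟨⟨le_rfl, hP.le⟩, le_rfl, hl0.le⟩⟩ hcont.continuousOn
    refine ⟨|v κ0 p.1| + |v' κ0 (p.1 + p.2)|, ?_, fun s hs t ht => hmin (show (s, t) ∈ _ from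
      ⟨hs, ht⟩)⟩
    rcases (add_nonneg (abs_nonneg (v κ0 p.1)) (abs_nonneg (v' κ0 (p.1 + p.2)))).eq_or_lt with h1 | h1
    · exfalso
      have h2 := abs_nonneg (v κ0 p.1)
      have h3 := abs_nonneg (v' κ0 (p.1 + p.2))
      have h4 : v κ0 p.1 = 0 := abs_eq_zero.1 (by linarith)
      have h5 : v' κ0 (p.1 + p.2) = 0 := abs_eq_zero.1 (by linarith)
      obtain ⟨x, hx⟩ := hne κ0 hκ0S
      exact hx (no_close (hv κ0) (hv' κ0) (hΛ κ0 hκ0S) hp.2.1 hp.2.2 hl h4 h5 x)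
    · exact h1
  -- the error
  have hlim : Tendsto (fun k : ℕ => ∑ κ ∈ S.erase κ0, (κ / κ0) ^ k * B κ) atTop (𝓝 0) := by
    have h1 : Tendsto (fun k : ℕ => ∑ κ ∈ S.erase κ0, (κ / κ0) ^ k * B κ) atTop
        (𝓝 (∑ κ ∈ S.erase κ0, 0 * B κ)) := by
      refine tendsto_finsetSum _ fun κ hκ => Tendsto.mul_const _ ?_
      have h2 := Finset.mem_of_mem_erase hκ
      have h3 : κ < κ0 := lt_of_le_of_ne (S.le_max' κ h2) (Finset.ne_of_mem_erase hκ)
      exact tendsto_pow_atTop_nhds_zero_of_lt_one (div_nonneg (hpos κ h2).le hκ0p.le)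
        ((div_lt_one hκ0p).2 h3)
    simpa using h1
  obtain ⟨k, hk⟩ := (hlim.eventually_lt_const (show (0 : ℝ) < c / 2 by positivity)).exists
  have herr : ∀ u : ℝ → ℝ → ℝ, (∀ κ x, |u κ x| ≤ B κ) → ∀ x, FS S (fun κ => κ ^ k) u x = 0 →
      |u κ0 x| < c / 2 := by
    intro u hu x hx
    unfold FS at hx
    rw [← Finset.add_sum_erase S _ hκ0S] at hx
    have h1 : u κ0 x = -∑ κ ∈ S.erase κ0, (κ / κ0) ^ k * u κ x := by
      have h2 : ∑ κ ∈ S.erase κ0, (κ / κ0) ^ k * u κ x =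
          (∑ κ ∈ S.erase κ0, κ ^ k * u κ x) / κ0 ^ k := by
        rw [Finset.sum_div]
        refine Finset.sum_congr rfl fun κ _ => ?_
        rw [div_pow]
        ring
      rw [h2, eq_neg_iff_add_eq_zero]
      have h3 : κ0 ^ k ≠ 0 := pow_ne_zero _ hκ0p.ne'
      field_simp
      linarith
    rw [h1, abs_neg]
    refine lt_of_le_of_lt ((Finset.abs_sum_le_sum_abs _ _).trans ?_) hk
    refine Finset.sum_le_sum fun κ hκ => ?_
    have h2 := Finset.mem_of_mem_erase hκ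
    rw [abs_mul, abs_of_nonneg (pow_nonneg (div_nonneg (hpos κ h2).le hκ0p.le) k)]
    exact mul_le_mul_of_nonneg_left (hu κ x)
      (pow_nonneg (div_nonneg (hpos κ h2).le hκ0p.le) k)
  -- the two close zeros
  obtain ⟨s, t, hst, hs0, ht0, hgap⟩ := Zs_gap (hZk k) hε
  obtain ⟨r, hr, hr0⟩ := exists_hasDerivAt_eq_zero hst
    (continuous_iff_continuousAt.2 fun t => (FS_d hv S (fun κ => κ ^ k) t).continuousAt).continuousOn
    (hs0.trans ht0.symm) (fun x _ => FS_d hv S (fun κ => κ ^ k) x)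
  have e1 := herr v (fun κ x => (hB κ x).1) s hs0
  have e2 := herr v' (fun κ x => (hB κ x).2) r hr0
  -- reduction to the period
  have hper : Function.Periodic (v κ0) P := per κ0
  have hper' : Function.Periodic (v' κ0) P := per' κ0
  have hfl := Int.floor_le (s / P)
  have hfl' := Int.lt_floor_add_one (s / P)
  rw [le_div_iff₀ hP] at hfl
  rw [div_lt_iff₀ hP] at hfl'
  have e3 := hΦ (s - ⌊s / P⌋ * P) ⟨by linarith, by linarith⟩ (r - s)
    ⟨by linarith [hr.1], by linarith [hr.2]⟩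
  have e4 : s - ⌊s / P⌋ * P + (r - s) = r - ⌊s / P⌋ * P := by ring
  rw [e4, hper.sub_int_mul_eq, hper'.sub_int_mul_eq] at e3
  linarith

end

end Pool.Agent.NH44.LT
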