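import Pool.Agent.NH44.LT.FinD
import Pool.Agent.NH44.LT.Sturm2

/-!
# The number of zeros on the lines
-/

set_option autoImplicit false

open MeasureTheory Real Filter Topology Set Function
open Pool.Agent.Y291.DB Pool.Agent.Y291.PA Pool.Agent.R220.LV

namespace Pool.Agent.NH44.LT

theorem line_zeros {n : ℕ} {h : ℝ → ℝ} {lam H M P : ℝ} (hh : Continuous h) (hP : 0 < P)
    (hper : ∀ x, h (x + P) = h x) (hlam : 0 < lam) (hH : ∀ x, |h x| ≤ H) {ν : Fin n → ℝ}
    {w w' : Fin n → ℝ → ℝ} (hw : ∀ i t, HasDerivAt (w i) (w' i t) t)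
    (hw' : ∀ i t, HasDerivAt (w' i) ((ν i - lam * h t) * w i t) t)
    (wper : ∀ i t, w i (t + P) = w i t) (hν : ∀ i, |ν i| ≤ lam * M)
    (hne : ∃ t, ∑ i, w i t ≠ 0) {Z : Finset ℝ}
    (hZ : ∀ z ∈ Z, z ∈ Ico 0 P ∧ ∑ i, w i z = 0) :
    (Z.card : ℝ) ≤ P * Real.sqrt (lam * (H + M)) := by
  classical
  set κ : Fin n → ℝ := fun i => lam * H + 1 - ν i with hκ
  set v : ℝ → ℝ → ℝ := fun k t => ∑ i, if κ i = k then w i t else 0 with hv
  set v' : ℝ → ℝ → ℝ := fun k t => ∑ i, if κ i = k then w' i t else 0 with hv'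
  set q : ℝ → ℝ := fun t => lam * H + 1 - lam * h t with hq
  set S : Finset ℝ := (Finset.univ.image κ).filter fun k => ∃ t, v k t ≠ 0 with hS
  have hsum : ∀ t, ∑ k ∈ S, v k t = ∑ i, w i t := by
    intro t
    have h1 : ∑ k ∈ S, v k t = ∑ k ∈ Finset.univ.image κ, v k t := by
      refine Finset.sum_subset (Finset.filter_subset _ _) fun k hk hk' => ?_
      by_contra h0
      exact hk' (Finset.mem_filter.2 ⟨hk, t, h0⟩)
    rw [h1, hv]
    simp only
    rw [Finset.sum_comm]
    refine Finset.sum_congr rfl fun i _ => ?_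
    rw [Finset.sum_ite_eq, if_pos (Finset.mem_image_of_mem _ (Finset.mem_univ i))]
  have hSne : S.Nonempty := by
    obtain ⟨t, ht⟩ := hne
    rw [← hsum] at ht
    exact Finset.nonempty_of_sum_ne_zero ht
  refine sturm_main (q := q) (v := v) (v' := v') (P := P) (S := S) (by fun_prop) ?_ ?_ hP ?_ ?_
    hSne ?_ ?_ ?_ (fun z hz => ⟨(hZ z hz).1, (hsum z).trans (hZ z hz).2⟩)
  · intro k x
    rw [hv, hv']
    simp only
    refine HasDerivAt.fun_sum fun i _ => ?_
    split_ifs
    · exact hw i x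
    · exact hasDerivAt_const _ _
  · intro k x
    have h1 : HasDerivAt (v' k) (∑ i, if κ i = k then (ν i - lam * h x) * w i x else 0) x := by
      rw [hv']
      simp only
      refine HasDerivAt.fun_sum fun i _ => ?_
      split_ifs
      · exact hw' i x
      · exact hasDerivAt_const _ _
    refine h1.congr_deriv ?_
    rw [hv]
    simp only
    rw [Finset.mul_sum]
    refine Finset.sum_congr rfl fun i _ => ?_
    split_ifs with h2
    · rw [← h2, hq, hκ]
      ring
    · rw [mul_zero]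
  · intro x
    rw [hq]
    simp only
    have h1 := (abs_le.1 (hH x)).2
    have := mul_le_mul_of_nonneg_left h1 hlam.le
    linarith
  · intro x
    rw [hq]
    simp only [hper]
  · intro k x
    rw [hv]
    simp only [wper]
  · intro k hk
    exact (Finset.mem_filter.1 hk).2
  · intro k hk x
    obtain ⟨i, -, rfl⟩ := Finset.mem_image.1 (Finset.mem_filter.1 hk).1
    have h1 : q x - κ i = ν i - lam * h x := by
      rw [hq, hκ]
      ring
    rw [h1]
    refine (abs_sub _ _).trans ?_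
    rw [abs_mul, abs_of_pos hlam]
    have h2 := mul_le_mul_of_nonneg_left (hH x) hlam.le
    have h3 := hν i
    linarith

variable {f g : ℝ → ℝ} {L lam : ℝ}

/-- the lines `x = const` and `y = const` -/
theorem zeros_lines (hf : Continuous f) (hg : Continuous g) (hL : 0 < L) (hlam : 0 < lam)
    (hfL : ∀ x, f (x + L) = f x) (hgp : ∀ y, g (y + 2 * π) = g y) {F G : ℝ}
    (hF : ∀ x, |f x| ≤ F) (hG : ∀ y, |g y| ≤ G) {φ : ℝ × ℝ → ℝ} (hφ : φ ∈ W hf hg L lam) :
    (∀ x0, (∃ y, φ (x0, y) ≠ 0) → ∀ Z : Finset ℝ, (∀ z ∈ Z, z ∈ Ico 0 (2 * π) ∧ φ (x0, z) = 0) →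
      (Z.card : ℝ) ≤ 2 * π * Real.sqrt (lam * (2 * (F + G)))) ∧
    ∀ y0, (∃ x, φ (x, y0) ≠ 0) → ∀ Z : Finset ℝ, (∀ z ∈ Z, z ∈ Ico 0 L ∧ φ (z, y0) = 0) →
      (Z.card : ℝ) ≤ L * Real.sqrt (lam * (2 * (F + G))) := by
  have hfin : FiniteDimensional ℝ (W hf hg L lam) := fin_W hf hg hL hlam (ρM := F + G)
    fun x y => add_le_add ((le_abs_self _).trans (hF x)) ((le_abs_self _).trans (hG y))
  obtain ⟨μ, e, h2, h3, h4, h5⟩ := decomp (lam := lam) hf hg hL
  obtain ⟨c, hc⟩ := h5 φ hφ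
  have hF0 : 0 ≤ F := (abs_nonneg _).trans (hF 0)
  have hG0 : 0 ≤ G := (abs_nonneg _).trans (hG 0)
  have hμ : ∀ i, |μ i| ≤ lam * (F + G) := by
    intro i
    have k1 := mu_le hL (h2 i) (h3 i) (h4 i) hlam (M := F) fun x => (le_abs_self _).trans (hF x)
    have k2 := mu_ge hL (h2 i) (h3 i) (h4 i) hlam (M := G) fun x => (le_abs_self _).trans (hG x)
    have k3 := mul_nonneg hlam.le hF0
    have k4 := mul_nonneg hlam.le hG0
    rw [abs_le]
    constructor <;> nlinarith
  have hφe : ∀ p, φ p = ∑ i, c i * e i p := by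
    intro p
    rw [hc]
    simp [Finset.sum_apply]
  have hdat : ∀ i, ∃ φx φxx φy φyy : ℝ → ℝ → ℝ,
      SP f g L lam (fun x y => e i (x, y)) φx φxx φy φyy := fun i => (h2 i).2
  choose φx φxx φy φyy hSP using hdat
  constructor
  · intro x0 hne Z hZ
    simp only [hφe] at hne hZ
    have h6 := line_zeros hg (by positivity : (0 : ℝ) < 2 * π) hgp hlam hG (ν := fun i => -μ i)
      (w := fun i y => c i * e i (x0, y)) (w' := fun i y => c i * φy i x0 y)
      (M := F + G)
      (fun i t => ((hSP i).s.dy x0 t).const_mul (c i)) (fun i t => by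
        have h7 := ((hSP i).s.dyy x0 t).const_mul (c i)
        refine h7.congr_deriv ?_
        rw [(joint_deriv (hSP i) (h4 i) x0 t).2]
        ring) (fun i t => by rw [(hSP i).py x0 t]) (fun i => by rw [abs_neg]; exact hμ i) hne hZ
    refine h6.trans (mul_le_mul_of_nonneg_left (Real.sqrt_le_sqrt ?_) (by positivity))
    exact mul_le_mul_of_nonneg_left (by linarith) hlam.le
  · intro y0 hne Z hZ
    simp only [hφe] at hne hZ
    have h6 := line_zeros hf hL hfL hlam hF (ν := μ)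
      (w := fun i x => c i * e i (x, y0)) (w' := fun i x => c i * φx i x y0)
      (M := F + G)
      (fun i t => ((hSP i).s.dx t y0).const_mul (c i)) (fun i t => by
        have h7 := ((hSP i).s.dxx t y0).const_mul (c i)
        refine h7.congr_deriv ?_
        rw [(joint_deriv (hSP i) (h4 i) t y0).1]
        ring) (fun i t => by rw [(hSP i).px t y0]) hμ hne hZ
    refine h6.trans (mul_le_mul_of_nonneg_left (Real.sqrt_le_sqrt ?_) hL.le)
    exact mul_le_mul_of_nonneg_left (by linarith) hlam.le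

end Pool.Agent.NH44.LT
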