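import Pool.Agent.NH44.LT.Local
import Pool.Agent.NH44.LT.Line

/-!
# The local lemma at the scale of the wavelength and grids without exceptional lines
-/

set_option autoImplicit false

open MeasureTheory Real Filter Topology Set Function
open Pool.Agent.Y291.DB Pool.Agent.Y291.PA Pool.Agent.R220.LV

namespace Pool.Agent.NH44.LT

variable {f g : ℝ → ℝ} {L : ℝ}

theorem dl_lam {lam : ℝ} (hlam : 0 < lam) : dl lam ^ 2 * lam ≤ 1 / 4 := by
  have h1 := dl_sq hlam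
  have h2 : 4 * (dl lam ^ 2 * lam) = lam / (1 + lam) := by
    rw [← mul_assoc, h1]
    ring
  have h3 : lam / (1 + lam) ≤ 1 := by
    rw [div_le_one (by positivity)]
    linarith
  linarith

/-- The local lemma at the scale `β dl lam`. -/
theorem LLs (hf : Continuous f) (hg : Continuous g) {F G : ℝ} (hF : ∀ x, |f x| ≤ F)
    (hG : ∀ y, |g y| ≤ G) : ∃ β0 : ℝ, 0 < β0 ∧ β0 ≤ 1 ∧ ∀ β lam : ℝ, 0 < β → β ≤ β0 → 0 < lam →
    ∀ φ ∈ W hf hg L lam, ∀ (p : ℝ × ℝ) (x1 x2 y1 y2 : ℝ),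
    x1 ∈ Icc (p.1 - 4 * (β * dl lam)) (p.1 - 3 * (β * dl lam)) →
    x2 ∈ Icc (p.1 + 3 * (β * dl lam)) (p.1 + 4 * (β * dl lam)) →
    y1 ∈ Icc (p.2 - 4 * (β * dl lam)) (p.2 - 3 * (β * dl lam)) →
    y2 ∈ Icc (p.2 + 3 * (β * dl lam)) (p.2 + 4 * (β * dl lam)) →
    ∀ (Z1 Z2 Z3 Z4 : Finset ℝ) (n : ℕ), (∀ t ∈ Icc y1 y2, φ (x2, t) = 0 → t ∈ Z1) →
    (∀ t ∈ Icc x1 x2, φ (t, y2) = 0 → t ∈ Z2) → (∀ t ∈ Icc y1 y2, φ (x1, t) = 0 → t ∈ Z3) →
    (∀ t ∈ Icc x1 x2, φ (t, y1) = 0 → t ∈ Z4) →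
    Z1.card + Z2.card + Z3.card + Z4.card ≤ n → ∀ m : ℝ, 0 < m →
    (∀ q : ℝ × ℝ, |q.1 - p.1| ≤ β * dl lam → |q.2 - p.2| ≤ β * dl lam → |φ q| ≤ m) →
    ∀ q : ℝ × ℝ, |q.1 - p.1| ≤ 2 * (β * dl lam) → |q.2 - p.2| ≤ 2 * (β * dl lam) →
      |φ q| ≤ m * Real.exp (20000 * (n + 1)) := by
  obtain ⟨ε, hε, H⟩ := LL
  have hF0 : 0 ≤ F := (abs_nonneg _).trans (hF 0)
  have hG0 : 0 ≤ G := (abs_nonneg _).trans (hG 0)
  refine ⟨min 1 (ε / (F + G + 1)), by positivity, min_le_left _ _, ?_⟩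
  intro β lam hβ hββ hlam φ hφ p x1 x2 y1 y2 hx1 hx2 hy1 hy2 Z1 Z2 Z3 Z4 n z1 z2 z3 z4 hn m hm
    hsmall q hq1 hq2
  have hβ1 : β ≤ 1 := hββ.trans (min_le_left _ _)
  have hβε : β * (F + G + 1) ≤ ε := by
    have := hββ.trans (min_le_right _ _)
    rwa [le_div_iff₀ (by positivity)] at this
  obtain ⟨φx, φxx, φy, φyy, hS⟩ := hφ.2
  set δ := β * dl lam with hδ
  have hδ0 : 0 < δ := mul_pos hβ (dl_pos hlam)
  have hδlam : δ ^ 2 * lam ≤ β := by
    rw [hδ, mul_pow]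
    have h1 := dl_lam hlam
    have h2 : β ^ 2 ≤ β := by nlinarith
    have h3 : 0 ≤ dl lam ^ 2 * lam := by positivity
    nlinarith [mul_le_mul_of_nonneg_left h1 (sq_nonneg β)]
  have hlin1 : ∀ (c x : ℝ), HasDerivAt (fun t => c + δ * t) δ x := by
    intro c x
    have := ((hasDerivAt_id x).const_mul δ).const_add c
    simpa using this
  have cc : ∀ K : ℝ → ℝ → ℝ, Continuous (uncurry K) → ∀ r : ℝ,
      Continuous (uncurry fun x y => r * K (p.1 + δ * x) (p.2 + δ * y)) := by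
    intro K hK r
    have h1 : Continuous fun z : ℝ × ℝ => r * uncurry K (p.1 + δ * z.1, p.2 + δ * z.2) :=
      continuous_const.mul (hK.comp (by fun_prop))
    exact h1
  have hsol : Sol2 (fun x y => δ ^ 2 * lam * f (p.1 + δ * x) + δ ^ 2 * lam * g (p.2 + δ * y))
      (fun x y => φ (p.1 + δ * x, p.2 + δ * y))
      (fun x y => δ * φx (p.1 + δ * x) (p.2 + δ * y))
      (fun x y => δ ^ 2 * φxx (p.1 + δ * x) (p.2 + δ * y))
      (fun x y => δ * φy (p.1 + δ * x) (p.2 + δ * y))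
      (fun x y => δ ^ 2 * φyy (p.1 + δ * x) (p.2 + δ * y)) := by
    refine ⟨?_, ?_, cc _ hS.s.cx _, cc _ hS.s.cxx _, cc _ hS.s.cy _, cc _ hS.s.cyy _, ?_, ?_, ?_,
      ?_, ?_⟩
    · have : Continuous fun z : ℝ × ℝ => δ ^ 2 * lam * f (p.1 + δ * z.1) +
          δ ^ 2 * lam * g (p.2 + δ * z.2) := by fun_prop
      exact this
    · have h1 := cc (fun x y => φ (x, y)) hS.s.c 1
      simp only [one_mul] at h1
      exact h1
    · intro x y
      have h1 := (hS.s.dx (p.1 + δ * x) (p.2 + δ * y)).comp x (hlin1 p.1 x)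
      refine h1.congr_deriv ?_
      ring
    · intro x y
      have h1 := ((hS.s.dxx (p.1 + δ * x) (p.2 + δ * y)).comp x (hlin1 p.1 x)).const_mul δ
      refine h1.congr_deriv ?_
      ring
    · intro x y
      have h1 := (hS.s.dy (p.1 + δ * x) (p.2 + δ * y)).comp y (hlin1 p.2 y)
      refine h1.congr_deriv ?_
      ring
    · intro x y
      have h1 := ((hS.s.dyy (p.1 + δ * x) (p.2 + δ * y)).comp y (hlin1 p.2 y)).const_mul δ
      refine h1.congr_deriv ?_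
      ring
    · intro x y
      have h1 : φxx (p.1 + δ * x) (p.2 + δ * y) + φyy (p.1 + δ * x) (p.2 + δ * y) =
        -(lam * (f (p.1 + δ * x) + g (p.2 + δ * y)) * φ (p.1 + δ * x, p.2 + δ * y)) :=
        hS.s.pde _ _
      linear_combination (δ ^ 2) * h1
  have hab : ∀ (h : ℝ → ℝ) (K : ℝ) (c : ℝ), K ≤ F + G + 1 → (∀ x, |h x| ≤ K) → ∀ x,
      |δ ^ 2 * lam * h (c + δ * x)| ≤ ε := by
    intro h K c hK hh x
    rw [abs_mul, abs_of_nonneg (by positivity : 0 ≤ δ ^ 2 * lam)]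
    calc δ ^ 2 * lam * |h (c + δ * x)| ≤ β * (F + G + 1) :=
          mul_le_mul hδlam ((hh _).trans hK) (abs_nonneg _) hβ.le
      _ ≤ ε := hβε
  -- coordinates
  have cx : ∀ x c : ℝ, c + δ * ((x - c) / δ) = x := by
    intro x c
    field_simp
    ring
  have mem : ∀ (c t s1 s2 : ℝ), t ∈ Icc ((s1 - c) / δ) ((s2 - c) / δ) → c + δ * t ∈ Icc s1 s2 := by
    intro c t s1 s2 ht
    have h1 := ht.1
    have h2 := ht.2
    rw [div_le_iff₀ hδ0] at h1
    rw [le_div_iff₀ hδ0] at h2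
    exact ⟨by linarith, by linarith⟩
  have im : ∀ (Z : Finset ℝ) (c t : ℝ), c + δ * t ∈ Z → t ∈ Z.image fun s => (s - c) / δ := by
    intro Z c t ht
    refine Finset.mem_image.2 ⟨_, ht, ?_⟩
    field_simp
    ring
  have hmain := H (fun x => δ ^ 2 * lam * f (p.1 + δ * x)) (fun y => δ ^ 2 * lam * g (p.2 + δ * y))
    _ _ _ _ _ (by fun_prop) (by fun_prop) (hab f F p.1 (by linarith) hF)
    (hab g G p.2 (by linarith) hG) hsol ((x1 - p.1) / δ) ((x2 - p.1) / δ) ((y1 - p.2) / δ)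
    ((y2 - p.2) / δ)
    ⟨by rw [le_div_iff₀ hδ0]; linarith [hx1.1], by rw [div_le_iff₀ hδ0]; linarith [hx1.2]⟩
    ⟨by rw [le_div_iff₀ hδ0]; linarith [hx2.1], by rw [div_le_iff₀ hδ0]; linarith [hx2.2]⟩
    ⟨by rw [le_div_iff₀ hδ0]; linarith [hy1.1], by rw [div_le_iff₀ hδ0]; linarith [hy1.2]⟩
    ⟨by rw [le_div_iff₀ hδ0]; linarith [hy2.1], by rw [div_le_iff₀ hδ0]; linarith [hy2.2]⟩
    (Z1.image fun s => (s - p.2) / δ) (Z2.image fun s => (s - p.1) / δ)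
    (Z3.image fun s => (s - p.2) / δ) (Z4.image fun s => (s - p.1) / δ) n
    (fun t ht h0 => im _ _ _ (z1 _ (mem _ _ _ _ ht) (by simpa only [cx] using h0)))
    (fun t ht h0 => im _ _ _ (z2 _ (mem _ _ _ _ ht) (by simpa only [cx] using h0)))
    (fun t ht h0 => im _ _ _ (z3 _ (mem _ _ _ _ ht) (by simpa only [cx] using h0)))
    (fun t ht h0 => im _ _ _ (z4 _ (mem _ _ _ _ ht) (by simpa only [cx] using h0)))
    (le_trans (by
      have k1 := Finset.card_image_le (s := Z1) (f := fun s => (s - p.2) / δ)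
      have k2 := Finset.card_image_le (s := Z2) (f := fun s => (s - p.1) / δ)
      have k3 := Finset.card_image_le (s := Z3) (f := fun s => (s - p.2) / δ)
      have k4 := Finset.card_image_le (s := Z4) (f := fun s => (s - p.1) / δ)
      omega) hn) m hm
    (fun x y hx hy => hsmall _ (by
      show |p.1 + δ * x - p.1| ≤ δ
      rw [add_sub_cancel_left, abs_mul, abs_of_pos hδ0]
      nlinarith) (by
      show |p.2 + δ * y - p.2| ≤ δ
      rw [add_sub_cancel_left, abs_mul, abs_of_pos hδ0]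
      nlinarith)) ((q.1 - p.1) / δ) ((q.2 - p.2) / δ)
    (by rw [abs_div, abs_of_pos hδ0, div_le_iff₀ hδ0]; exact hq1)
    (by rw [abs_div, abs_of_pos hδ0, div_le_iff₀ hδ0]; exact hq2)
  simp only [cx] at hmain
  exact hmain

/-- a finite set from a bound of the cardinalities of the finite subsets -/
theorem finite_of_bound {s : Set ℝ} {B : ℝ} (h : ∀ Z : Finset ℝ, (∀ z ∈ Z, z ∈ s) →
    (Z.card : ℝ) ≤ B) : s.Finite := by
  by_contra hcon
  obtain ⟨n, hn⟩ := exists_nat_gt B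
  obtain ⟨Z, hZ, hc⟩ := Set.Infinite.exists_subset_card_eq hcon n
  have := h Z fun z hz => hZ hz
  rw [hc] at this
  linarith

/-- an offset without zeros -/
theorem good_offset {u : ℝ → ℝ} {P : ℝ} (hP : 0 < P) (per : ∀ x, u (x + P) = u x)
    (hfin : {x | x ∈ Ico 0 P ∧ u x = 0}.Finite) (h : ℝ) : ∃ ξ : ℝ, ∀ k : ℤ, u (ξ + k * h) ≠ 0 := by
  set E : Set ℝ := {x | u x = 0} with hE
  have hper : Function.Periodic u P := per
  have hEc : E.Countable := by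
    have h1 : E ⊆ ⋃ m : ℤ, (fun x => x + m * P) '' {x | x ∈ Ico 0 P ∧ u x = 0} := by
      intro x hx
      rw [mem_iUnion]
      refine ⟨⌊x / P⌋, x - ⌊x / P⌋ * P, ⟨⟨?_, ?_⟩, ?_⟩, by simp⟩
      · have := Int.floor_le (x / P)
        rw [le_div_iff₀ hP] at this
        linarith
      · have := Int.lt_floor_add_one (x / P)
        rw [div_lt_iff₀ hP] at this
        linarith
      · rw [hper.sub_int_mul_eq]
        exact hx
    exact (countable_iUnion fun m => (hfin.image _).countable).mono h1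
  have h2 : (⋃ k : ℤ, (fun x => x - k * h) '' E).Countable :=
    countable_iUnion fun k => hEc.image _
  obtain ⟨ξ, hξ⟩ := (h2.dense_compl ℝ).nonempty
  refine ⟨ξ, fun k hk => hξ ?_⟩
  rw [mem_iUnion]
  exact ⟨k, ξ + k * h, hk, by simp⟩

end Pool.Agent.NH44.LT
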