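import Mathlib

/-!
# Arguments along segments, logarithms and factorizations
-/

set_option autoImplicit false

open Complex Filter Topology Metric Set

namespace Pool.Agent.NH44.LT

/-- The sign relation between a continuous argument `A` and a real function `U`. -/
def SignRel (A U : ℝ → ℝ) (a b : ℝ) : Prop :=
  ∀ t ∈ Icc a b, ∀ m : ℤ, A t = Real.pi * m → 0 < (-1 : ℝ) ^ m * U t

theorem SignRel.neg {A U : ℝ → ℝ} {a b : ℝ} (h : SignRel A U a b) :
    SignRel (fun t => -A t) U a b := by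
  intro t ht m hm
  have h1 := h t ht (-m) (by push_cast; linarith)
  rwa [zpow_neg, ← inv_zpow, inv_neg, inv_one] at h1

theorem SignRel.mono {A U : ℝ → ℝ} {a b a' b' : ℝ} (h : SignRel A U a b) (ha : a ≤ a')
    (hb : b' ≤ b) : SignRel A U a' b' :=
  fun t ht => h t ⟨ha.trans ht.1, ht.2.trans hb⟩

/-- without zeros the argument moves by at most `2 π` -/
theorem arg_base {A U : ℝ → ℝ} {a b : ℝ} (hab : a ≤ b) (hA : ContinuousOn A (Icc a b))
    (hU : ContinuousOn U (Icc a b)) (h : SignRel A U a b) (h0 : ∀ t ∈ Ioo a b, U t ≠ 0) :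
    A b - A a ≤ 2 * Real.pi := by
  by_contra hcon
  rw [not_le] at hcon
  have hπ := Real.pi_pos
  set m : ℤ := ⌊A a / Real.pi⌋ + 1 with hm
  have h1 : A a < Real.pi * m := by
    have := Int.lt_floor_add_one (A a / Real.pi)
    rw [div_lt_iff₀ hπ] at this
    rw [hm]; push_cast; linarith
  have h2 : Real.pi * (m : ℝ) ≤ A a + Real.pi := by
    have := Int.floor_le (A a / Real.pi)
    rw [le_div_iff₀ hπ] at this
    rw [hm]; push_cast; linarith
  have h3 : Real.pi * ((m + 1 : ℤ) : ℝ) < A b := by push_cast; linarith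
  have h1' : A a < Real.pi * ((m + 1 : ℤ) : ℝ) := by push_cast; linarith
  have h3' : Real.pi * (m : ℝ) < A b := by linarith
  obtain ⟨t1, ht1, e1⟩ := intermediate_value_Ioo hab hA ⟨h1, h3'⟩
  obtain ⟨t2, ht2, e2⟩ := intermediate_value_Ioo hab hA ⟨h1', h3⟩
  have s1 := h t1 (Ioo_subset_Icc_self ht1) m e1
  have s2 := h t2 (Ioo_subset_Icc_self ht2) (m + 1) e2
  have s3 : U t1 * U t2 < 0 := by
    have h4 : (-1 : ℝ) ^ (m + 1) = -((-1 : ℝ) ^ m) := by
      rw [zpow_add₀ (by norm_num), zpow_one]; ring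
    rw [h4] at s2
    have h5 : ((-1 : ℝ) ^ m) * ((-1 : ℝ) ^ m) = 1 := by
      rw [← mul_zpow]; norm_num
    have h6 := mul_pos s1 s2
    nlinarith [h6, h5]
  have hsub : uIcc t1 t2 ⊆ Ioo a b := by
    intro t ht
    rw [mem_uIcc] at ht
    rcases ht with ht | ht
    · exact ⟨ht1.1.trans_le ht.1, ht.2.trans_lt ht2.2⟩
    · exact ⟨ht2.1.trans_le ht.1, ht.2.trans_lt ht1.2⟩
  have hUc : ContinuousOn U (uIcc t1 t2) := hU.mono (hsub.trans Ioo_subset_Icc_self)
  have hz : (0 : ℝ) ∈ uIcc (U t1) (U t2) := by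
    rw [mem_uIcc]
    rcases le_or_gt (U t1) 0 with h7 | h7
    · left
      refine ⟨h7, ?_⟩
      by_contra h8
      rw [not_le] at h8
      nlinarith [mul_nonneg_of_nonpos_of_nonpos h7 h8.le]
    · right
      refine ⟨?_, h7.le⟩
      by_contra h8
      rw [not_le] at h8
      nlinarith [mul_pos h7 h8]
  obtain ⟨t, ht, e⟩ := intermediate_value_uIcc hUc hz
  exact h0 t (hsub ht) e

theorem arg_osc {A U : ℝ → ℝ} : ∀ (n : ℕ) (a b : ℝ) (Z : Finset ℝ), Z.card ≤ n → a ≤ b →
    ContinuousOn A (Icc a b) → ContinuousOn U (Icc a b) → SignRel A U a b →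
    (∀ t ∈ Ioo a b, U t = 0 → t ∈ Z) → |A b - A a| ≤ 2 * Real.pi * (n + 1) := by
  intro n
  induction n using Nat.strong_induction_on with
  | _ n ih =>
  intro a b Z hZ hab hA hU h h0
  by_cases hz : ∃ c ∈ Ioo a b, U c = 0
  · obtain ⟨c, hc, hUc⟩ := hz
    set Z1 := Z.filter (· < c) with hZ1
    set Z2 := Z.filter (c < ·) with hZ2
    have hcZ : c ∈ Z := h0 c hc hUc
    have hcard : Z1.card + Z2.card + 1 ≤ n := by
      refine le_trans ?_ hZ
      have hd : Disjoint Z1 Z2 := by
        rw [Finset.disjoint_filter]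
        intro x _ h1 h2
        exact lt_asymm h1 h2
      rw [← Finset.card_union_of_disjoint hd]
      have hnot : c ∉ Z1 ∪ Z2 := by simp [hZ1, hZ2]
      rw [← Finset.card_insert_of_notMem hnot]
      refine Finset.card_le_card ?_
      intro x hx
      rw [Finset.mem_insert, Finset.mem_union, hZ1, hZ2, Finset.mem_filter, Finset.mem_filter] at hx
      rcases hx with rfl | hx | hx
      · exact hcZ
      · exact hx.1
      · exact hx.1
    have s1 : Icc a c ⊆ Icc a b := Icc_subset_Icc_right hc.2.le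
    have s2 : Icc c b ⊆ Icc a b := Icc_subset_Icc_left hc.1.le
    have i1 := ih Z1.card (by omega) a c Z1 le_rfl hc.1.le (hA.mono s1) (hU.mono s1)
      (h.mono le_rfl hc.2.le) (fun t ht hUt => by
        rw [hZ1, Finset.mem_filter]
        exact ⟨h0 t ⟨ht.1, ht.2.trans hc.2⟩ hUt, ht.2⟩)
    have i2 := ih Z2.card (by omega) c b Z2 le_rfl hc.2.le (hA.mono s2) (hU.mono s2)
      (h.mono hc.1.le le_rfl) (fun t ht hUt => by
        rw [hZ2, Finset.mem_filter]
        exact ⟨h0 t ⟨hc.1.trans ht.1, ht.2⟩ hUt, ht.1⟩)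
    have h3 : |A b - A a| ≤ |A c - A a| + |A b - A c| := by
      have : A b - A a = (A c - A a) + (A b - A c) := by ring
      rw [this]
      exact abs_add_le _ _
    have h4 : ((Z1.card : ℝ) + Z2.card + 1) ≤ n := by exact_mod_cast hcard
    have hπ := Real.pi_pos
    nlinarith
  · push Not at hz
    have hπ := Real.pi_pos
    have h1 := arg_base hab hA hU h hz
    have h2 := arg_base hab hA.neg hU h.neg hz
    have h3 : |A b - A a| ≤ 2 * Real.pi := by
      rw [abs_le]
      constructor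
      · simp only [Pi.neg_apply] at h2
        linarith
      · exact h1
    have : (0 : ℝ) ≤ n := Nat.cast_nonneg n
    nlinarith

/-- holomorphic logarithms on convex open sets -/
theorem holo_log {U : Set ℂ} {H : ℂ → ℂ} (hU : IsOpen U) (hc : Convex ℝ U) (hne : U.Nonempty)
    (hH : DifferentiableOn ℂ H U) (h0 : ∀ z ∈ U, H z ≠ 0) :
    ∃ g : ℂ → ℂ, DifferentiableOn ℂ g U ∧ ∀ z ∈ U, exp (g z) = H z := by
  have hsc : IsSimplyConnected U := by
    have : ContractibleSpace U := hc.contractibleSpace hne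
    show SimplyConnectedSpace U
    infer_instance
  obtain ⟨g, hg, hE⟩ := Complex.exists_continuousOn_eqOn_exp_comp hsc hU
    hH.continuousOn (by
      rintro ⟨z, hz, hz0⟩
      exact h0 z hz hz0)
  refine ⟨g, ?_, fun z hz => hE hz⟩
  intro z0 hz0
  have hgz : ContinuousAt g z0 := hg.continuousAt (hU.mem_nhds hz0)
  have hHz : DifferentiableAt ℂ H z0 := hH.differentiableAt (hU.mem_nhds hz0)
  have hH0 := h0 z0 hz0
  have e1 : ∀ᶠ z in 𝓝 z0, g z = log (H z / H z0) + g z0 := by
    have h1 : ∀ᶠ z in 𝓝 z0, ‖g z - g z0‖ < 1 := by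
      have : Tendsto (fun z => ‖g z - g z0‖) (𝓝 z0) (𝓝 0) := by
        have h2 := (hgz.tendsto.sub_const (g z0)).norm
        simpa using h2
      exact this.eventually_lt_const one_pos
    filter_upwards [h1, hU.mem_nhds hz0] with z hz hzU
    have h2 : exp (g z - g z0) = H z / H z0 := by
      rw [exp_sub]
      have e2 : exp (g z) = H z := hE hzU
      have e3 : exp (g z0) = H z0 := hE hz0
      rw [e2, e3]
    have h3 : |(g z - g z0).im| < 1 := (abs_im_le_norm _).trans_lt hz
    have hπ := Real.pi_gt_three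
    have h4 := abs_lt.1 h3
    have h5 : log (exp (g z - g z0)) = g z - g z0 :=
      Complex.log_exp (by linarith [h4.1]) (by linarith [h4.2])
    rw [← h2, h5]
    ring
  have h6 : DifferentiableAt ℂ (fun z => log (H z / H z0) + g z0) z0 := by
    refine DifferentiableAt.add_const _ ?_
    refine DifferentiableAt.clog (hHz.div_const _) ?_
    rw [div_self hH0]
    exact one_mem_slitPlane
  exact (h6.congr_of_eventuallyEq e1).differentiableWithinAt

/-- A monic polynomial is not small on the circle of radius `1/4`. -/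
theorem monic_lower {k : ℕ} (z : Fin k → ℂ) {c : ℝ}
    (h : ∀ v : ℂ, ‖v‖ = 1 / 4 → ‖∏ j, (v - z j)‖ ≤ c) : 1 ≤ c * 4 ^ k := by
  set Q : ℂ → ℂ := fun u => ∏ j, (1 - z j * u) with hQ
  have hd : Differentiable ℂ Q := by
    rw [hQ]
    fun_prop
  have h1 : ∀ u ∈ frontier (ball (0 : ℂ) 4), ‖Q u‖ ≤ c * 4 ^ k := by
    intro u hu
    rw [frontier_ball _ (by norm_num), mem_sphere_zero_iff_norm] at hu
    have hu0 : u ≠ 0 := norm_pos_iff.1 (by rw [hu]; norm_num)
    have e1 : Q u = (∏ j, (u⁻¹ - z j)) * u ^ k := by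
      rw [hQ]
      simp only
      have : ∀ j, (1 - z j * u) = (u⁻¹ - z j) * u := fun j => by field_simp
      simp only [this]
      rw [Finset.prod_mul_distrib, Finset.prod_const, Finset.card_univ, Fintype.card_fin]
    rw [e1, norm_mul, norm_pow, hu]
    refine mul_le_mul_of_nonneg_right (h _ ?_) (by positivity)
    rw [norm_inv, hu]
    norm_num
  have h2 := Complex.norm_le_of_forall_mem_frontier_norm_le isBounded_ball
    (hd.diffContOnCl) h1 (z := 0) (subset_closure (by simp))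
  have h3 : Q 0 = 1 := by simp [hQ]
  rw [h3, norm_one] at h2
  exact h2

/-- Extraction of the zeros in a subset of the disc of radius `6`. -/
theorem factor {S : Set ℂ} (hS : ∀ z ∈ S, ‖z‖ ≤ 6) {c : ℂ} (hc : c ∈ S) :
    ∀ (n : ℕ) (G : ℂ → ℂ) (M : ℝ), DifferentiableOn ℂ G (ball 0 20) →
    (∀ v : ℂ, ‖v‖ ≤ 19 → ‖G v‖ ≤ M) → M * (12 / 13) ^ n < ‖G c‖ →
    ∃ (k : ℕ) (z : Fin k → ℂ) (H : ℂ → ℂ), (∀ j, z j ∈ S) ∧
      DifferentiableOn ℂ H (ball 0 20) ∧ (∀ v ∈ S, H v ≠ 0) ∧
      ∀ v ∈ ball (0 : ℂ) 20, G v = (∏ j, (v - z j)) * H v := by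
  intro n
  induction n with
  | zero =>
    intro G M hG hM h
    rw [pow_zero, mul_one] at h
    exact absurd (hM c ((hS c hc).trans (by norm_num))) (not_le.2 h)
  | succ n ih =>
    intro G M hG hM h
    by_cases hz : ∃ ζ ∈ S, G ζ = 0
    · obtain ⟨ζ, hζ, hGζ⟩ := hz
      have hζ6 := hS ζ hζ
      have hζb : ζ ∈ ball (0 : ℂ) 20 := mem_ball_zero_iff.2 (hζ6.trans_lt (by norm_num))
      have hd : DifferentiableOn ℂ (dslope G ζ) (ball 0 20) :=
        (Complex.differentiableOn_dslope (isOpen_ball.mem_nhds hζb)).2 hG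
      have hfac : ∀ v, G v = (v - ζ) * dslope G ζ v := by
        intro v
        have h1 := sub_smul_dslope G ζ v
        rw [hGζ, sub_zero, smul_eq_mul] at h1
        exact h1.symm
      have hb : ∀ v : ℂ, ‖v‖ ≤ 19 → ‖dslope G ζ v‖ ≤ M / 13 := by
        intro v hv
        have hcl : closedBall (0 : ℂ) 19 ⊆ ball 0 20 := closedBall_subset_ball (by norm_num)
        refine Complex.norm_le_of_forall_mem_frontier_norm_le (U := ball (0 : ℂ) 19)
          isBounded_ball (hd.diffContOnCl_ball hcl) ?_ ?_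
        · intro u hu
          rw [frontier_ball _ (by norm_num), mem_sphere_zero_iff_norm] at hu
          have h2 := hM u hu.le
          have h3 : 13 ≤ ‖u - ζ‖ := by
            have := norm_sub_norm_le u ζ
            rw [hu] at this
            linarith
          rw [hfac u, norm_mul] at h2
          rw [le_div_iff₀ (by norm_num)]
          have := mul_le_mul_of_nonneg_right h3 (norm_nonneg (dslope G ζ u))
          linarith
        · rw [closure_ball _ (by norm_num)]
          exact mem_closedBall_zero_iff.2 hv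
      have hcn : ‖G c‖ ≤ 12 * ‖dslope G ζ c‖ := by
        rw [hfac c, norm_mul]
        refine mul_le_mul_of_nonneg_right ?_ (norm_nonneg _)
        refine (norm_sub_le _ _).trans ?_
        linarith [hS c hc]
      have hlt : M / 13 * (12 / 13) ^ n < ‖dslope G ζ c‖ := by
        have h4 : M * (12 / 13) ^ (n + 1) = 12 * (M / 13 * (12 / 13) ^ n) := by
          rw [pow_succ]; ring
        rw [h4] at h
        linarith
      obtain ⟨k, z, H, h1, h2, h3, h4⟩ := ih _ _ hd hb hlt
      refine ⟨k + 1, Fin.cons ζ z, H, ?_, h2, h3, ?_⟩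
      · intro j
        refine Fin.cases ?_ (fun j => ?_) j
        · simpa using hζ
        · simpa using h1 j
      · intro v hv
        rw [Fin.prod_univ_succ]
        simp only [Fin.cons_zero, Fin.cons_succ]
        rw [hfac v, h4 v hv]
        ring
    · push Not at hz
      exact ⟨0, Fin.elim0, G, fun j => j.elim0, hG, hz, fun v _ => by simp⟩

/-- The factorization of a function which is not identically zero on `S`. -/
theorem factor' {S : Set ℂ} (hS : ∀ z ∈ S, ‖z‖ ≤ 6) {c : ℂ} (hc : c ∈ S) {G : ℂ → ℂ}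
    (hG : DifferentiableOn ℂ G (ball 0 20)) (h0 : G c ≠ 0) :
    ∃ (k : ℕ) (z : Fin k → ℂ) (H : ℂ → ℂ), (∀ j, z j ∈ S) ∧
      DifferentiableOn ℂ H (ball 0 20) ∧ (∀ v ∈ S, H v ≠ 0) ∧
      ∀ v ∈ ball (0 : ℂ) 20, G v = (∏ j, (v - z j)) * H v := by
  have hcl : closedBall (0 : ℂ) 19 ⊆ ball 0 20 := closedBall_subset_ball (by norm_num)
  obtain ⟨M, hM⟩ := (isCompact_closedBall (0 : ℂ) 19).exists_bound_of_continuousOn
    (hG.continuousOn.mono hcl)
  have hM' : ∀ v : ℂ, ‖v‖ ≤ 19 → ‖G v‖ ≤ M := fun v hv => hM v (mem_closedBall_zero_iff.2 hv)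
  have hM0 : 0 < M := (norm_pos_iff.2 h0).trans_le (hM' c ((hS c hc).trans (by norm_num)))
  obtain ⟨n, hn⟩ := exists_pow_lt_of_lt_one (show 0 < ‖G c‖ / M by
    exact div_pos (norm_pos_iff.2 h0) hM0) (show (12 / 13 : ℝ) < 1 by norm_num)
  refine factor hS hc n G M hG hM' ?_
  rw [lt_div_iff₀ hM0] at hn
  linarith

end Pool.Agent.NH44.LT
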