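import Pool.Agent.NH44.LT.Cnt
import Pool.Agent.Y291.DB.Count

/-!
# The average of the doubling indices
-/

set_option autoImplicit false

open MeasureTheory Real Filter Topology Set Function
open Pool.Agent.Y291.DB Pool.Agent.Y291.PA Pool.Agent.R220.LV

namespace Pool.Agent.NH44.LT

section geo

variable {ρ : ℝ × ℝ → ℝ} {L ρm ρM : ℝ} (hL : 0 < L) (hρc : Continuous ρ)
  (hρx : ∀ p : ℝ × ℝ, ρ (p.1 + L, p.2 + 0) = ρ p) (hρy : ∀ p : ℝ × ℝ, ρ (p.1, p.2 + 2 * π) = ρ p)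
  (hρ0 : 0 < ρm) (hρm : ∀ p, ρm ≤ ρ p) (hρM : ∀ p, ρ p ≤ ρM) {C : ℝ} (hC : 0 < C)
  {β A : ℝ} (hβ : 0 < β) (hβ1 : β ≤ 1) (hβC : 8 * β * Real.sqrt ρM ≤ C)
  (hA : 6 * C / Real.sqrt ρm + 3 * L + 6 * π ≤ A)

include hL hρc hρx hρy hρ0 hρm hρM hC hβ hβ1 hβC hA

open Classical in
/-- The number of the centers close to a point. -/
theorem mult_count {lam C₁ C₂ : ℝ} {φ : ℝ × ℝ → ℝ} (hlam : 0 < lam) {ι : Type} [Fintype ι]
    {c : ι → ℝ × ℝ} (hc : Admissible ρ L 0 lam φ C C₁ C₂ c) (D : ℕ) (a b : ℝ) :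
    ((Finset.univ.filter fun i => Nr L (2 * π) (D * (β * dl lam)) a b (c i).1 (c i).2).card : ℝ) ≤
      (2 * D + 1) ^ 2 * C₁ := by
  set δ := β * dl lam with hδ
  have hδ0 : 0 < δ := mul_pos hβ (dl_pos hlam)
  set K : Finset (ℤ × ℤ) := Finset.Icc (-(D : ℤ)) D ×ˢ Finset.Icc (-(D : ℤ)) D with hK
  set T : ℤ × ℤ → Finset ι := fun k => Finset.univ.filter fun i =>
    (a + k.1 * δ, b + k.2 * δ) ∈ disc ρ L 0 (c i) (C / Real.sqrt lam) with hT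
  have hKc : (K.card : ℝ) = (2 * D + 1) ^ 2 := by
    rw [hK, Finset.card_product, Int.card_Icc]
    have : ((D : ℤ) + 1 - -(D : ℤ)).toNat = 2 * D + 1 := by omega
    rw [this]
    push_cast
    ring
  have hsub : (Finset.univ.filter fun i => Nr L (2 * π) (D * δ) a b (c i).1 (c i).2) ⊆
      K.biUnion T := by
    intro i hi
    obtain ⟨m, n, h1, h2⟩ := (Finset.mem_filter.1 hi).2
    have key : ∀ x y : ℝ, |x - y| ≤ D * δ → ∃ k ∈ Finset.Icc (-(D : ℤ)) D,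
        |x + (k : ℝ) * δ - y| ≤ δ := by
      intro x y hxy
      rw [abs_le] at hxy
      set s := (y - x) / δ with hs
      have hs1 : s ≤ D := by
        rw [hs, div_le_iff₀ hδ0]
        linarith [hxy.1]
      have hs2 : -(D : ℝ) ≤ s := by
        rw [hs, le_div_iff₀ hδ0]
        linarith [hxy.2]
      refine ⟨⌊s⌋, Finset.mem_Icc.2 ⟨?_, ?_⟩, ?_⟩
      · rw [Int.le_floor]
        push_cast
        exact hs2
      · have h3 := Int.floor_le s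
        have h4 : (⌊s⌋ : ℝ) ≤ (D : ℤ) := by
          push_cast
          linarith
        exact_mod_cast h4
      · have h3 := Int.floor_le s
        have h4 := Int.lt_floor_add_one s
        have h5 : x + (⌊s⌋ : ℝ) * δ - y = ((⌊s⌋ : ℝ) - s) * δ := by
          rw [hs]
          field_simp
          ring
        rw [h5, abs_mul, abs_of_pos hδ0]
        have h6 : |(⌊s⌋ : ℝ) - s| ≤ 1 := by
          rw [abs_le]
          constructor <;> linarith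
        nlinarith
    obtain ⟨k1, hk1, e1⟩ := key _ _ h1
    obtain ⟨k2, hk2, e2⟩ := key _ _ h2
    refine Finset.mem_biUnion.2 ⟨(k1, k2), Finset.mem_product.2 ⟨hk1, hk2⟩,
      Finset.mem_filter.2 ⟨Finset.mem_univ _, ?_⟩⟩
    -- shift of the center
    have h3 := box_sub hL hρc hρx hρy hρ0 hρm hρM hC hβ hβ1 hβC hA hlam
      (p0 := ((c i).1 + (-m : ℤ) * L, (c i).2 + (-m : ℤ) * 0 + (-n : ℤ) * (2 * π)))
      (x := a + k1 * δ) (y := b + k2 * δ) (by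
        have f1 : a + k1 * δ - ((c i).1 + (-m : ℤ) * L) = a + m * L + k1 * δ - (c i).1 := by
          push_cast; ring
        have f2 : b + k2 * δ - ((c i).2 + (-m : ℤ) * 0 + (-n : ℤ) * (2 * π)) =
            b + n * (2 * π) + k2 * δ - (c i).2 := by push_cast; ring
        show |a + k1 * δ - ((c i).1 + (-m : ℤ) * L)| +
          |b + k2 * δ - ((c i).2 + (-m : ℤ) * 0 + (-n : ℤ) * (2 * π))| ≤ 8 * β * dl lam
        rw [f1, f2, mul_assoc, ← hδ]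
        linarith)
    have h4 : gdist ρ L 0 ((c i).1 + (-m : ℤ) * L, (c i).2 + (-m : ℤ) * 0 + (-n : ℤ) * (2 * π))
        (a + k1 * δ, b + k2 * δ) < C / Real.sqrt lam := h3
    rw [gdist_shift_left (fun m n p => per_all hρx hρy m n p)] at h4
    exact h4
  have hTc : ∀ k ∈ K, ((T k).card : ℝ) ≤ C₁ := by
    intro k _
    have h1 := hc.mult (a + k.1 * δ, b + k.2 * δ)
    have h2 : {i | (a + k.1 * δ, b + k.2 * δ) ∈ disc ρ L 0 (c i) (C / Real.sqrt lam)} =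
        (T k : Set ι) := by
      ext i
      simp [hT]
    rw [h2, Set.ncard_coe_finset] at h1
    exact h1
  calc ((Finset.univ.filter fun i => Nr L (2 * π) (D * δ) a b (c i).1 (c i).2).card : ℝ)
      ≤ ((K.biUnion T).card : ℝ) := by exact_mod_cast Finset.card_le_card hsub
    _ ≤ ∑ k ∈ K, ((T k).card : ℝ) := by exact_mod_cast Finset.card_biUnion_le
    _ ≤ ∑ k ∈ K, C₁ := Finset.sum_le_sum hTc
    _ = (2 * D + 1) ^ 2 * C₁ := by rw [Finset.sum_const, nsmul_eq_mul, hKc]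

/-- The doubling index from an estimate on squares. -/
theorem dbl2 {lam : ℝ} (hlam : 0 < lam) {φ : ℝ × ℝ → ℝ} (hφc : Continuous φ)
    (hpx : ∀ p : ℝ × ℝ, φ (p.1 + L, p.2 + 0) = φ p) (hpy : ∀ p : ℝ × ℝ, φ (p.1, p.2 + 2 * π) = φ p)
    (p : ℝ × ℝ) {Λ : ℝ} (hΛ : 1 ≤ Λ)
    (h : ∀ m, 0 < m → (∀ q : ℝ × ℝ, |q.1 - p.1| ≤ β * dl lam → |q.2 - p.2| ≤ β * dl lam →
      |φ q| ≤ m) → ∀ q : ℝ × ℝ, |q.1 - p.1| ≤ A * dl lam → |q.2 - p.2| ≤ A * dl lam →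
      |φ q| ≤ Λ * m) : doubling ρ L 0 φ p (C / Real.sqrt lam) ≤ Real.logb 2 Λ := by
  obtain ⟨B, hB0, hB⟩ := bounded_of_per hL hφc hpx hpy
  have hbdd : BddAbove ((fun q => |φ q|) '' disc ρ L 0 p (C / Real.sqrt lam)) :=
    ⟨B, by rintro _ ⟨q, _, rfl⟩; exact hB q⟩
  set ε := sSup ((fun q => |φ q|) '' disc ρ L 0 p (C / Real.sqrt lam)) with hε
  have hin : ∀ q : ℝ × ℝ, |q.1 - p.1| ≤ β * dl lam → |q.2 - p.2| ≤ β * dl lam →
      q ∈ disc ρ L 0 p (C / Real.sqrt lam) := by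
    intro q h1 h2
    refine box_sub hL hρc hρx hρy hρ0 hρm hρM hC hβ hβ1 hβC hA hlam ?_
    have : 0 < β * dl lam := mul_pos hβ (dl_pos hlam)
    linarith
  have hsm : ∀ q : ℝ × ℝ, |q.1 - p.1| ≤ β * dl lam → |q.2 - p.2| ≤ β * dl lam → |φ q| ≤ ε :=
    fun q h1 h2 => le_csSup hbdd ⟨q, hin q h1 h2, rfl⟩
  have hδ0 : 0 < β * dl lam := mul_pos hβ (dl_pos hlam)
  have hε0 : 0 ≤ ε := (abs_nonneg (φ p)).trans (hsm p (by simpa using hδ0.le) (by simpa using hδ0.le))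
  have hbig : ∀ q : ℝ × ℝ, |q.1 - p.1| ≤ A * dl lam → |q.2 - p.2| ≤ A * dl lam →
      |φ q| ≤ Λ * ε := by
    intro q h1 h2
    refine le_of_forall_pos_le_add fun η hη => ?_
    have h3 := h (ε + η / Λ) (by positivity) (fun q h1 h2 => (hsm q h1 h2).trans (by
      have : 0 < η / Λ := by positivity
      linarith)) q h1 h2
    have h4 : Λ * (ε + η / Λ) = Λ * ε + η := by field_simp
    rwa [h4] at h3
  have hsup : sSup ((fun q => |φ q|) '' disc ρ L 0 p (2 * (C / Real.sqrt lam))) ≤ Λ * ε := by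
    refine Real.sSup_le ?_ (by positivity)
    rintro _ ⟨q, hq, rfl⟩
    obtain ⟨m, n, h1, h2⟩ := double_sub hL hρc hρx hρy hρ0 hρm hρM hC hβ hβ1 hβC hA hlam hq
    show |φ q| ≤ Λ * ε
    rw [← per_all hpx hpy m n q]
    exact hbig _ h1 h2
  have hlogΛ : 0 ≤ Real.logb 2 Λ := Real.logb_nonneg one_lt_two hΛ
  unfold doubling
  rw [← hε]
  have hS2 : 0 ≤ sSup ((fun q => |φ q|) '' disc ρ L 0 p (2 * (C / Real.sqrt lam))) :=
    Real.sSup_nonneg (by rintro _ ⟨q, _, rfl⟩; exact abs_nonneg _)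
  have hrat : sSup ((fun q => |φ q|) '' disc ρ L 0 p (2 * (C / Real.sqrt lam))) / ε ≤ Λ := by
    rcases hε0.eq_or_lt with h0 | h0
    · rw [← h0, div_zero]
      linarith
    · rw [div_le_iff₀ h0]
      exact hsup
  rcases (div_nonneg hS2 hε0).eq_or_lt with h0 | h0
  · rw [← h0, Real.logb_zero]
    exact hlogΛ
  · exact Real.logb_le_logb_of_le one_lt_two h0 hrat

end geo

/-- the lines of a grid meet every interval of length `δ` -/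
theorem grid_line {ξ h δ : ℝ} (hh : 0 < h) (hδ : h ≤ δ) (t : ℝ) :
    ∃ k : ℤ, ξ + k * h ∈ Icc t (t + δ) := by
  refine ⟨⌈(t - ξ) / h⌉, ?_, ?_⟩
  · have := Int.le_ceil ((t - ξ) / h)
    rw [div_le_iff₀ hh] at this
    linarith
  · have h1 := Int.ceil_lt_add_one ((t - ξ) / h)
    have h2 : ((t - ξ) / h + 1) * h = t - ξ + h := by field_simp
    have h3 := mul_lt_mul_of_pos_right h1 hh
    rw [h2] at h3
    linarith

/-- grids without exceptional lines and the zeros on their lines -/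
structure GD (φ : ℝ × ℝ → ℝ) (L δ ξ η : ℝ) (N1 N2 : ℕ) (V H : ℕ → Finset ℝ) (B1 B2 : ℝ) :
    Prop where
  n1 : 0 < N1
  n2 : 0 < N2
  s1 : L / N1 ≤ δ
  s2 : 2 * π / N2 ≤ δ
  v : ∀ k < N1, ∀ z ∈ Ico 0 (2 * π), φ (ξ + k * (L / N1), z) = 0 → z ∈ V k
  h : ∀ k < N2, ∀ z ∈ Ico 0 L, φ (z, η + k * (2 * π / N2)) = 0 → z ∈ H k
  vc : ∀ k, ((V k).card : ℝ) ≤ B1
  hc : ∀ k, ((H k).card : ℝ) ≤ B2

open Classical in
/-- the number of the zeros close to `p` on the vertical lines -/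
noncomputable def cA (L D ξ : ℝ) (N1 : ℕ) (V : ℕ → Finset ℝ) (p : ℝ × ℝ) : ℕ :=
  ∑ k ∈ Finset.range N1, ((V k).filter fun z =>
    Nr L (2 * π) D (ξ + k * (L / N1)) z p.1 p.2).card

open Classical in
/-- the number of the zeros close to `p` on the horizontal lines -/
noncomputable def cB (L D η : ℝ) (N2 : ℕ) (H : ℕ → Finset ℝ) (p : ℝ × ℝ) : ℕ :=
  ∑ k ∈ Finset.range N2, ((H k).filter fun z =>
    Nr (2 * π) L D (η + k * (2 * π / N2)) z p.2 p.1).card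

theorem grid_n {P δ : ℝ} (hP : 0 < P) (hδ : 0 < δ) : 0 < ⌈P / δ⌉₊ ∧ P / (⌈P / δ⌉₊ : ℕ) ≤ δ ∧
    (⌈P / δ⌉₊ : ℝ) ≤ P / δ + 1 := by
  have h0 : 0 < ⌈P / δ⌉₊ := Nat.ceil_pos.2 (by positivity)
  have h0' : (0 : ℝ) < (⌈P / δ⌉₊ : ℕ) := by exact_mod_cast h0
  refine ⟨h0, ?_, (Nat.ceil_lt_add_one (show 0 ≤ P / δ by positivity)).le⟩
  rw [div_le_iff₀ h0']
  have := Nat.le_ceil (P / δ)
  rw [div_le_iff₀ hδ] at this
  linarith

theorem exists_grid {φ : ℝ × ℝ → ℝ} {L δ B1 B2 : ℝ} (hL : 0 < L) (hδ : 0 < δ)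
    (perx : ∀ x y, φ (x + L, y) = φ (x, y)) (pery : ∀ x y, φ (x, y + 2 * π) = φ (x, y))
    (hne : ∃ p, φ p ≠ 0)
    (hz1 : ∀ x0, (∃ y, φ (x0, y) ≠ 0) → ∀ Z : Finset ℝ,
      (∀ z ∈ Z, z ∈ Ico 0 (2 * π) ∧ φ (x0, z) = 0) → (Z.card : ℝ) ≤ B1)
    (hz2 : ∀ y0, (∃ x, φ (x, y0) ≠ 0) → ∀ Z : Finset ℝ,
      (∀ z ∈ Z, z ∈ Ico 0 L ∧ φ (z, y0) = 0) → (Z.card : ℝ) ≤ B2) :
    ∃ (ξ η : ℝ) (V H : ℕ → Finset ℝ), GD φ L δ ξ η ⌈L / δ⌉₊ ⌈2 * π / δ⌉₊ V H B1 B2 := by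
  have h2π : (0 : ℝ) < 2 * π := Real.two_pi_pos
  obtain ⟨pz, hpz⟩ := hne
  obtain ⟨n1, s1, -⟩ := grid_n hL hδ
  obtain ⟨n2, s2, -⟩ := grid_n h2π hδ
  generalize ⌈L / δ⌉₊ = N1 at *
  generalize ⌈2 * π / δ⌉₊ = N2 at *
  obtain ⟨ξ, hξ⟩ := good_offset (u := fun x => φ (x, pz.2)) hL (fun x => perx x _)
    (finite_of_bound (B := B2) fun Z hZ => hz2 pz.2 ⟨pz.1, hpz⟩ Z hZ) (L / N1)
  obtain ⟨η, hη⟩ := good_offset (u := fun y => φ (pz.1, y)) h2π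
    (fun y => pery _ y)
    (finite_of_bound (B := B1) fun Z hZ => hz1 pz.1 ⟨pz.2, hpz⟩ Z hZ) (2 * π / N2)
  have hξ' : ∀ k : ℕ, φ (ξ + (k : ℝ) * (L / N1), pz.2) ≠ 0 := fun k => by
    have := hξ (k : ℤ)
    rwa [Int.cast_natCast] at this
  have hη' : ∀ k : ℕ, φ (pz.1, η + (k : ℝ) * (2 * π / N2)) ≠ 0 := fun k => by
    have := hη (k : ℤ)
    rwa [Int.cast_natCast] at this
  have hfinV : ∀ k : ℕ, {y | y ∈ Ico 0 (2 * π) ∧ φ (ξ + k * (L / N1), y) = 0}.Finite := fun k =>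
    finite_of_bound (B := B1) fun Z hZ => hz1 (ξ + k * (L / N1)) ⟨pz.2, hξ' k⟩ Z hZ
  have hfinH : ∀ k : ℕ, {x | x ∈ Ico 0 L ∧ φ (x, η + k * (2 * π / N2)) = 0}.Finite := fun k =>
    finite_of_bound (B := B2) fun Z hZ => hz2 (η + k * (2 * π / N2)) ⟨pz.1, hη' k⟩ Z hZ
  refine ⟨ξ, η, fun k => (hfinV k).toFinset, fun k => (hfinH k).toFinset, n1, n2, s1, s2,
    fun k _ z hz h0 => ?_, fun k _ z hz h0 => ?_, fun k => ?_, fun k => ?_⟩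
  · rw [Set.Finite.mem_toFinset]
    exact ⟨hz, h0⟩
  · rw [Set.Finite.mem_toFinset]
    exact ⟨hz, h0⟩
  · exact hz1 (ξ + k * (L / N1)) ⟨pz.2, hξ' k⟩ _ fun z hz => by
      rw [Set.Finite.mem_toFinset] at hz
      exact hz
  · exact hz2 (η + k * (2 * π / N2)) ⟨pz.1, hη' k⟩ _ fun z hz => by
      rw [Set.Finite.mem_toFinset] at hz
      exact hz

/-- the rectangle around a point close to `p` -/
theorem rect_grid {φ : ℝ × ℝ → ℝ} {L δ ξ η B1 B2 : ℝ} {N1 N2 : ℕ} {V H : ℕ → Finset ℝ}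
    (hG : GD φ L δ ξ η N1 N2 V H B1 B2) (hL : 0 < L) (hδ0 : 0 < δ)
    (perx : ∀ x y, φ (x + L, y) = φ (x, y)) (pery : ∀ x y, φ (x, y + 2 * π) = φ (x, y))
    (hδL : 8 * δ < L) (hδπ : 8 * δ < 2 * π) {N : ℕ} (p q' : ℝ × ℝ)
    (hq1 : |q'.1 - p.1| ≤ N * δ) (hq2 : |q'.2 - p.2| ≤ N * δ) :
    ∃ (x1 x2 y1 y2 : ℝ) (Z1 Z2 Z3 Z4 : Finset ℝ),
      x1 ∈ Icc (q'.1 - 4 * δ) (q'.1 - 3 * δ) ∧ x2 ∈ Icc (q'.1 + 3 * δ) (q'.1 + 4 * δ) ∧
      y1 ∈ Icc (q'.2 - 4 * δ) (q'.2 - 3 * δ) ∧ y2 ∈ Icc (q'.2 + 3 * δ) (q'.2 + 4 * δ) ∧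
      (∀ t ∈ Icc y1 y2, φ (x2, t) = 0 → t ∈ Z1) ∧ (∀ t ∈ Icc x1 x2, φ (t, y2) = 0 → t ∈ Z2) ∧
      (∀ t ∈ Icc y1 y2, φ (x1, t) = 0 → t ∈ Z3) ∧ (∀ t ∈ Icc x1 x2, φ (t, y1) = 0 → t ∈ Z4) ∧
      Z1.card + Z2.card + Z3.card + Z4.card ≤ 2 * cA L ((N + 4 : ℕ) * δ) ξ N1 V p +
        2 * cB L ((N + 4 : ℕ) * δ) η N2 H p := by
  have h2π : (0 : ℝ) < 2 * π := Real.two_pi_pos
  have hn1 : (0 : ℝ) < N1 := by exact_mod_cast hG.n1
  have hn2 : (0 : ℝ) < N2 := by exact_mod_cast hG.n2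
  obtain ⟨k1, hk1⟩ := grid_line (ξ := ξ) (div_pos hL hn1) hG.s1 (q'.1 - 4 * δ)
  obtain ⟨k2, hk2⟩ := grid_line (ξ := ξ) (div_pos hL hn1) hG.s1 (q'.1 + 3 * δ)
  obtain ⟨l1, hl1⟩ := grid_line (ξ := η) (div_pos h2π hn2) hG.s2 (q'.2 - 4 * δ)
  obtain ⟨l2, hl2⟩ := grid_line (ξ := η) (div_pos h2π hn2) hG.s2 (q'.2 + 3 * δ)
  rw [abs_le] at hq1 hq2
  have hDδ : ((N + 4 : ℕ) : ℝ) * δ = N * δ + 4 * δ := by push_cast; ring
  have hyI : ∀ t ∈ Icc (η + l1 * (2 * π / N2)) (η + l2 * (2 * π / N2)),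
      |t - p.2| ≤ (N + 4 : ℕ) * δ := by
    intro t ht
    rw [abs_le, hDδ]
    constructor <;> linarith [ht.1, ht.2, hl1.1, hl2.2, hq2.1, hq2.2]
  have hxI : ∀ t ∈ Icc (ξ + k1 * (L / N1)) (ξ + k2 * (L / N1)), |t - p.1| ≤ (N + 4 : ℕ) * δ := by
    intro t ht
    rw [abs_le, hDδ]
    constructor <;> linarith [ht.1, ht.2, hk1.1, hk2.2, hq1.1, hq1.2]
  have hk12 : ξ + k1 * (L / N1) ≤ ξ + k2 * (L / N1) := by
    linarith [hk1.2, hk2.1]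
  have hl12 : η + l1 * (2 * π / N2) ≤ η + l2 * (2 * π / N2) := by
    linarith [hl1.2, hl2.1]
  have hylen : η + l2 * (2 * π / N2) < η + l1 * (2 * π / N2) + 2 * π := by
    linarith [hl1.1, hl2.2]
  have hxlen : ξ + k2 * (L / N1) < ξ + k1 * (L / N1) + L := by
    linarith [hk1.1, hk2.2]
  obtain ⟨Z1, c1, z1⟩ := line_count (u := fun a b => φ (a, b)) (P1 := L) (ξ := ξ)
    (D := (N + 4 : ℕ) * δ) (pa := p.1) (pb := p.2) h2π perx pery hG.n1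
    hG.v k2 hylen (hxI _ ⟨hk12, le_rfl⟩) hyI
  obtain ⟨Z3, c3, z3⟩ := line_count (u := fun a b => φ (a, b)) (P1 := L) (ξ := ξ)
    (D := (N + 4 : ℕ) * δ) (pa := p.1) (pb := p.2) h2π perx pery hG.n1
    hG.v k1 hylen (hxI _ ⟨le_rfl, hk12⟩) hyI
  obtain ⟨Z2, c2, z2⟩ := line_count (u := fun b a => φ (a, b)) (P1 := 2 * π) (ξ := η)
    (D := (N + 4 : ℕ) * δ) (pa := p.2) (pb := p.1) hL (fun b a => pery a b) (fun b a => perx a b)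
    hG.n2 hG.h l2 hxlen (hyI _ ⟨hl12, le_rfl⟩) hxI
  obtain ⟨Z4, c4, z4⟩ := line_count (u := fun b a => φ (a, b)) (P1 := 2 * π) (ξ := η)
    (D := (N + 4 : ℕ) * δ) (pa := p.2) (pb := p.1) hL (fun b a => pery a b) (fun b a => perx a b)
    hG.n2 hG.h l1 hxlen (hyI _ ⟨le_rfl, hl12⟩) hxI
  refine ⟨ξ + k1 * (L / N1), ξ + k2 * (L / N1), η + l1 * (2 * π / N2), η + l2 * (2 * π / N2),
    Z1, Z2, Z3, Z4, ⟨hk1.1, by linarith [hk1.2]⟩, ⟨hk2.1, by linarith [hk2.2]⟩,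
    ⟨hl1.1, by linarith [hl1.2]⟩, ⟨hl2.1, by linarith [hl2.2]⟩, z1, z2, z3, z4, ?_⟩
  unfold cA cB
  have := add_le_add (add_le_add (add_le_add c1 c2) c3) c4
  refine this.trans (le_of_eq ?_)
  ring

end Pool.Agent.NH44.LT
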