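import Pool.Agent.R220.LV.Main

/-!
# The multiplicities are finite
-/

set_option autoImplicit false

open MeasureTheory Real Filter Topology Set Function
open Pool.Agent.Y291.DB Pool.Agent.Y291.PA Pool.Agent.R220.LV

namespace Pool.Agent.NH44.LT

/-- Cauchy and Schwarz -/
theorem cs {u : ℝ → ℝ} (hu : Continuous u) {a b : ℝ} (hab : a < b) :
    (∫ t in a..b, u t) ^ 2 ≤ (b - a) * ∫ t in a..b, u t ^ 2 := by
  set V := ∫ t in a..b, u t with hV
  have h0 : 0 < b - a := by linarith
  have h1 : 0 ≤ ∫ t in a..b, (u t - V / (b - a)) ^ 2 :=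
    intervalIntegral.integral_nonneg hab.le fun t _ => sq_nonneg _
  have h2 : ∫ t in a..b, (u t - V / (b - a)) ^ 2 =
      (∫ t in a..b, u t ^ 2) - V ^ 2 / (b - a) := by
    have e1 : ∀ t, (u t - V / (b - a)) ^ 2 = u t ^ 2 + (-(2 * V / (b - a)) * u t +
        (V / (b - a)) ^ 2) := fun t => by ring
    simp only [e1]
    have k1 : Continuous fun t => u t ^ 2 := hu.pow 2
    have k2 : Continuous fun t => -(2 * V / (b - a)) * u t := continuous_const.mul hu
    have k3 : Continuous fun _ : ℝ => (V / (b - a)) ^ 2 := continuous_const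
    have k23 : Continuous fun t => -(2 * V / (b - a)) * u t + (V / (b - a)) ^ 2 := k2.add k3
    rw [int_add k1 k23, int_add k2 k3, intervalIntegral.integral_const_mul, ← hV,
      intervalIntegral.integral_const, smul_eq_mul]
    field_simp
    ring
  rw [h2] at h1
  have h3 : V ^ 2 / (b - a) ≤ ∫ t in a..b, u t ^ 2 := by linarith
  rw [div_le_iff₀ h0] at h3
  linarith

theorem osc1 {u u' : ℝ → ℝ} (hu : ∀ t, HasDerivAt u (u' t) t) (hc : Continuous u') {a b x t : ℝ}
    (hx : x ∈ Icc a b) (ht : t ∈ Icc a b) : |u x - u t| ≤ ∫ s in a..b, |u' s| := by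
  wlog hpq : t ≤ x generalizing t x
  · rw [abs_sub_comm]
    exact this ht hx (le_of_not_ge hpq)
  have h1 : u x - u t = ∫ s in t..x, u' s :=
    (intervalIntegral.integral_eq_sub_of_hasDerivAt (fun t _ => hu t)
      (hc.intervalIntegrable _ _)).symm
  rw [h1]
  refine (intervalIntegral.abs_integral_le_integral_abs hpq).trans ?_
  exact intervalIntegral.integral_mono_interval ht.1 hpq hx.2
      (Filter.Eventually.of_forall fun t => abs_nonneg _) (hc.abs.intervalIntegrable _ _)

/-- the inequality of Poincaré -/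
theorem poin {u u' : ℝ → ℝ} (hu : ∀ t, HasDerivAt u (u' t) t) (hc : Continuous u') {a b : ℝ}
    (hab : a < b) (h0 : ∫ t in a..b, u t = 0) :
    ∫ t in a..b, u t ^ 2 ≤ (b - a) ^ 2 * ∫ t in a..b, u' t ^ 2 := by
  have huc : Continuous u := continuous_iff_continuousAt.2 fun t => (hu t).continuousAt
  have hd : 0 < b - a := by linarith
  set V := ∫ s in a..b, |u' s| with hV
  have hV0 : 0 ≤ V := intervalIntegral.integral_nonneg hab.le fun t _ => abs_nonneg _
  have h1 : ∀ x ∈ Icc a b, |u x| ≤ V := by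
    intro x hx
    have h2 : ∫ t in a..b, (u x - u t) = (b - a) * u x := by
      rw [int_sub continuous_const huc, h0, intervalIntegral.integral_const, smul_eq_mul, sub_zero]
    have h3 : ‖∫ t in a..b, (u x - u t)‖ ≤ V * |b - a| := by
      refine intervalIntegral.norm_integral_le_of_norm_le_const fun t ht => ?_
      rw [uIoc_of_le hab.le] at ht
      rw [Real.norm_eq_abs]
      exact osc1 hu hc hx ⟨ht.1.le, ht.2⟩
    rw [h2, Real.norm_eq_abs, abs_mul, abs_of_pos hd] at h3
    nlinarith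
  have h2 : V ^ 2 ≤ (b - a) * ∫ t in a..b, u' t ^ 2 := by
    have := cs hc.abs hab
    simpa only [sq_abs] using this
  have h3 : ∫ t in a..b, u t ^ 2 ≤ ∫ _t in a..b, V ^ 2 := by
    refine intervalIntegral.integral_mono_on hab.le ((huc.pow 2).intervalIntegrable _ _)
      (continuous_const.intervalIntegrable _ _) fun t ht => ?_
    rw [← sq_abs]
    exact pow_le_pow_left₀ (abs_nonneg _) (h1 t ht) 2
  rw [intervalIntegral.integral_const, smul_eq_mul] at h3
  nlinarith

section rect

variable {U Ux Uy : ℝ → ℝ → ℝ} (c0 : Continuous (uncurry U)) (cx : Continuous (uncurry Ux))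
  (cy : Continuous (uncurry Uy)) (dx : ∀ x y, HasDerivAt (fun t => U t y) (Ux x y) x)
  (dy : ∀ x y, HasDerivAt (fun t => U x t) (Uy x y) y)

theorem slice {F : ℝ → ℝ → ℝ} (h : Continuous (uncurry F)) (y : ℝ) : Continuous fun t => F t y :=
  h.comp (Continuous.prodMk_left y)

theorem slice' {F : ℝ → ℝ → ℝ} (h : Continuous (uncurry F)) (x : ℝ) : Continuous fun t => F x t :=
  h.comp (Continuous.prodMk_right x)

theorem icont {F : ℝ → ℝ → ℝ} (h : Continuous (uncurry F)) (a b : ℝ) :
    Continuous fun y => ∫ x in a..b, F x y :=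
  par_cont (F := fun y x => F x y) (h.comp continuous_swap) a b

theorem sqc {F : ℝ → ℝ → ℝ} (h : Continuous (uncurry F)) :
    Continuous (uncurry fun x y => F x y ^ 2) := by
  have : Continuous fun p : ℝ × ℝ => uncurry F p ^ 2 := h.pow 2
  exact this

include c0 cx cy dx dy in
theorem rect_poin {a b c d : ℝ} (hab : a < b) (hcd : c < d)
    (h0 : ∫ y in c..d, ∫ x in a..b, U x y = 0) :
    ∫ y in c..d, ∫ x in a..b, U x y ^ 2 ≤ (b - a) ^ 2 * (∫ y in c..d, ∫ x in a..b, Ux x y ^ 2) +
      (d - c) ^ 2 * ∫ y in c..d, ∫ x in a..b, Uy x y ^ 2 := by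
  have hd : 0 < b - a := by linarith
  set M : ℝ → ℝ := fun y => (b - a)⁻¹ * ∫ x in a..b, U x y with hM
  set M' : ℝ → ℝ := fun y => (b - a)⁻¹ * ∫ x in a..b, Uy x y with hM'
  have hMd : ∀ y, HasDerivAt M (M' y) y := by
    intro y
    refine HasDerivAt.const_mul _ ?_
    exact par_deriv (F := fun y x => U x y) (F' := fun y x => Uy x y) (c0.comp continuous_swap)
      (cy.comp continuous_swap) (fun y x => dy x y) a b y
  have hMc' : Continuous M' := continuous_const.mul (icont cy a b)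
  have hMc : Continuous M := continuous_const.mul (icont c0 a b)
  have h1 : ∀ y, ∫ x in a..b, U x y ^ 2 ≤ (b - a) ^ 2 * (∫ x in a..b, Ux x y ^ 2) +
      (b - a) * M y ^ 2 := by
    intro y
    have h2 : ∫ x in a..b, (U x y - M y) = 0 := by
      rw [int_sub (slice c0 y) continuous_const, intervalIntegral.integral_const, smul_eq_mul, hM]
      field_simp
      ring
    have h3 := poin (u := fun x => U x y - M y) (u' := fun x => Ux x y)
      (fun x => (dx x y).sub_const _) (slice cx y) hab h2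
    have h4 : ∫ x in a..b, U x y ^ 2 = (∫ x in a..b, (U x y - M y) ^ 2) + (b - a) * M y ^ 2 := by
      have e1 : ∀ x, U x y ^ 2 = (U x y - M y) ^ 2 + (2 * M y * (U x y - M y) + M y ^ 2) :=
        fun x => by ring
      have k0 : Continuous fun x => U x y := slice c0 y
      have k1 : Continuous fun x => (U x y - M y) ^ 2 := by fun_prop
      have k2 : Continuous fun x => 2 * M y * (U x y - M y) := by fun_prop
      have k3 : Continuous fun _ : ℝ => M y ^ 2 := continuous_const
      have k23 : Continuous fun x => 2 * M y * (U x y - M y) + M y ^ 2 := k2.add k3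
      calc ∫ x in a..b, U x y ^ 2 = ∫ x in a..b, ((U x y - M y) ^ 2 +
            (2 * M y * (U x y - M y) + M y ^ 2)) :=
            intervalIntegral.integral_congr fun x _ => e1 x
        _ = _ := by
          rw [int_add k1 k23, int_add k2 k3, intervalIntegral.integral_const_mul, h2,
            intervalIntegral.integral_const, smul_eq_mul]
          ring
    rw [h4]
    linarith
  have h2 : ∫ y in c..d, (b - a) * M y ^ 2 ≤
      (d - c) ^ 2 * ∫ y in c..d, ∫ x in a..b, Uy x y ^ 2 := by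
    have h3 : ∫ y in c..d, M y = 0 := by
      rw [hM]
      simp only
      rw [intervalIntegral.integral_const_mul, h0, mul_zero]
    have h4 := poin hMd hMc' hcd h3
    have h5 : ∀ y, (b - a) * M' y ^ 2 ≤ ∫ x in a..b, Uy x y ^ 2 := by
      intro y
      have h6 := cs (slice cy y) hab
      rw [hM']
      simp only
      rw [mul_pow]
      have h7 : (b - a) * ((b - a)⁻¹ ^ 2 * (∫ x in a..b, Uy x y) ^ 2) =
          (∫ x in a..b, Uy x y) ^ 2 / (b - a) := by
        field_simp
      rw [h7, div_le_iff₀ hd]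
      linarith
    have h6 : ∫ y in c..d, (b - a) * M' y ^ 2 ≤ ∫ y in c..d, ∫ x in a..b, Uy x y ^ 2 :=
      intervalIntegral.integral_mono_on hcd.le
        ((continuous_const.mul (hMc'.pow 2)).intervalIntegrable _ _)
        ((icont (sqc cy) a b).intervalIntegrable _ _) fun y _ => h5 y
    rw [intervalIntegral.integral_const_mul] at h6 ⊢
    have h7 := mul_le_mul_of_nonneg_left h4 hd.le
    have h8 := mul_le_mul_of_nonneg_left h6 (sq_nonneg (d - c))
    nlinarith
  have h3 : ∫ y in c..d, ∫ x in a..b, U x y ^ 2 ≤ ∫ y in c..d,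
      ((b - a) ^ 2 * (∫ x in a..b, Ux x y ^ 2) + (b - a) * M y ^ 2) :=
    intervalIntegral.integral_mono_on hcd.le ((icont (sqc c0) a b).intervalIntegrable _ _)
      (((continuous_const.mul (icont (sqc cx) a b)).add
        (continuous_const.mul (hMc.pow 2))).intervalIntegrable _ _) fun y _ => h1 y
  have k1 : Continuous fun y => (b - a) ^ 2 * (∫ x in a..b, Ux x y ^ 2) :=
    continuous_const.mul (icont (sqc cx) a b)
  have k2 : Continuous fun y => (b - a) * M y ^ 2 := continuous_const.mul (hMc.pow 2)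
  rw [int_add k1 k2, intervalIntegral.integral_const_mul] at h3
  linarith

end rect

/-- the cells of a grid -/
theorem grid_sum {F : ℝ → ℝ → ℝ} (h : Continuous (uncurry F)) (N : ℕ) (hx hy : ℝ) :
    ∫ y in (0 : ℝ)..(N * hy), ∫ x in (0 : ℝ)..(N * hx), F x y =
      ∑ l ∈ Finset.range N, ∑ j ∈ Finset.range N,
        ∫ y in (l * hy)..((l + 1 : ℕ) * hy), ∫ x in (j * hx)..((j + 1 : ℕ) * hx), F x y := by
  have h1 : ∀ y, ∫ x in (0 : ℝ)..(N * hx), F x y =
      ∑ j ∈ Finset.range N, ∫ x in (j * hx)..((j + 1 : ℕ) * hx), F x y := by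
    intro y
    have := intervalIntegral.sum_integral_adjacent_intervals (f := fun x => F x y)
      (μ := volume) (a := fun k : ℕ => (k : ℝ) * hx) (n := N)
      (fun k _ => (slice h y).intervalIntegrable _ _)
    rw [this]
    simp
  have h2 : ∀ G : ℝ → ℝ, Continuous G → ∫ y in (0 : ℝ)..(N * hy), G y =
      ∑ l ∈ Finset.range N, ∫ y in (l * hy)..((l + 1 : ℕ) * hy), G y := by
    intro G hG
    have := intervalIntegral.sum_integral_adjacent_intervals (f := G)
      (μ := volume) (a := fun k : ℕ => (k : ℝ) * hy) (n := N)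
      (fun k _ => hG.intervalIntegrable _ _)
    rw [this]
    simp
  rw [h2 _ (icont h _ _)]
  refine Finset.sum_congr rfl fun l _ => ?_
  simp only [h1]
  rw [intervalIntegral.integral_finsetSum]
  intro j _
  exact (icont h _ _).intervalIntegrable _ _

variable {f g : ℝ → ℝ} {L lam : ℝ}

/-- the Dirichlet integral of a periodic function -/
theorem ibp_eq {u u' u'' : ℝ → ℝ} (hu : ∀ t, HasDerivAt u (u' t) t)
    (hu' : ∀ t, HasDerivAt u' (u'' t) t) (cu : Continuous u'') {P : ℝ}
    (pu : u P = u 0) (pu' : u' P = u' 0) :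
    ∫ t in (0 : ℝ)..P, u' t ^ 2 = -∫ t in (0 : ℝ)..P, u'' t * u t := by
  have c1 : Continuous u := continuous_iff_continuousAt.2 fun t => (hu t).continuousAt
  have c2 : Continuous u' := continuous_iff_continuousAt.2 fun t => (hu' t).continuousAt
  have h1 : ∀ t ∈ Set.uIcc (0 : ℝ) P, HasDerivAt (fun t => u' t * u t)
      (u'' t * u t + u' t ^ 2) t := fun t _ => by
    have := (hu' t).mul (hu t)
    refine this.congr_deriv ?_
    ring
  have h3 := intervalIntegral.integral_eq_sub_of_hasDerivAt h1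
    (((cu.mul c1).add (c2.pow 2)).intervalIntegrable _ _)
  have h4 := int_add (u := fun t => u'' t * u t) (v := fun t => u' t ^ 2) (cu.mul c1)
    (c2.pow 2) 0 P
  rw [pu, pu', sub_self, h4] at h3
  linarith

theorem energy {φ φx φxx φy φyy : ℝ → ℝ → ℝ} (hf : Continuous f) (hg : Continuous g)
    (h : SP f g L lam φ φx φxx φy φyy) :
    (∫ y in (0 : ℝ)..(2 * π), ∫ x in (0 : ℝ)..L, φx x y ^ 2) +
      (∫ y in (0 : ℝ)..(2 * π), ∫ x in (0 : ℝ)..L, φy x y ^ 2) =
      ∫ y in (0 : ℝ)..(2 * π), ∫ x in (0 : ℝ)..L, lam * (f x + g y) * φ x y ^ 2 := by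
  have c0 : Continuous fun p : ℝ × ℝ => φ p.1 p.2 := h.s.c
  have cxx : Continuous fun p : ℝ × ℝ => φxx p.1 p.2 := h.s.cxx
  have cyy : Continuous fun p : ℝ × ℝ => φyy p.1 p.2 := h.s.cyy
  have h1 : ∫ y in (0 : ℝ)..(2 * π), ∫ x in (0 : ℝ)..L, φx x y ^ 2 =
      ∫ y in (0 : ℝ)..(2 * π), -∫ x in (0 : ℝ)..L, φxx x y * φ x y := by
    refine intervalIntegral.integral_congr fun y _ => ?_
    exact ibp_eq (fun t => h.s.dx t y) (fun t => h.s.dxx t y) (slice h.s.cxx y)
      (by have := h.px 0 y; rwa [zero_add] at this) (by have := h.px1 0 y; rwa [zero_add] at this)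
  have h2 : ∫ y in (0 : ℝ)..(2 * π), ∫ x in (0 : ℝ)..L, φy x y ^ 2 =
      ∫ y in (0 : ℝ)..(2 * π), -∫ x in (0 : ℝ)..L, φyy x y * φ x y := by
    have e1 : ∫ y in (0 : ℝ)..(2 * π), ∫ x in (0 : ℝ)..L, φy x y ^ 2 =
        ∫ x in (0 : ℝ)..L, ∫ y in (0 : ℝ)..(2 * π), φy x y ^ 2 :=
      Pool.Agent.R220.LV.swap (F := fun y x => φy x y ^ 2)
        ((sqc h.s.cy).comp continuous_swap) _ _ _ _
    have k : Continuous (uncurry fun y x => φyy x y * φ x y) := by
      have : Continuous fun p : ℝ × ℝ => φyy p.2 p.1 * φ p.2 p.1 :=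
        (cyy.comp continuous_swap).mul (c0.comp continuous_swap)
      exact this
    have e2 : ∫ y in (0 : ℝ)..(2 * π), ∫ x in (0 : ℝ)..L, φyy x y * φ x y =
        ∫ x in (0 : ℝ)..L, ∫ y in (0 : ℝ)..(2 * π), φyy x y * φ x y :=
      Pool.Agent.R220.LV.swap (F := fun y x => φyy x y * φ x y) k _ _ _ _
    rw [e1, intervalIntegral.integral_neg, e2, ← intervalIntegral.integral_neg]
    refine intervalIntegral.integral_congr fun x _ => ?_
    exact ibp_eq (fun t => h.s.dy x t) (fun t => h.s.dyy x t) (slice' h.s.cyy x)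
      (by have := h.py x 0; rwa [zero_add] at this) (by have := h.py2 x 0; rwa [zero_add] at this)
  have k1 : Continuous (uncurry fun x y => φxx x y * φ x y) := by
    have : Continuous fun p : ℝ × ℝ => φxx p.1 p.2 * φ p.1 p.2 := cxx.mul c0
    exact this
  have k2 : Continuous (uncurry fun x y => φyy x y * φ x y) := by
    have : Continuous fun p : ℝ × ℝ => φyy p.1 p.2 * φ p.1 p.2 := cyy.mul c0
    exact this
  have n1 : Continuous fun y => -∫ x in (0 : ℝ)..L, φxx x y * φ x y := (icont k1 _ _).neg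
  have n2 : Continuous fun y => -∫ x in (0 : ℝ)..L, φyy x y * φ x y := (icont k2 _ _).neg
  rw [h1, h2, ← int_add n1 n2]
  refine intervalIntegral.integral_congr fun y _ => ?_
  show -(∫ x in (0 : ℝ)..L, φxx x y * φ x y) + -(∫ x in (0 : ℝ)..L, φyy x y * φ x y) =
    ∫ x in (0 : ℝ)..L, lam * (f x + g y) * φ x y ^ 2
  rw [← neg_add, ← int_add (slice k1 y) (slice k2 y), ← intervalIntegral.integral_neg]
  refine intervalIntegral.integral_congr fun x _ => ?_
  have h3 : φxx x y + φyy x y = -(lam * (f x + g y) * φ x y) := h.s.pde x y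
  show -(φxx x y * φ x y + φyy x y * φ x y) = lam * (f x + g y) * φ x y ^ 2
  linear_combination (-φ x y) * h3

/-- the functionals -/
noncomputable def TL (hf : Continuous f) (hg : Continuous g) (L lam : ℝ) (N : ℕ) (hx hy : ℝ) :
    W hf hg L lam →ₗ[ℝ] (Fin N × Fin N → ℝ) where
  toFun w p := ∫ y in ((p.2 : ℕ) * hy)..(((p.2 : ℕ) + 1 : ℕ) * hy),
    ∫ x in ((p.1 : ℕ) * hx)..(((p.1 : ℕ) + 1 : ℕ) * hx), w.1 (x, y)
  map_add' u v := by
    funext p
    have hu : Continuous (uncurry fun x y => u.1 (x, y)) := W_cont u.2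
    have hv : Continuous (uncurry fun x y => v.1 (x, y)) := W_cont v.2
    simp only [Pi.add_apply]
    rw [← int_add (icont hu _ _) (icont hv _ _)]
    refine intervalIntegral.integral_congr fun y _ => ?_
    exact int_add (slice hu y) (slice hv y) _ _
  map_smul' r u := by
    funext p
    simp only [Pi.smul_apply, smul_eq_mul, RingHom.id_apply]
    rw [← intervalIntegral.integral_const_mul]
    refine intervalIntegral.integral_congr fun y _ => ?_
    exact intervalIntegral.integral_const_mul _ _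

/-- The space of solutions has finite dimension. -/
theorem fin_W (hf : Continuous f) (hg : Continuous g) (hL : 0 < L) (hlam : 0 < lam) {ρM : ℝ}
    (hρ : ∀ x y, f x + g y ≤ ρM) : FiniteDimensional ℝ (W hf hg L lam) := by
  -- the size of the grid
  set D := L + 2 * π with hD
  have hπ := Real.pi_pos
  have hD0 : 0 < D := by positivity
  obtain ⟨N, hN⟩ := exists_nat_gt (D ^ 2 * lam * |ρM| + 1)
  have hN1 : (1 : ℝ) < N := lt_of_le_of_lt (by
    have : 0 ≤ D ^ 2 * lam * |ρM| := by positivity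
    linarith) hN
  have hN0 : (0 : ℝ) < N := by linarith
  have hNN : D ^ 2 * lam * |ρM| < (N : ℝ) ^ 2 := by nlinarith
  refine Module.Finite.of_injective (TL hf hg L lam N (L / N) (2 * π / N)) ?_
  rw [← LinearMap.ker_eq_bot, LinearMap.ker_eq_bot']
  intro w hw
  have hwm := w.2
  obtain ⟨hw2, φx, φxx, φy, φyy, hS⟩ := hwm
  set φ : ℝ → ℝ → ℝ := fun x y => w.1 (x, y) with hφ
  have hcell : ∀ l < N, ∀ j < N, ∫ y in (l * (2 * π / N))..((l + 1 : ℕ) * (2 * π / N)),
      ∫ x in (j * (L / N))..((j + 1 : ℕ) * (L / N)), φ x y = 0 := by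
    intro l hl j hj
    have h1 := congrFun hw (⟨j, hj⟩, ⟨l, hl⟩)
    exact h1
  have hx0 : 0 < L / N := by positivity
  have hy0 : 0 < 2 * π / N := by positivity
  have hpo : ∀ l < N, ∀ j < N, ∫ y in (l * (2 * π / N))..((l + 1 : ℕ) * (2 * π / N)),
      ∫ x in (j * (L / N))..((j + 1 : ℕ) * (L / N)), φ x y ^ 2 ≤
      (L / N) ^ 2 * (∫ y in (l * (2 * π / N))..((l + 1 : ℕ) * (2 * π / N)),
      ∫ x in (j * (L / N))..((j + 1 : ℕ) * (L / N)), φx x y ^ 2) +
      (2 * π / N) ^ 2 * (∫ y in (l * (2 * π / N))..((l + 1 : ℕ) * (2 * π / N)),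
      ∫ x in (j * (L / N))..((j + 1 : ℕ) * (L / N)), φy x y ^ 2) := by
    intro l hl j hj
    have h1 := rect_poin hS.s.c hS.s.cx hS.s.cy hS.s.dx hS.s.dy (a := j * (L / N))
      (b := (j + 1 : ℕ) * (L / N)) (c := l * (2 * π / N)) (d := (l + 1 : ℕ) * (2 * π / N))
      (by push_cast; linarith) (by push_cast; linarith) (hcell l hl j hj)
    have e1 : ((j + 1 : ℕ) : ℝ) * (L / N) - j * (L / N) = L / N := by push_cast; ring
    have e2 : ((l + 1 : ℕ) : ℝ) * (2 * π / N) - l * (2 * π / N) = 2 * π / N := by push_cast; ring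
    rwa [e1, e2] at h1
  have e1 : (N : ℝ) * (L / N) = L := by field_simp
  have e2 : (N : ℝ) * (2 * π / N) = 2 * π := by field_simp
  have g0 := grid_sum (sqc hS.s.c) N (L / N) (2 * π / N)
  have gx := grid_sum (sqc hS.s.cx) N (L / N) (2 * π / N)
  have gy := grid_sum (sqc hS.s.cy) N (L / N) (2 * π / N)
  rw [e1, e2] at g0 gx gy
  have hx2 : (L / N) ^ 2 ≤ (D / N) ^ 2 :=
    pow_le_pow_left₀ hx0.le (div_le_div_of_nonneg_right (by rw [hD]; linarith) hN0.le) 2
  have hy2 : (2 * π / N) ^ 2 ≤ (D / N) ^ 2 :=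
    pow_le_pow_left₀ hy0.le (div_le_div_of_nonneg_right (by rw [hD]; linarith) hN0.le) 2
  have hnn : ∀ {F : ℝ → ℝ → ℝ}, 0 ≤ ∫ y in (0 : ℝ)..(2 * π), ∫ x in (0 : ℝ)..L, F x y ^ 2 :=
    fun {F} => intervalIntegral.integral_nonneg (by positivity) fun y _ =>
      intervalIntegral.integral_nonneg hL.le fun x _ => sq_nonneg _
  have hsum : ∫ y in (0 : ℝ)..(2 * π), ∫ x in (0 : ℝ)..L, φ x y ^ 2 ≤
      (L / N) ^ 2 * (∫ y in (0 : ℝ)..(2 * π), ∫ x in (0 : ℝ)..L, φx x y ^ 2) +
      (2 * π / N) ^ 2 * (∫ y in (0 : ℝ)..(2 * π), ∫ x in (0 : ℝ)..L, φy x y ^ 2) := by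
    rw [g0, gx, gy, Finset.mul_sum, Finset.mul_sum, ← Finset.sum_add_distrib]
    refine Finset.sum_le_sum fun l hl => ?_
    rw [Finset.mul_sum, Finset.mul_sum, ← Finset.sum_add_distrib]
    exact Finset.sum_le_sum fun j hj => hpo l (Finset.mem_range.1 hl) j (Finset.mem_range.1 hj)
  have hen := energy hf hg hS
  have hup : ∫ y in (0 : ℝ)..(2 * π), ∫ x in (0 : ℝ)..L, lam * (f x + g y) * φ x y ^ 2 ≤
      lam * |ρM| * ∫ y in (0 : ℝ)..(2 * π), ∫ x in (0 : ℝ)..L, φ x y ^ 2 := by
    have c0 : Continuous fun p : ℝ × ℝ => φ p.1 p.2 := hS.s.c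
    have k1 : Continuous (uncurry fun x y => lam * (f x + g y) * φ x y ^ 2) := by
      have : Continuous fun p : ℝ × ℝ => lam * (f p.1 + g p.2) * φ p.1 p.2 ^ 2 := by fun_prop
      exact this
    rw [← intervalIntegral.integral_const_mul]
    refine intervalIntegral.integral_mono_on (by positivity)
      ((icont k1 _ _).intervalIntegrable _ _)
      ((continuous_const.mul (icont (sqc hS.s.c) _ _)).intervalIntegrable _ _) fun y _ => ?_
    rw [← intervalIntegral.integral_const_mul]
    refine intervalIntegral.integral_mono_on hL.le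
      ((slice k1 y).intervalIntegrable _ _)
      ((continuous_const.mul (slice (sqc hS.s.c) y)).intervalIntegrable _ _) fun x _ => ?_
    refine mul_le_mul_of_nonneg_right ?_ (sq_nonneg _)
    exact mul_le_mul_of_nonneg_left ((hρ x y).trans (le_abs_self _)) hlam.le
  set A := ∫ y in (0 : ℝ)..(2 * π), ∫ x in (0 : ℝ)..L, φ x y ^ 2 with hA
  set X := ∫ y in (0 : ℝ)..(2 * π), ∫ x in (0 : ℝ)..L, φx x y ^ 2 with hX
  set Y := ∫ y in (0 : ℝ)..(2 * π), ∫ x in (0 : ℝ)..L, φy x y ^ 2 with hY
  have hA0 : 0 ≤ A := hnn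
  have hX0 : 0 ≤ X := hnn
  have hY0 : 0 ≤ Y := hnn
  have h1 : A ≤ (D / N) ^ 2 * (lam * |ρM| * A) := by
    calc A ≤ (D / N) ^ 2 * X + (D / N) ^ 2 * Y :=
          hsum.trans (add_le_add (mul_le_mul_of_nonneg_right hx2 hX0)
            (mul_le_mul_of_nonneg_right hy2 hY0))
      _ = (D / N) ^ 2 * (X + Y) := by ring
      _ ≤ _ := by
        rw [hen]
        exact mul_le_mul_of_nonneg_left hup (sq_nonneg _)
  have h2 : A = 0 := by
    rcases hA0.eq_or_lt with h | h
    · exact h.symm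
    · exfalso
      have h3 : (D / N) ^ 2 * (lam * |ρM| * A) < A := by
        have h4 : (D / N) ^ 2 * (lam * |ρM| * A) = (D ^ 2 * lam * |ρM|) / (N : ℝ) ^ 2 * A := by
          rw [div_pow]; ring
        rw [h4]
        have h5 : (D ^ 2 * lam * |ρM|) / (N : ℝ) ^ 2 < 1 := by
          rw [div_lt_one (by positivity)]
          exact hNN
        nlinarith
      linarith
  have h3 : ip L w.1 w.1 = 0 := by
    have h4 : ip L w.1 w.1 = A := by
      unfold ip
      rw [hA]
      refine intervalIntegral.integral_congr fun y _ => ?_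
      refine intervalIntegral.integral_congr fun x _ => ?_
      show w.1 (x, y) * w.1 (x, y) = w.1 (x, y) ^ 2
      ring
    rw [h4, h2]
  exact Subtype.ext (ip_self_zero hL w.2 h3)

end Pool.Agent.NH44.LT
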