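import Pool.Agent.NH44.LT.Rect

/-!
# Growth of a holomorphic function from the zeros of the real part on a rectangle: conclusion
-/

set_option autoImplicit false

open Complex Filter Topology Metric Set

namespace Pool.Agent.NH44.LT

/-- a closed rectangle -/
def Box (a1 a2 b1 b2 : ℝ) : Set ℂ := {z | (a1 ≤ z.re ∧ z.re ≤ a2) ∧ b1 ≤ z.im ∧ z.im ≤ b2}

/-- an open rectangle -/
def BoxO (a1 a2 b1 b2 : ℝ) : Set ℂ := {z | (a1 < z.re ∧ z.re < a2) ∧ b1 < z.im ∧ z.im < b2}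

/-- its boundary -/
def Bd (a1 a2 b1 b2 : ℝ) : Set ℂ :=
  {z | z ∈ Box a1 a2 b1 b2 ∧ (z.re = a1 ∨ z.re = a2 ∨ z.im = b1 ∨ z.im = b2)}

theorem Box_closed (a1 a2 b1 b2 : ℝ) : IsClosed (Box a1 a2 b1 b2) :=
  ((isClosed_le continuous_const Complex.continuous_re).inter
    (isClosed_le Complex.continuous_re continuous_const)).inter
    ((isClosed_le continuous_const Complex.continuous_im).inter
      (isClosed_le Complex.continuous_im continuous_const))

theorem BoxO_open (a1 a2 b1 b2 : ℝ) : IsOpen (BoxO a1 a2 b1 b2) :=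
  ((isOpen_lt continuous_const Complex.continuous_re).inter
    (isOpen_lt Complex.continuous_re continuous_const)).inter
    ((isOpen_lt continuous_const Complex.continuous_im).inter
      (isOpen_lt Complex.continuous_im continuous_const))

theorem BoxO_sub (a1 a2 b1 b2 : ℝ) : BoxO a1 a2 b1 b2 ⊆ Box a1 a2 b1 b2 :=
  fun _ h => ⟨⟨h.1.1.le, h.1.2.le⟩, h.2.1.le, h.2.2.le⟩

theorem mem_BoxO {a1 a2 b1 b2 : ℝ} {z : ℂ} (h : z ∈ Box a1 a2 b1 b2) (h' : z ∉ Bd a1 a2 b1 b2) :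
    z ∈ BoxO a1 a2 b1 b2 := by
  have h1 : ¬ (z.re = a1 ∨ z.re = a2 ∨ z.im = b1 ∨ z.im = b2) := fun h1 => h' ⟨h, h1⟩
  push Not at h1
  obtain ⟨⟨k1, k2⟩, k3, k4⟩ := h
  exact ⟨⟨lt_of_le_of_ne k1 (Ne.symm h1.1), lt_of_le_of_ne k2 h1.2.1⟩,
    lt_of_le_of_ne k3 (Ne.symm h1.2.2.1), lt_of_le_of_ne k4 h1.2.2.2⟩

theorem frontier_BoxO (a1 a2 b1 b2 : ℝ) : frontier (BoxO a1 a2 b1 b2) ⊆ Bd a1 a2 b1 b2 := by
  intro z hz
  rw [(BoxO_open a1 a2 b1 b2).frontier_eq] at hz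
  have h1 : z ∈ Box a1 a2 b1 b2 :=
    closure_minimal (BoxO_sub a1 a2 b1 b2) (Box_closed a1 a2 b1 b2) hz.1
  by_contra h2
  exact hz.2 (mem_BoxO h1 h2)

theorem Box_norm {a1 a2 b1 b2 : ℝ} (ha1 : a1 ∈ Icc (-4 : ℝ) (-3)) (ha2 : a2 ∈ Icc (3 : ℝ) 4)
    (hb1 : b1 ∈ Icc (-4 : ℝ) (-3)) (hb2 : b2 ∈ Icc (3 : ℝ) 4) {z : ℂ}
    (hz : z ∈ Box a1 a2 b1 b2) : ‖z‖ ≤ 6 := by
  obtain ⟨⟨k1, k2⟩, k3, k4⟩ := hz
  have h1 : z.re ^ 2 ≤ 16 := by nlinarith [ha1.1, ha2.2]
  have h2 : z.im ^ 2 ≤ 16 := by nlinarith [hb1.1, hb2.2]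
  have h3 : ‖z‖ ^ 2 ≤ 36 := by
    rw [← Complex.normSq_eq_norm_sq, Complex.normSq_apply]
    nlinarith
  nlinarith [norm_nonneg z]

theorem Box_convex (a1 a2 b1 b2 : ℝ) : Convex ℝ (Box a1 a2 b1 b2) := by
  have h1 : Box a1 a2 b1 b2 = (Complex.reCLM ⁻¹' Icc a1 a2) ∩ (Complex.imCLM ⁻¹' Icc b1 b2) := rfl
  rw [h1]
  exact ((convex_Icc a1 a2).linear_preimage Complex.reLm).inter
    ((convex_Icc b1 b2).linear_preimage Complex.imLm)

theorem BoxO_bounded (a1 a2 b1 b2 : ℝ) : Bornology.IsBounded (BoxO a1 a2 b1 b2) := by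
  refine (isBounded_iff_forall_norm_le).2 ⟨max |a1| |a2| + max |b1| |b2|, fun z hz => ?_⟩
  refine (Complex.norm_le_abs_re_add_abs_im z).trans (add_le_add ?_ ?_)
  · exact abs_le_max_abs_abs hz.1.1.le hz.1.2.le
  · exact abs_le_max_abs_abs hz.2.1.le hz.2.2.le

theorem growthG {w s G : ℂ → ℂ} {m0 M0 a1 a2 b1 b2 : ℝ} {Z1 Z2 Z3 Z4 : Finset ℝ} {n : ℕ}
    (hm : 0 < m0) (ha1 : a1 ∈ Icc (-4 : ℝ) (-3)) (ha2 : a2 ∈ Icc (3 : ℝ) 4)
    (hb1 : b1 ∈ Icc (-4 : ℝ) (-3)) (hb2 : b2 ∈ Icc (3 : ℝ) 4) (hw : Continuous w)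
    (hG : DifferentiableOn ℂ G (ball 0 20)) (hcls : ∀ v ∈ Bd a1 a2 b1 b2, Cls w s G m0 v)
    (z1 : ∀ t ∈ Icc b1 b2, (w ((a2 : ℂ) + t * I)).re = 0 → t ∈ Z1)
    (z2 : ∀ t ∈ Icc a1 a2, (w ((t : ℂ) + b2 * I)).re = 0 → t ∈ Z2)
    (z3 : ∀ t ∈ Icc b1 b2, (w ((a1 : ℂ) + t * I)).re = 0 → t ∈ Z3)
    (z4 : ∀ t ∈ Icc a1 a2, (w ((t : ℂ) + b1 * I)).re = 0 → t ∈ Z4)
    (hn : Z1.card + Z2.card + Z3.card + Z4.card ≤ n)
    (hM : ∀ v : ℂ, ‖v‖ ≤ 1 / 4 → ‖G v‖ ≤ M0) (v : ℂ) (hv : ‖v‖ ≤ 29 / 10) :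
    ‖G v‖ ≤ M0 * Real.exp (4500 * (n + 4)) := by
  have hab : a1 ≤ a2 := by linarith [ha1.2, ha2.1]
  have hbb : b1 ≤ b2 := by linarith [hb1.2, hb2.1]
  set S := Box a1 a2 b1 b2 with hS
  have hS6 : ∀ z ∈ S, ‖z‖ ≤ 6 := fun z hz => Box_norm ha1 ha2 hb1 hb2 hz
  have hS20 : ∀ z ∈ S, z ∈ ball (0 : ℂ) 20 := fun z hz =>
    mem_ball_zero_iff.2 ((hS6 z hz).trans_lt (by norm_num))
  have hSc : IsCompact S :=
    Metric.isCompact_of_isClosed_isBounded (Box_closed a1 a2 b1 b2)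
      ((isBounded_iff_forall_norm_le).2 ⟨6, hS6⟩)
  -- the corner
  set c0 : ℂ := (a2 : ℂ) + b1 * I with hc0
  have hc0S : c0 ∈ S := by
    refine ⟨⟨?_, ?_⟩, ?_, ?_⟩ <;> simp [hc0, hab, hbb]
  have hc0B : c0 ∈ Bd a1 a2 b1 b2 := ⟨hc0S, Or.inr (Or.inl (by simp [hc0]))⟩
  have hG0 : G c0 ≠ 0 := by
    have h1 := (hcls c0 hc0B).lower
    intro h2
    rw [h2, norm_zero] at h1
    linarith
  obtain ⟨k, z, H, hzS, hH, hH0, hfac⟩ := factor' hS6 hc0S hG hG0
  -- the zeros are in the open rectangle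
  have hzO : ∀ j, z j ∈ BoxO a1 a2 b1 b2 := by
    intro j
    refine mem_BoxO (hzS j) fun hj => ?_
    have h1 := (hcls (z j) hj).lower
    have h2 : G (z j) = 0 := by
      rw [hfac (z j) (hS20 _ (hzS j))]
      rw [Finset.prod_eq_zero (Finset.mem_univ j) (sub_self (z j)), zero_mul]
    rw [h2, norm_zero] at h1
    linarith
  -- the logarithm
  obtain ⟨V, hVo, hVc, hSV, hV20, hV0⟩ : ∃ V : Set ℂ, IsOpen V ∧ Convex ℝ V ∧ S ⊆ V ∧
      V ⊆ ball 0 20 ∧ ∀ v ∈ V, H v ≠ 0 := by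
    have hO : IsOpen (ball (0 : ℂ) 20 ∩ H ⁻¹' {0}ᶜ) :=
      hH.continuousOn.isOpen_inter_preimage isOpen_ball isOpen_compl_singleton
    have hSO : S ⊆ ball (0 : ℂ) 20 ∩ H ⁻¹' {0}ᶜ := fun x hx => ⟨hS20 x hx, hH0 x hx⟩
    obtain ⟨δ, hδ, hδs⟩ := hSc.exists_cthickening_subset_open hO hSO
    have hsub := (thickening_subset_cthickening δ S).trans hδs
    exact ⟨thickening δ S, isOpen_thickening, (Box_convex a1 a2 b1 b2).thickening δ,
      self_subset_thickening hδ S, fun x hx => (hsub hx).1, fun x hx => (hsub hx).2⟩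
  obtain ⟨g, hg, hgE⟩ := holo_log hVo hVc ⟨c0, hSV hc0S⟩ (hH.mono hV20) hV0
  have hfacS : ∀ v ∈ S, G v = (∏ j, (v - z j)) * exp (g v) := fun v hv => by
    rw [hgE v (hSV hv)]
    exact hfac v (hS20 v hv)
  have hgc : ContinuousOn g S := (hg.continuousOn).mono hSV
  -- the four sides
  set γR : ℝ → ℂ := fun t => (a2 : ℂ) + t * I with hγR
  set γT : ℝ → ℂ := fun t => (t : ℂ) + b2 * I with hγT
  set γL : ℝ → ℂ := fun t => (a1 : ℂ) + t * I with hγL
  set γB : ℝ → ℂ := fun t => (t : ℂ) + b1 * I with hγB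
  have cR : Continuous γR := by rw [hγR]; fun_prop
  have cT : Continuous γT := by rw [hγT]; fun_prop
  have cL : Continuous γL := by rw [hγL]; fun_prop
  have cB : Continuous γB := by rw [hγB]; fun_prop
  have bR : ∀ t ∈ Icc b1 b2, γR t ∈ Bd a1 a2 b1 b2 := by
    intro t ht
    refine ⟨⟨⟨?_, ?_⟩, ?_, ?_⟩, Or.inr (Or.inl ?_)⟩ <;> simp [hγR, hab, ht.1, ht.2]
  have bT : ∀ t ∈ Icc a1 a2, γT t ∈ Bd a1 a2 b1 b2 := by
    intro t ht
    refine ⟨⟨⟨?_, ?_⟩, ?_, ?_⟩, Or.inr (Or.inr (Or.inr ?_))⟩ <;> simp [hγT, hbb, ht.1, ht.2]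
  have bL : ∀ t ∈ Icc b1 b2, γL t ∈ Bd a1 a2 b1 b2 := by
    intro t ht
    refine ⟨⟨⟨?_, ?_⟩, ?_, ?_⟩, Or.inl ?_⟩ <;> simp [hγL, hab, ht.1, ht.2]
  have bB : ∀ t ∈ Icc a1 a2, γB t ∈ Bd a1 a2 b1 b2 := by
    intro t ht
    refine ⟨⟨⟨?_, ?_⟩, ?_, ?_⟩, Or.inr (Or.inr (Or.inl ?_))⟩ <;> simp [hγB, hbb, ht.1, ht.2]
  -- rotations
  have r0 : exp (-(((0 : ℝ) : ℂ) * I)) = 1 := by simp
  have r1 : exp (-(((0 + Real.pi / 2 : ℝ) : ℂ) * I)) = -I := by rw [rot_succ, r0, mul_one]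
  have r2 : exp (-(((0 + Real.pi / 2 + Real.pi / 2 : ℝ) : ℂ) * I)) = -1 := by
    rw [rot_succ, r1]
    rw [neg_mul_neg, I_mul_I]
  have r3 : exp (-(((0 + Real.pi / 2 + Real.pi / 2 + Real.pi / 2 : ℝ) : ℂ) * I)) = I := by
    rw [rot_succ, r2]; ring
  have r4 : exp (-(((0 + Real.pi / 2 + Real.pi / 2 + Real.pi / 2 + Real.pi / 2 : ℝ) : ℂ) * I)) =
      1 := by
    rw [rot_succ, r3]
    rw [neg_mul, I_mul_I, neg_neg]
  have pR : ∀ j, ∀ t ∈ Icc b1 b2, 0 < (exp (-(((0 : ℝ) : ℂ) * I)) * (γR t - z j)).re := by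
    intro j t _
    rw [r0]
    have := (hzO j).1.2
    simp [hγR, this]
  have pT : ∀ j, ∀ t ∈ Icc a1 a2,
      0 < (exp (-(((0 + Real.pi / 2 : ℝ) : ℂ) * I)) * (γT t - z j)).re := by
    intro j t _
    rw [r1]
    have := (hzO j).2.2
    simp [hγT, this]
  have pL : ∀ j, ∀ t ∈ Icc b1 b2,
      0 < (exp (-(((0 + Real.pi / 2 + Real.pi / 2 : ℝ) : ℂ) * I)) * (γL t - z j)).re := by
    intro j t _
    rw [r2]
    have := (hzO j).1.1
    simp [hγL, this]
  have pB : ∀ j, ∀ t ∈ Icc a1 a2, 0 < (exp (-(((0 + Real.pi / 2 + Real.pi / 2 +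
      Real.pi / 2 : ℝ) : ℂ) * I)) * (γB t - z j)).re := by
    intro j t _
    rw [r3]
    have := (hzO j).2.1
    simp [hγB, this]
  have sR := side (z := z) (g := g) (γ := γR) (θ := 0) (s := s) (G := G) (Z := Z1) hm hbb cR
    (hgc.comp cR.continuousOn fun t ht => (bR t ht).1) (hw.comp cR).continuousOn
    (fun t ht => hfacS _ (bR t ht).1) pR (fun t ht => hcls _ (bR t ht))
    (fun t ht => z1 t (Ioo_subset_Icc_self ht)) le_rfl
  have sT := side (z := z) (g := g) (γ := γT) (θ := 0 + Real.pi / 2) (s := s) (G := G) (Z := Z2)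
    hm hab cT
    (hgc.comp cT.continuousOn fun t ht => (bT t ht).1) (hw.comp cT).continuousOn
    (fun t ht => hfacS _ (bT t ht).1) pT (fun t ht => hcls _ (bT t ht))
    (fun t ht => z2 t (Ioo_subset_Icc_self ht)) le_rfl
  have sL := side (z := z) (g := g) (γ := γL) (θ := 0 + Real.pi / 2 + Real.pi / 2) (s := s)
    (G := G) (Z := Z3) hm hbb cL
    (hgc.comp cL.continuousOn fun t ht => (bL t ht).1) (hw.comp cL).continuousOn
    (fun t ht => hfacS _ (bL t ht).1) pL (fun t ht => hcls _ (bL t ht))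
    (fun t ht => z3 t (Ioo_subset_Icc_self ht)) le_rfl
  have sB := side (z := z) (g := g) (γ := γB)
    (θ := 0 + Real.pi / 2 + Real.pi / 2 + Real.pi / 2) (s := s)
    (G := G) (Z := Z4) hm hab cB
    (hgc.comp cB.continuousOn fun t ht => (bB t ht).1) (hw.comp cB).continuousOn
    (fun t ht => hfacS _ (bB t ht).1) pB (fun t ht => hcls _ (bB t ht))
    (fun t ht => z4 t (Ioo_subset_Icc_self ht)) le_rfl
  -- corners
  have eb1 : b1 ∈ Icc b1 b2 := ⟨le_rfl, hbb⟩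
  have eb2 : b2 ∈ Icc b1 b2 := ⟨hbb, le_rfl⟩
  have ea1 : a1 ∈ Icc a1 a2 := ⟨le_rfl, hab⟩
  have ea2 : a2 ∈ Icc a1 a2 := ⟨hab, le_rfl⟩
  have k1 : Aside z g γR 0 b2 = Aside z g γT (0 + Real.pi / 2) a2 := by
    unfold Aside
    have e1 : γT a2 = γR b2 := rfl
    rw [e1]
    congr 1
    refine Finset.sum_congr rfl fun j _ => ?_
    have h1 := pT j a2 ea2
    rw [e1] at h1
    exact corner (pR j b2 eb2) h1
  have k2 : Aside z g γT (0 + Real.pi / 2) a1 =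
      Aside z g γL (0 + Real.pi / 2 + Real.pi / 2) b2 := by
    unfold Aside
    have e1 : γL b2 = γT a1 := rfl
    rw [e1]
    congr 1
    refine Finset.sum_congr rfl fun j _ => ?_
    have h1 := pL j b2 eb2
    rw [e1] at h1
    exact corner (pT j a1 ea1) h1
  have k3 : Aside z g γL (0 + Real.pi / 2 + Real.pi / 2) b1 =
      Aside z g γB (0 + Real.pi / 2 + Real.pi / 2 + Real.pi / 2) a1 := by
    unfold Aside
    have e1 : γB a1 = γL b1 := rfl
    rw [e1]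
    congr 1
    refine Finset.sum_congr rfl fun j _ => ?_
    have h1 := pB j a1 ea1
    rw [e1] at h1
    exact corner (pL j b1 eb1) h1
  have k4 : Aside z g γB (0 + Real.pi / 2 + Real.pi / 2 + Real.pi / 2) a2 =
      Aside z g γR 0 b1 + 2 * Real.pi * k := by
    unfold Aside
    have e1 : γB a2 = γR b1 := rfl
    rw [e1, add_assoc ((g (γR b1)).im)]
    have h2 : (2 * Real.pi * k : ℝ) = ∑ j : Fin k, (2 * Real.pi) := by
      rw [Finset.sum_const, Finset.card_univ, Fintype.card_fin, nsmul_eq_mul]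
      ring
    rw [h2, ← Finset.sum_add_distrib]
    refine congrArg (fun t => (g (γR b1)).im + t) (Finset.sum_congr rfl fun j _ => ?_)
    have h1 := pR j b1 eb1
    have h3 : 0 < (exp (-(((0 + Real.pi / 2 + Real.pi / 2 + Real.pi / 2 + Real.pi / 2 : ℝ) : ℂ)
      * I)) * (γR b1 - z j)).re := by
      rw [r4, ← r0]
      exact h1
    have h4 := pB j a2 ea2
    rw [e1] at h4
    rw [corner h4 h3, r4, r0]
    ring
  -- the number of zeros
  have hπ := Real.pi_pos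
  rw [abs_le] at sR sT sL sB
  have hn' : ((Z1.card : ℝ) + Z2.card + Z3.card + Z4.card) ≤ n := by exact_mod_cast hn
  have hk : (k : ℝ) ≤ n + 4 := by
    have h1 : 2 * Real.pi * k ≤ 2 * Real.pi * (n + 4) := by
      nlinarith [sR.2, sT.1, sL.1, sB.2]
    exact le_of_mul_le_mul_left h1 (by positivity)
  -- oscillation
  have oR : ∀ t ∈ Icc b1 b2, ∀ t' ∈ Icc b1 b2, |(g (γR t')).im - (g (γR t)).im| ≤
      2 * Real.pi * (Z1.card + 1) + k * Real.pi := fun t ht t' ht' =>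
    side_osc (z := z) (g := g) (γ := γR) (θ := 0) (s := s) (G := G) (Z := Z1) hm cR
    (hgc.comp cR.continuousOn fun t ht => (bR t ht).1) (hw.comp cR).continuousOn
    (fun t ht => hfacS _ (bR t ht).1) pR (fun t ht => hcls _ (bR t ht))
    (fun t ht => z1 t (Ioo_subset_Icc_self ht)) le_rfl ht ht'
  have oT : ∀ t ∈ Icc a1 a2, ∀ t' ∈ Icc a1 a2, |(g (γT t')).im - (g (γT t)).im| ≤
      2 * Real.pi * (Z2.card + 1) + k * Real.pi := fun t ht t' ht' =>
    side_osc (z := z) (g := g) (γ := γT) (θ := 0 + Real.pi / 2) (s := s) (G := G) (Z := Z2) hm cT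
    (hgc.comp cT.continuousOn fun t ht => (bT t ht).1) (hw.comp cT).continuousOn
    (fun t ht => hfacS _ (bT t ht).1) pT (fun t ht => hcls _ (bT t ht))
    (fun t ht => z2 t (Ioo_subset_Icc_self ht)) le_rfl ht ht'
  have oL : ∀ t ∈ Icc b1 b2, ∀ t' ∈ Icc b1 b2, |(g (γL t')).im - (g (γL t)).im| ≤
      2 * Real.pi * (Z3.card + 1) + k * Real.pi := fun t ht t' ht' =>
    side_osc (z := z) (g := g) (γ := γL) (θ := 0 + Real.pi / 2 + Real.pi / 2) (s := s)
    (G := G) (Z := Z3) hm cL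
    (hgc.comp cL.continuousOn fun t ht => (bL t ht).1) (hw.comp cL).continuousOn
    (fun t ht => hfacS _ (bL t ht).1) pL (fun t ht => hcls _ (bL t ht))
    (fun t ht => z3 t (Ioo_subset_Icc_self ht)) le_rfl ht ht'
  have oB : ∀ t ∈ Icc a1 a2, ∀ t' ∈ Icc a1 a2, |(g (γB t')).im - (g (γB t)).im| ≤
      2 * Real.pi * (Z4.card + 1) + k * Real.pi := fun t ht t' ht' =>
    side_osc (z := z) (g := g) (γ := γB)
    (θ := 0 + Real.pi / 2 + Real.pi / 2 + Real.pi / 2) (s := s)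
    (G := G) (Z := Z4) hm cB
    (hgc.comp cB.continuousOn fun t ht => (bB t ht).1) (hw.comp cB).continuousOn
    (fun t ht => hfacS _ (bB t ht).1) pB (fun t ht => hcls _ (bB t ht))
    (fun t ht => z4 t (Ioo_subset_Icc_self ht)) le_rfl ht ht'
  set D : ℝ := 19 * (n + 4) with hD
  have hn0 : (0 : ℝ) ≤ n := Nat.cast_nonneg n
  have hsum : (2 * Real.pi * (Z1.card + 1) + k * Real.pi) +
      (2 * Real.pi * (Z2.card + 1) + k * Real.pi) + (2 * Real.pi * (Z3.card + 1) + k * Real.pi) +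
      (2 * Real.pi * (Z4.card + 1) + k * Real.pi) ≤ D := by
    have h1 : Real.pi < 3.15 := Real.pi_lt_d2
    have h2 : (2 * Real.pi * (Z1.card + 1) + k * Real.pi) +
      (2 * Real.pi * (Z2.card + 1) + k * Real.pi) + (2 * Real.pi * (Z3.card + 1) + k * Real.pi) +
      (2 * Real.pi * (Z4.card + 1) + k * Real.pi) =
      Real.pi * (2 * ((Z1.card : ℝ) + Z2.card + Z3.card + Z4.card) + 8 + 4 * k) := by ring
    rw [h2, hD]
    have h3 : 2 * ((Z1.card : ℝ) + Z2.card + Z3.card + Z4.card) + 8 + 4 * k ≤ 6 * (n + 4) := by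
      linarith
    calc Real.pi * (2 * ((Z1.card : ℝ) + Z2.card + Z3.card + Z4.card) + 8 + 4 * k)
        ≤ 3.15 * (6 * (n + 4)) := by gcongr
      _ ≤ 19 * (n + 4) := by nlinarith
  have q1 : 0 ≤ 2 * Real.pi * (Z1.card + 1) + k * Real.pi := by positivity
  have q2 : 0 ≤ 2 * Real.pi * (Z2.card + 1) + k * Real.pi := by positivity
  have q3 : 0 ≤ 2 * Real.pi * (Z3.card + 1) + k * Real.pi := by positivity
  have q4 : 0 ≤ 2 * Real.pi * (Z4.card + 1) + k * Real.pi := by positivity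
  have ec : γR b1 = c0 := rfl
  have ec' : γB a2 = c0 := rfl
  have hosc : ∀ v ∈ Bd a1 a2 b1 b2, |(g v).im - (g c0).im| ≤ D := by
    rintro v ⟨⟨⟨v1, v2⟩, v3, v4⟩, hv⟩
    rcases hv with hv | hv | hv | hv
    · have e1 : v = γL v.im := by
        apply Complex.ext <;> simp [hγL, hv]
      have h1 := oL b1 eb1 v.im ⟨v3, v4⟩
      have h2 := oB a2 ea2 a1 ea1
      rw [← e1] at h1
      rw [ec'] at h2
      have e2 : γB a1 = γL b1 := rfl
      rw [e2] at h2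
      rw [abs_le] at h1 h2 ⊢
      constructor <;> linarith [h1.1, h1.2, h2.1, h2.2]
    · have e1 : v = γR v.im := by
        apply Complex.ext <;> simp [hγR, hv]
      have h1 := oR b1 eb1 v.im ⟨v3, v4⟩
      rw [← e1, ec] at h1
      linarith
    · have e1 : v = γB v.re := by
        apply Complex.ext <;> simp [hγB, hv]
      have h1 := oB a2 ea2 v.re ⟨v1, v2⟩
      rw [← e1, ec'] at h1
      linarith
    · have e1 : v = γT v.re := by
        apply Complex.ext <;> simp [hγT, hv]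
      have h1 := oT a2 ea2 v.re ⟨v1, v2⟩
      have h2 := oR b1 eb1 b2 eb2
      rw [← e1] at h1
      rw [ec] at h2
      have e2 : γT a2 = γR b2 := rfl
      rw [e2] at h1
      rw [abs_le] at h1 h2 ⊢
      constructor <;> linarith [h1.1, h1.2, h2.1, h2.2]
  -- the maximum principle
  have hOV : closure (BoxO a1 a2 b1 b2) ⊆ V :=
    (closure_minimal (BoxO_sub a1 a2 b1 b2) (Box_closed a1 a2 b1 b2)).trans hSV
  have hmax : ∀ (σ : ℝ), (σ = 1 ∨ σ = -1) → ∀ v ∈ BoxO a1 a2 b1 b2,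
      σ * (g v).im ≤ σ * (g c0).im + D := by
    intro σ hσ v hv
    have hdc : DiffContOnCl ℂ (fun v => exp (-I * σ * g v)) (BoxO a1 a2 b1 b2) := by
      refine DifferentiableOn.diffContOnCl ?_
      exact ((hg.mono hOV).const_mul (-I * σ)).cexp
    have hre : ∀ v, ‖exp (-I * σ * g v)‖ = Real.exp (σ * (g v).im) := by
      intro v
      rw [Complex.norm_exp]
      congr 1
      simp
    have h1 := Complex.norm_le_of_forall_mem_frontier_norm_le (BoxO_bounded a1 a2 b1 b2) hdc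
      (C := Real.exp (σ * (g c0).im + D)) (fun u hu => by
        rw [hre]
        refine Real.exp_le_exp.2 ?_
        have h2 := abs_le.1 (hosc u (frontier_BoxO a1 a2 b1 b2 hu))
        rcases hσ with rfl | rfl
        · linarith [h2.1, h2.2]
        · linarith [h2.1, h2.2]) (subset_closure hv)
    rw [hre] at h1
    exact Real.exp_le_exp.1 h1
  have hball : ∀ v : ℂ, ‖v‖ < 3 → v ∈ BoxO a1 a2 b1 b2 := by
    intro v hv
    have h1 := abs_lt.1 ((abs_re_le_norm v).trans_lt hv)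
    have h2 := abs_lt.1 ((abs_im_le_norm v).trans_lt hv)
    exact ⟨⟨by linarith [ha1.2, h1.1], by linarith [ha2.1, h1.2]⟩,
      by linarith [hb1.2, h2.1], by linarith [hb2.1, h2.2]⟩
  have hD0 : 0 < D := by rw [hD]; positivity
  -- Borel and Caratheodory
  have hBC : ∀ v : ℂ, ‖v‖ ≤ 29 / 10 → |(g v).re - (g 0).re| ≤ 116 * D := by
    intro v hv
    have hv3 : v ∈ ball (0 : ℂ) 3 := mem_ball_zero_iff.2 (by linarith)
    have h1 := Complex.borelCaratheodory_zero (f := fun v => -I * (g v - g 0)) (M := 2 * D)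
      (R := 3) (z := v) (by linarith) ?_ ?_ (by norm_num) hv3 (by simp)
    · have h2 : ‖-I * (g v - g 0)‖ = ‖g v - g 0‖ := by
        rw [norm_mul, norm_neg, norm_I, one_mul]
      rw [h2] at h1
      have h3 : 2 * (2 * D) * ‖v‖ / (3 - ‖v‖) ≤ 116 * D := by
        rw [div_le_iff₀ (by linarith)]
        nlinarith [norm_nonneg v]
      have h4 := abs_re_le_norm (g v - g 0)
      rw [Complex.sub_re] at h4
      linarith
    · refine DifferentiableOn.const_mul (DifferentiableOn.sub_const ?_ _) _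
      refine hg.mono fun u hu => hSV (BoxO_sub _ _ _ _ (hball u (mem_ball_zero_iff.1 hu)))
    · intro u hu
      have h5 := hmax 1 (Or.inl rfl) u (hball u (mem_ball_zero_iff.1 hu))
      have h6 := hmax (-1) (Or.inr rfl) 0 (hball 0 (by simp))
      show (-I * (g u - g 0)).re ≤ 2 * D
      have h7 : (-I * (g u - g 0)).re = (g u).im - (g 0).im := by simp
      rw [h7]
      linarith
  -- conclusion
  have hinS : ∀ v : ℂ, ‖v‖ ≤ 29 / 10 → v ∈ S := fun v hv =>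
    BoxO_sub _ _ _ _ (hball v (by linarith))
  have hlow : 1 ≤ M0 * Real.exp (-(g 0).re + 116 * D) * 4 ^ k := by
    refine monic_lower z fun v hv => ?_
    have h1 := hM v hv.le
    rw [hfacS v (hinS v (by rw [hv]; norm_num)), norm_mul, Complex.norm_exp] at h1
    have h2 := abs_le.1 (hBC v (by rw [hv]; norm_num))
    have h3 : ‖∏ j, (v - z j)‖ * Real.exp ((g 0).re - 116 * D) ≤ M0 := by
      refine le_trans (mul_le_mul_of_nonneg_left (Real.exp_le_exp.2 ?_) (norm_nonneg _)) h1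
      linarith [h2.1]
    have h4 : Real.exp ((g 0).re - 116 * D) * Real.exp (-(g 0).re + 116 * D) = 1 := by
      rw [← Real.exp_add]
      simp
    calc ‖∏ j, (v - z j)‖ = ‖∏ j, (v - z j)‖ * Real.exp ((g 0).re - 116 * D) *
          Real.exp (-(g 0).re + 116 * D) := by rw [mul_assoc, h4, mul_one]
      _ ≤ M0 * Real.exp (-(g 0).re + 116 * D) :=
          mul_le_mul_of_nonneg_right h3 (Real.exp_pos _).le
  have hM00 : 0 ≤ M0 := (norm_nonneg _).trans (hM 0 (by simp))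
  have hexp0 : Real.exp (g 0).re ≤ M0 * Real.exp (116 * D) * 4 ^ k := by
    have h1 := mul_le_mul_of_nonneg_left hlow (Real.exp_pos (g 0).re).le
    have h2 : Real.exp (g 0).re * (M0 * Real.exp (-(g 0).re + 116 * D) * 4 ^ k) =
        M0 * (Real.exp (g 0).re * Real.exp (-(g 0).re + 116 * D)) * 4 ^ k := by ring
    rw [mul_one, h2, ← Real.exp_add] at h1
    have h3 : (g 0).re + (-(g 0).re + 116 * D) = 116 * D := by ring
    rwa [h3] at h1
  rw [hfacS v (hinS v hv), norm_mul, Complex.norm_exp]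
  have hprod : ‖∏ j, (v - z j)‖ ≤ 9 ^ k := by
    rw [norm_prod]
    have h1 : ∀ j ∈ (Finset.univ : Finset (Fin k)), ‖v - z j‖ ≤ 9 := by
      intro j _
      refine (norm_sub_le _ _).trans ?_
      have := hS6 (z j) (hzS j)
      linarith
    have h2 := Finset.prod_le_prod (fun j _ => norm_nonneg (v - z j)) h1
    rw [Finset.prod_const, Finset.card_univ, Fintype.card_fin] at h2
    exact h2
  have hre : Real.exp (g v).re ≤ Real.exp (g 0).re * Real.exp (116 * D) := by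
    rw [← Real.exp_add]
    refine Real.exp_le_exp.2 ?_
    have := (abs_le.1 (hBC v hv)).2
    linarith
  have hpow : (9 : ℝ) ^ k * 4 ^ k ≤ Real.exp (4 * (n + 4)) := by
    rw [← mul_pow]
    have h1 : (9 * 4 : ℝ) ≤ Real.exp 4 := by
      have h2 : (2.7 : ℝ) ≤ Real.exp 1 := by
        have := Real.exp_one_gt_d9
        linarith
      have h3 : Real.exp 4 = Real.exp 1 ^ 4 := by
        rw [← Real.exp_nat_mul]; norm_num
      rw [h3]
      calc (9 * 4 : ℝ) ≤ 2.7 ^ 4 := by norm_num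
        _ ≤ Real.exp 1 ^ 4 := by gcongr
    calc (9 * 4 : ℝ) ^ k ≤ Real.exp 4 ^ k := by gcongr
      _ = Real.exp (k * 4) := by rw [← Real.exp_nat_mul]
      _ ≤ Real.exp (4 * (n + 4)) := Real.exp_le_exp.2 (by linarith)
  calc ‖∏ j, (v - z j)‖ * Real.exp (g v).re
      ≤ 9 ^ k * (M0 * Real.exp (116 * D) * 4 ^ k * Real.exp (116 * D)) := by
        refine mul_le_mul hprod (hre.trans ?_) (Real.exp_pos _).le (by positivity)
        exact mul_le_mul_of_nonneg_right hexp0 (Real.exp_pos _).le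
    _ = M0 * ((9 : ℝ) ^ k * 4 ^ k) * (Real.exp (116 * D) * Real.exp (116 * D)) := by ring
    _ ≤ M0 * Real.exp (4 * (n + 4)) * (Real.exp (116 * D) * Real.exp (116 * D)) := by gcongr
    _ = M0 * Real.exp (4 * (n + 4) + (116 * D + 116 * D)) := by
        rw [mul_assoc, ← Real.exp_add, ← Real.exp_add]
    _ ≤ M0 * Real.exp (4500 * (n + 4)) := by
        refine mul_le_mul_of_nonneg_left (Real.exp_le_exp.2 ?_) hM00
        rw [hD]
        nlinarith

end Pool.Agent.NH44.LT
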