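import Pool.Agent.H352R4.CA.Sim

/-!
# The similarity principle, up to a small error

If `∂̄ w = b · conj w` on a large disc, then `w e^{-s}` is holomorphic up to a small error, where
`s` is bounded by a constant times the supremum of `|b|`.
-/

set_option autoImplicit false

open MeasureTheory Complex Filter Topology Metric Set
open scoped ComplexConjugate
open Pool.Agent.H352R3.SA Pool.Agent.H352R4.CA
open Pool.Agent.H761R2.SV (dbar pompeiu_compact dbar_mul continuous_dbar)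

namespace Pool.Agent.NH44.LT

/-- a smooth cutoff -/
theorem cutoff (r R : ℝ) (h0 : 0 < r) (h : r < R) : ∃ θ : ℂ → ℂ, ContDiff ℝ 1 θ ∧
    HasCompactSupport θ ∧ (∀ z, ‖z‖ ≤ r → θ z = 1) ∧ (∀ z, R < ‖z‖ → θ z = 0) ∧
    ∀ z, ‖θ z‖ ≤ 1 := by
  let b : ContDiffBump (0 : ℂ) := ⟨r, R, h0, h⟩
  refine ⟨fun w => ((b w : ℝ) : ℂ), ?_, ?_, ?_, ?_, ?_⟩
  · have : ContDiff ℝ 1 (fun w : ℂ => b w) := b.contDiff
    exact Complex.ofRealCLM.contDiff.comp this
  · exact b.hasCompactSupport.comp_left (g := fun x : ℝ => (x : ℂ)) Complex.ofReal_zero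
  · intro z hz
    have : b z = 1 := b.one_of_mem_closedBall (by simpa [b] using hz)
    simp [this]
  · intro z hz
    have : b z = 0 := b.zero_of_le_dist (by simpa [b] using hz.le)
    simp [this]
  · intro z
    rw [Complex.norm_real, Real.norm_of_nonneg b.nonneg]
    exact b.le_one

theorem ratio_le {t ε : ℝ} (_ht : 0 ≤ t) (hε : 0 < ε) :
    t * (ε ^ 2 / (t ^ 2 + ε ^ 2)) ≤ ε / 2 := by
  rw [← mul_div_assoc, div_le_div_iff₀ (by positivity) two_pos]
  nlinarith [mul_nonneg hε.le (sq_nonneg (t - ε))]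

theorem sim : ∃ C : ℝ, 0 ≤ C ∧ ∀ (b w : ℂ → ℂ) (B : ℝ), ContDiff ℝ 1 w → Continuous b →
    (∀ z, ‖z‖ ≤ 24 → ‖b z‖ ≤ B) → (∀ z, ‖z‖ ≤ 24 → dbar w z = b z * conj (w z)) →
    ∀ η : ℝ, 0 < η → ∃ s G : ℂ → ℂ, Continuous s ∧ (∀ z, ‖s z‖ ≤ C * B) ∧
      DifferentiableOn ℂ G (ball 0 20) ∧
      ∀ z ∈ ball (0 : ℂ) 20, ‖w z * exp (-(s z)) - G z‖ ≤ η := by
  obtain ⟨C1, hC1, HC1⟩ := pot_bound 24
  refine ⟨C1, hC1, ?_⟩
  intro b w B hw hb hB heq η hη
  have hB0 : 0 ≤ B := (norm_nonneg _).trans (hB 0 (by simp))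
  obtain ⟨θ, hθd, hθc, hθ1, hθ0, hθn⟩ := cutoff 22 23 (by norm_num) (by norm_num)
  obtain ⟨θ', hθd', hθc', hθ1', hθ0', hθn'⟩ := cutoff 20 21 (by norm_num) (by norm_num)
  have hπ : (0 : ℝ) < Real.pi := Real.pi_pos
  have hπ1 : (1 : ℝ) ≤ Real.pi := by linarith [Real.pi_gt_three]
  have hπC : (Real.pi : ℂ) ≠ 0 := by exact_mod_cast hπ.ne'
  -- the cut off function
  set W : ℂ → ℂ := fun z => θ z * w z with hW
  have hWd : ContDiff ℝ 1 W := hθd.mul hw
  have hWc : HasCompactSupport W := hθc.mul_right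
  set φ : ℂ → ℂ := fun z => (Real.pi : ℂ)⁻¹ * dbar W z with hφ
  have hφc : Continuous φ := continuous_const.mul (continuous_dbar hWd)
  have hdW : HasCompactSupport (dbar W) := by
    have h1 : HasCompactSupport (fderiv ℝ W) := hWc.fderiv ℝ
    unfold dbar
    refine h1.comp_left (g := fun A : ℂ →L[ℝ] ℂ => (A 1 + I * A I) / 2) (by simp)
  have hφs : HasCompactSupport φ := SimAux.supp_mul_right hdW _
  have hpotφ : ∀ z, pot φ z = W z := by
    intro z
    have h1 := pompeiu_compact hWd hWc z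
    rw [hφ, SimAux.pot_cmul]
    show (Real.pi : ℂ)⁻¹ * ∫ v, dbar W v * (z - v)⁻¹ = W z
    rw [h1]
    field_simp
  -- choice of the parameter
  obtain ⟨ε, hε, hεη⟩ : ∃ ε : ℝ, 0 < ε ∧ C1 * (B * (ε / 2) * Real.exp (C1 * B)) ≤ η := by
    refine ⟨η / (C1 * B * Real.exp (C1 * B) + 1), by positivity, ?_⟩
    have h1 : 0 ≤ C1 * B * Real.exp (C1 * B) := by positivity
    have h2 : C1 * (B * (η / (C1 * B * Real.exp (C1 * B) + 1) / 2) * Real.exp (C1 * B)) =
        η * ((C1 * B * Real.exp (C1 * B)) / (2 * (C1 * B * Real.exp (C1 * B) + 1))) := by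
      field_simp
    rw [h2]
    refine mul_le_of_le_one_right hη.le ?_
    rw [div_le_one (by positivity)]
    linarith
  have hden : ∀ z, ((‖w z‖ ^ 2 + ε ^ 2 : ℝ) : ℂ) ≠ 0 := by
    intro z
    have h1 : 0 < ‖w z‖ ^ 2 + ε ^ 2 := by positivity
    exact_mod_cast h1.ne'
  set u : ℂ → ℂ := fun z => (Real.pi : ℂ)⁻¹ * (θ z * b z) *
    (conj (w z) ^ 2 / ((‖w z‖ ^ 2 + ε ^ 2 : ℝ) : ℂ)) with hu
  have hwc := hw.continuous
  have huc : Continuous u := by
    refine (continuous_const.mul (hθd.continuous.mul hb)).mul (Continuous.div ?_ ?_ hden)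
    · exact (Complex.continuous_conj.comp hwc).pow 2
    · exact Complex.continuous_ofReal.comp ((hwc.norm.pow 2).add continuous_const)
  have hus : HasCompactSupport u :=
    SimAux.supp_mul_left (SimAux.supp_mul_right (SimAux.supp_mul_left hθc _) _) _
  have hθb : ∀ z, ‖θ z * b z‖ ≤ B := by
    intro z
    by_cases hz : ‖z‖ ≤ 24
    · rw [norm_mul]
      calc ‖θ z‖ * ‖b z‖ ≤ 1 * B := mul_le_mul (hθn z) (hB z hz) (norm_nonneg _) zero_le_one
        _ = B := one_mul _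
    · rw [hθ0 z (by linarith), zero_mul, norm_zero]
      exact hB0
  have hfr : ∀ z, ‖conj (w z) ^ 2 / ((‖w z‖ ^ 2 + ε ^ 2 : ℝ) : ℂ)‖ ≤ 1 := by
    intro z
    rw [norm_div, norm_pow, Complex.norm_conj, Complex.norm_real,
      Real.norm_of_nonneg (by positivity), div_le_one (by positivity)]
    have : 0 < ε ^ 2 := by positivity
    linarith
  have hπi : ‖(Real.pi : ℂ)⁻¹‖ ≤ 1 := by
    rw [norm_inv, Complex.norm_real, Real.norm_of_nonneg hπ.le]
    exact inv_le_one_of_one_le₀ hπ1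
  have hun : ∀ z, ‖u z‖ ≤ B := by
    intro z
    rw [hu]
    simp only
    rw [norm_mul, norm_mul]
    calc ‖(Real.pi : ℂ)⁻¹‖ * ‖θ z * b z‖ * ‖conj (w z) ^ 2 / ((‖w z‖ ^ 2 + ε ^ 2 : ℝ) : ℂ)‖
        ≤ 1 * B * 1 := by
          gcongr
          · exact hθb z
          · exact hfr z
      _ = B := by ring
  have hu0 : ∀ z, (24 : ℝ) < ‖z‖ → u z = 0 := by
    intro z hz
    rw [hu]
    simp only
    rw [hθ0 z (by linarith)]
    ring
  have hs : ∀ z, ‖pot u z‖ ≤ C1 * B := HC1 u B huc hu0 hun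
  set κ : ℂ → ℂ := fun v => (φ v - W v * u v) * exp (-(pot u v)) with hκ
  have hpuc := pot_continuous huc hus
  have hκc : Continuous κ := (hφc.sub (hWd.continuous.mul huc)).mul
    (Complex.continuous_exp.comp hpuc.neg)
  have hκs : HasCompactSupport κ :=
    SimAux.supp_mul_left (hφs.sub (SimAux.supp_mul_right hus _)) _
  have hkey : ∀ z, W z * exp (-(pot u z)) = pot κ z := by
    intro z
    have h := pot_exp hφc hφs huc hus 0 z
    simp only [zero_add] at h
    rw [hpotφ z] at h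
    rw [h, hκ]
    congr 1
    funext v
    rw [hpotφ v]
  -- the density is small in the disc
  have hdbar : ∀ z, ‖z‖ < 22 → dbar W z = b z * conj (w z) := by
    intro z hz
    have h1 : W =ᶠ[𝓝 z] w := by
      have : ball (0 : ℂ) 22 ∈ 𝓝 z := isOpen_ball.mem_nhds (mem_ball_zero_iff.2 hz)
      filter_upwards [this] with v hv
      rw [hW]
      simp only
      rw [hθ1 v (mem_ball_zero_iff.1 hv).le, one_mul]
    have h2 : dbar W z = dbar w z := by
      unfold dbar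
      rw [h1.fderiv_eq]
    rw [h2, heq z (by linarith)]
  have hκsmall : ∀ z, ‖z‖ < 22 → ‖κ z‖ ≤ B * (ε / 2) * Real.exp (C1 * B) := by
    intro z hz
    have hθz : θ z = 1 := hθ1 z hz.le
    have e1 : φ z - W z * u z = (Real.pi : ℂ)⁻¹ * b z * conj (w z) *
        ((ε ^ 2 / (‖w z‖ ^ 2 + ε ^ 2) : ℝ) : ℂ) := by
      have h1 := hden z
      have h2 : w z * conj (w z) = ((‖w z‖ ^ 2 : ℝ) : ℂ) := by
        rw [Complex.mul_conj, Complex.normSq_eq_norm_sq]
      rw [hφ, hu, hW]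
      simp only
      rw [hdbar z hz, hθz, Complex.ofReal_div]
      have h3 : ((‖w z‖ ^ 2 + ε ^ 2 : ℝ) : ℂ) = ((‖w z‖ ^ 2 : ℝ) : ℂ) + ((ε ^ 2 : ℝ) : ℂ) := by
        push_cast; ring
      rw [h3] at h1 ⊢
      field_simp
      linear_combination (- b z * conj (w z)) * h2
    rw [hκ]
    simp only
    rw [e1, norm_mul, norm_mul, norm_mul, norm_mul, Complex.norm_conj, Complex.norm_real,
      Real.norm_of_nonneg (by positivity)]
    have h3 : ‖exp (-(pot u z))‖ ≤ Real.exp (C1 * B) := by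
      calc ‖exp (-(pot u z))‖ ≤ Real.exp ‖-(pot u z)‖ := Complex.norm_exp_le_exp_norm _
        _ ≤ Real.exp (C1 * B) := by
            rw [norm_neg]; exact Real.exp_le_exp.mpr (hs z)
    calc ‖(Real.pi : ℂ)⁻¹‖ * ‖b z‖ * ‖w z‖ * (ε ^ 2 / (‖w z‖ ^ 2 + ε ^ 2)) * ‖exp (-(pot u z))‖
        = ‖(Real.pi : ℂ)⁻¹‖ * ‖b z‖ * (‖w z‖ * (ε ^ 2 / (‖w z‖ ^ 2 + ε ^ 2))) *
          ‖exp (-(pot u z))‖ := by ring
      _ ≤ 1 * B * (ε / 2) * Real.exp (C1 * B) := by
          gcongr
          · exact hB z (by linarith)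
          · exact ratio_le (norm_nonneg _) hε
      _ = _ := by ring
  -- splitting
  set κ1 : ℂ → ℂ := fun v => θ' v * κ v with hκ1
  set κ2 : ℂ → ℂ := fun v => (1 - θ' v) * κ v with hκ2
  have c1 : Continuous κ1 := hθd'.continuous.mul hκc
  have c2 : Continuous κ2 := (continuous_const.sub hθd'.continuous).mul hκc
  have s1 : HasCompactSupport κ1 := SimAux.supp_mul_left hθc' _
  have s2 : HasCompactSupport κ2 := SimAux.supp_mul_right hκs _
  have hsplit : ∀ z, pot κ z = pot κ1 z + pot κ2 z := by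
    intro z
    rw [← SimAux.pot_add c1 s1 c2 s2]
    congr 1
    funext v
    rw [hκ1, hκ2]
    ring
  have hb1 : ∀ z, ‖pot κ1 z‖ ≤ η := by
    intro z
    refine (HC1 κ1 (B * (ε / 2) * Real.exp (C1 * B)) c1 ?_ ?_ z).trans hεη
    · intro v hv
      rw [hκ1]
      simp only
      rw [hθ0' v (by linarith), zero_mul]
    · intro v
      rw [hκ1]
      simp only
      rw [norm_mul]
      by_cases hv : ‖v‖ < 22
      · calc ‖θ' v‖ * ‖κ v‖ ≤ 1 * (B * (ε / 2) * Real.exp (C1 * B)) :=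
            mul_le_mul (hθn' v) (hκsmall v hv) (norm_nonneg _) zero_le_one
          _ = _ := one_mul _
      · rw [hθ0' v (by linarith), norm_zero, zero_mul]
        positivity
  refine ⟨pot u, pot κ2, hpuc, hs, ?_, ?_⟩
  · refine (pot_differentiableOn c2 s2).mono fun z hz hz' => ?_
    have h1 : ball (0 : ℂ) 20 ∈ 𝓝 z := isOpen_ball.mem_nhds hz
    rw [tsupport, mem_closure_iff_frequently] at hz'
    refine hz' ?_
    filter_upwards [h1] with v hv
    rw [Function.mem_support, not_not, hκ2]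
    simp only
    rw [hθ1' v (mem_ball_zero_iff.1 hv).le, sub_self, zero_mul]
  · intro z hz
    have hzn : ‖z‖ < 20 := mem_ball_zero_iff.1 hz
    have h1 : w z = W z := by
      rw [hW]
      simp only
      rw [hθ1 z (by linarith), one_mul]
    rw [h1, hkey z, hsplit z, add_sub_cancel_right]
    exact hb1 z

end Pool.Agent.NH44.LT
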