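import Pool.Agent.NH44.LT.Psi
import Pool.Agent.NH44.LT.Sim
import Pool.Agent.NH44.LT.Grow

/-!
# The local lemma: growth from the number of zeros on the boundary of a rectangle
-/

set_option autoImplicit false

open MeasureTheory Complex Filter Topology Metric Set Function
open scoped ComplexConjugate
open Pool.Agent.Y291.PA (Sol2 cacc2)
open Pool.Agent.R220.LV (par_deriv par_cont contDiff_one_of)
open Pool.Agent.H761R2.SV (dbar)

namespace Pool.Agent.NH44.LT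

/-- the conclusion of the similarity principle -/
def Sm (w : ℂ → ℂ) : Prop := ∀ η : ℝ, 0 < η → ∃ s G : ℂ → ℂ, Continuous s ∧
  (∀ z, ‖s z‖ ≤ 1 / 2) ∧ DifferentiableOn ℂ G (ball 0 20) ∧
  ∀ z ∈ ball (0 : ℂ) 20, ‖w z * exp (-(s z)) - G z‖ ≤ η

theorem exp_half : Real.exp (1 / 2) ≤ 33 / 20 := by
  have h1 : Real.exp (1 / 2 : ℝ) ^ 2 = Real.exp 1 := by
    rw [← Real.exp_nat_mul]; norm_num
  have h2 := Real.exp_one_lt_d9
  have h3 := Real.exp_pos (1 / 2 : ℝ)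
  nlinarith

theorem up {w s G : ℂ → ℂ} {η : ℝ} {z : ℂ} (hs : ‖s z‖ ≤ 1 / 2)
    (he : ‖w z * exp (-(s z)) - G z‖ ≤ η) :
    ‖G z‖ ≤ 33 / 20 * ‖w z‖ + η ∧ ‖w z‖ ≤ 33 / 20 * (‖G z‖ + η) := by
  have h1 : ‖exp (-(s z))‖ ≤ 33 / 20 := by
    rw [Complex.norm_exp]
    refine (Real.exp_le_exp.2 ?_).trans exp_half
    have := (abs_le.1 ((abs_re_le_norm (s z)).trans hs)).1
    rw [Complex.neg_re]
    linarith
  have h2 : ‖exp (s z)‖ ≤ 33 / 20 := by
    rw [Complex.norm_exp]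
    refine (Real.exp_le_exp.2 ?_).trans exp_half
    exact (abs_le.1 ((abs_re_le_norm (s z)).trans hs)).2
  have h3 : ‖w z * exp (-(s z))‖ ≤ 33 / 20 * ‖w z‖ := by
    rw [norm_mul, mul_comm]
    exact mul_le_mul_of_nonneg_right h1 (norm_nonneg _)
  constructor
  · have h4 : ‖G z‖ ≤ ‖w z * exp (-(s z))‖ + ‖w z * exp (-(s z)) - G z‖ := by
      have := norm_sub_le (w z * exp (-(s z))) (w z * exp (-(s z)) - G z)
      rwa [sub_sub_cancel] at this
    linarith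
  · have h4 : ‖w z * exp (-(s z))‖ ≤ ‖w z * exp (-(s z)) - G z‖ + ‖G z‖ := by
      have := norm_add_le (w z * exp (-(s z)) - G z) (G z)
      rwa [sub_add_cancel] at this
    have h5 : w z = exp (s z) * (w z * exp (-(s z))) := by
      rw [mul_left_comm, ← Complex.exp_add]
      simp
    calc ‖w z‖ = ‖exp (s z)‖ * ‖w z * exp (-(s z))‖ := by
          conv_lhs => rw [h5]
          rw [norm_mul]
      _ ≤ 33 / 20 * (‖G z‖ + η) := mul_le_mul h2 (by linarith) (norm_nonneg _) (by norm_num)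

theorem max_pr {w : ℂ → ℂ} (h : Sm w) {x1 x2 y1 y2 M : ℝ}
    (h6 : ∀ v ∈ Box x1 x2 y1 y2, ‖v‖ ≤ 6) (hM : ∀ v ∈ Bd x1 x2 y1 y2, ‖w v‖ ≤ M) {v : ℂ}
    (hv : v ∈ Box x1 x2 y1 y2) : ‖w v‖ ≤ 3 * M := by
  by_cases hvB : v ∈ Bd x1 x2 y1 y2
  · have h1 := hM v hvB
    have h2 := norm_nonneg (w v)
    linarith
  have hvO := mem_BoxO hv hvB
  have h20 : ∀ u ∈ Box x1 x2 y1 y2, u ∈ ball (0 : ℂ) 20 := fun u hu =>
    mem_ball_zero_iff.2 ((h6 u hu).trans_lt (by norm_num))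
  by_cases hM0 : M < 0
  · exfalso
    -- the boundary is nonempty
    obtain ⟨⟨k1, k2⟩, k3, k4⟩ := hvO
    have h1 : (⟨x1, v.im⟩ : ℂ) ∈ Bd x1 x2 y1 y2 :=
      ⟨⟨⟨le_rfl, (k1.trans k2).le⟩, k3.le, k4.le⟩, Or.inl rfl⟩
    have h2 := hM _ h1
    have h3 := norm_nonneg (w (⟨x1, v.im⟩ : ℂ))
    linarith
  rw [not_lt] at hM0
  refine le_of_forall_pos_le_add fun ε hε => ?_
  obtain ⟨s, G, -, hs, hG, he⟩ := h (ε / 4) (by positivity)
  have hcl : closure (BoxO x1 x2 y1 y2) ⊆ ball 0 20 := fun u hu => h20 u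
    (closure_minimal (BoxO_sub x1 x2 y1 y2) (Box_closed x1 x2 y1 y2) hu)
  have h1 := Complex.norm_le_of_forall_mem_frontier_norm_le (BoxO_bounded x1 x2 y1 y2)
    ((hG.mono hcl).diffContOnCl) (C := 33 / 20 * M + ε / 4) (fun u hu => by
      have hu' := frontier_BoxO x1 x2 y1 y2 hu
      have h2 := (up (hs u) (he u (h20 u hu'.1))).1
      have h3 := hM u hu'
      linarith) (subset_closure hvO)
  have h2 := (up (hs v) (he v (h20 v hv))).2
  linarith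

theorem growthW {w : ℂ → ℂ} (hw : Continuous w) (h : Sm w) {M a1 a2 b1 b2 : ℝ}
    {Z1 Z2 Z3 Z4 : Finset ℝ} {n : ℕ} (ha1 : a1 ∈ Icc (-4 : ℝ) (-3)) (ha2 : a2 ∈ Icc (3 : ℝ) 4)
    (hb1 : b1 ∈ Icc (-4 : ℝ) (-3)) (hb2 : b2 ∈ Icc (3 : ℝ) 4)
    (h0 : ∀ v ∈ Bd a1 a2 b1 b2, w v ≠ 0)
    (z1 : ∀ t ∈ Icc b1 b2, (w ((a2 : ℂ) + t * I)).re = 0 → t ∈ Z1)
    (z2 : ∀ t ∈ Icc a1 a2, (w ((t : ℂ) + b2 * I)).re = 0 → t ∈ Z2)
    (z3 : ∀ t ∈ Icc b1 b2, (w ((a1 : ℂ) + t * I)).re = 0 → t ∈ Z3)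
    (z4 : ∀ t ∈ Icc a1 a2, (w ((t : ℂ) + b1 * I)).re = 0 → t ∈ Z4)
    (hn : Z1.card + Z2.card + Z3.card + Z4.card ≤ n)
    (hM : ∀ v : ℂ, ‖v‖ ≤ 1 / 4 → ‖w v‖ ≤ M) (v : ℂ) (hv : ‖v‖ ≤ 29 / 10) :
    ‖w v‖ ≤ 3 * M * Real.exp (4500 * (n + 4)) := by
  set K := Real.exp (4500 * (n + 4)) with hK
  have hK1 : 1 ≤ K := Real.one_le_exp (by positivity)
  have h6 : ∀ u ∈ Box a1 a2 b1 b2, ‖u‖ ≤ 6 := fun u hu => Box_norm ha1 ha2 hb1 hb2 hu
  have h20 : ∀ u ∈ Box a1 a2 b1 b2, u ∈ ball (0 : ℂ) 20 := fun u hu =>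
    mem_ball_zero_iff.2 ((h6 u hu).trans_lt (by norm_num))
  have hBdc : IsCompact (Bd a1 a2 b1 b2) := by
    refine Metric.isCompact_of_isClosed_isBounded ?_
      ((isBounded_iff_forall_norm_le).2 ⟨6, fun u hu => h6 u hu.1⟩)
    refine (Box_closed a1 a2 b1 b2).inter ?_
    refine (isClosed_eq Complex.continuous_re continuous_const).union
      ((isClosed_eq Complex.continuous_re continuous_const).union
      ((isClosed_eq Complex.continuous_im continuous_const).union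
      (isClosed_eq Complex.continuous_im continuous_const)))
  have hne : (Bd a1 a2 b1 b2).Nonempty := by
    have hab : a1 ≤ a2 := by linarith [ha1.2, ha2.1]
    have hbb : b1 ≤ b2 := by linarith [hb1.2, hb2.1]
    exact ⟨⟨a1, b1⟩, ⟨⟨le_rfl, hab⟩, le_rfl, hbb⟩, Or.inl rfl⟩
  obtain ⟨u0, hu0, hmin⟩ := hBdc.exists_isMinOn hne (hw.norm.continuousOn)
  set m0 := ‖w u0‖ with hm0
  have hm : 0 < m0 := norm_pos_iff.2 (h0 u0 hu0)
  have hM0 : 0 ≤ M := (norm_nonneg _).trans (hM 0 (by simp))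
  refine le_of_forall_pos_le_add fun ε hε => ?_
  set η := min (m0 / 10) (ε / (4 * K)) with hη
  have hη0 : 0 < η := by positivity
  obtain ⟨s, G, -, hs, hG, he⟩ := h η hη0
  have hcls : ∀ u ∈ Bd a1 a2 b1 b2, Cls w s G m0 u := fun u hu =>
    ⟨hmin hu, hs u, (he u (h20 u hu.1)).trans (min_le_left _ _)⟩
  have hb : ∀ u : ℂ, ‖u‖ ≤ 19 → u ∈ ball (0 : ℂ) 20 := fun u hu =>
    mem_ball_zero_iff.2 (by linarith)
  have h1 := growthG (M0 := 33 / 20 * M + η) hm ha1 ha2 hb1 hb2 hw hG hcls z1 z2 z3 z4 hn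
    (fun u hu => by
      have h2 := (up (hs u) (he u (hb u (by linarith)))).1
      have h3 := hM u hu
      linarith) v hv
  rw [← hK] at h1
  have h2 := (up (hs v) (he v (hb v (by linarith)))).2
  have h3 : η * K ≤ ε / 4 := by
    have : η ≤ ε / (4 * K) := min_le_right _ _
    have h4 := mul_le_mul_of_nonneg_right this (by linarith : 0 ≤ K)
    have h5 : ε / (4 * K) * K = ε / 4 := by field_simp
    rwa [h5] at h4
  have h4 : η ≤ η * K := le_mul_of_one_le_right hη0.le hK1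
  have h5 : 0 ≤ M * K := by positivity
  nlinarith

theorem good_line {F : ℝ → ℝ} (hF : Continuous F) {a b : ℝ} (hab : a ≤ b) :
    ∃ x ∈ Icc a b, (b - a) * F x ≤ ∫ t in a..b, F t := by
  obtain ⟨x, hx, hmin⟩ := (isCompact_Icc (a := a) (b := b)).exists_isMinOn
    ⟨a, le_rfl, hab⟩ hF.continuousOn
  refine ⟨x, hx, ?_⟩
  have h1 : ∫ t in a..b, F x ≤ ∫ t in a..b, F t :=
    intervalIntegral.integral_mono_on hab (continuous_const.intervalIntegrable _ _)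
      (hF.intervalIntegrable _ _) fun t ht => hmin ht
  rwa [intervalIntegral.integral_const, smul_eq_mul] at h1

theorem osc_line {D f u : ℝ → ℝ} {m E : ℝ} (hD : ∀ t, HasDerivAt D (f t) t)
    (hf : Continuous f) (hu : Continuous u) (hm : 0 < m)
    (hfu : ∀ t, |t| ≤ 1 / 2 → |f t| ≤ 4 * |u t| + 2 * m)
    (hE : ∫ t in (-(1 / 2) : ℝ)..(1 / 2), u t ^ 2 ≤ E * m ^ 2) {p q : ℝ} (hp : |p| ≤ 1 / 2)
    (hq : |q| ≤ 1 / 2) : |D q - D p| ≤ (4 + 2 * E) * m := by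
  wlog hpq : p ≤ q generalizing p q
  · rw [abs_sub_comm]
    exact this hq hp (le_of_not_ge hpq)
  rw [abs_le] at hp hq
  have h1 : D q - D p = ∫ t in p..q, f t :=
    (intervalIntegral.integral_eq_sub_of_hasDerivAt (fun t _ => hD t)
      (hf.intervalIntegrable _ _)).symm
  have h2 : |∫ t in p..q, f t| ≤ ∫ t in p..q, |f t| :=
    intervalIntegral.abs_integral_le_integral_abs hpq
  have h3 : ∫ t in p..q, |f t| ≤ ∫ t in (-(1 / 2) : ℝ)..(1 / 2), |f t| :=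
    intervalIntegral.integral_mono_interval hp.1 hpq hq.2
      (Filter.Eventually.of_forall fun t => abs_nonneg _) (hf.abs.intervalIntegrable _ _)
  have h4 : ∫ t in (-(1 / 2) : ℝ)..(1 / 2), |f t| ≤
      ∫ t in (-(1 / 2) : ℝ)..(1 / 2), (4 * m + 2 / m * u t ^ 2) := by
    refine intervalIntegral.integral_mono_on (by norm_num) (hf.abs.intervalIntegrable _ _)
      ((continuous_const.add (continuous_const.mul (hu.pow 2))).intervalIntegrable _ _)
      fun t ht => ?_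
    have h5 := hfu t (abs_le.2 ht)
    have h6 : 4 * |u t| ≤ 2 * m + 2 / m * u t ^ 2 := by
      rw [← sq_abs (u t), ← sub_nonneg]
      have : 2 * m + 2 / m * |u t| ^ 2 - 4 * |u t| = 2 / m * (m - |u t|) ^ 2 := by
        field_simp
        ring
      rw [this]
      positivity
    linarith
  have h5 : ∫ t in (-(1 / 2) : ℝ)..(1 / 2), (4 * m + 2 / m * u t ^ 2) =
      4 * m + 2 / m * ∫ t in (-(1 / 2) : ℝ)..(1 / 2), u t ^ 2 := by
    have k1 : Continuous fun t => 2 / m * u t ^ 2 := by fun_prop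
    rw [intervalIntegral.integral_add (f := fun _ => 4 * m) (g := fun t => 2 / m * u t ^ 2)
      (continuous_const.intervalIntegrable _ _) (k1.intervalIntegrable _ _),
      intervalIntegral.integral_const, smul_eq_mul]
    have k2 : ∫ t in (-(1 / 2) : ℝ)..(1 / 2), 2 / m * u t ^ 2 =
      2 / m * ∫ t in (-(1 / 2) : ℝ)..(1 / 2), u t ^ 2 := intervalIntegral.integral_const_mul _ _
    rw [k2]
    ring
  have h6 : 2 / m * ∫ t in (-(1 / 2) : ℝ)..(1 / 2), u t ^ 2 ≤ 2 * E * m := by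
    have h7 := mul_le_mul_of_nonneg_left hE (by positivity : 0 ≤ 2 / m)
    have h8 : 2 / m * (E * m ^ 2) = 2 * E * m := by field_simp
    rwa [h8] at h7
  rw [h1]
  linarith

theorem wf_sm : ∃ ε : ℝ, 0 < ε ∧ ε ≤ 1 / 4 ∧ ∀ a b : ℝ → ℝ, Continuous a → Continuous b →
    (∀ x, |a x| ≤ ε) → (∀ x, |b x| ≤ ε) → ∃ (τ : ℝ) (α α' αh αh' β β' βh βh' : ℝ → ℝ),
      PF τ a α α' αh αh' ∧ PF τ b β β' βh βh' ∧ ∀ U Ux Uxx Uy Uyy : ℝ → ℝ → ℝ,
        Sol2 (fun x y => a x + b y) U Ux Uxx Uy Uyy → ∀ c, Sm (wf α α' αh β βh U Ux Uy c) := by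
  obtain ⟨C, hC, hsim⟩ := sim
  have hτ : 0 < 1 / (2 * (C + 1)) := by positivity
  obtain ⟨ε, hε, hε4, hpos⟩ := pos_sol hτ
  refine ⟨ε, hε, hε4, fun a b ha hb hae hbe => ?_⟩
  obtain ⟨α, α', αh, αh', hα⟩ := hpos a ha hae
  obtain ⟨β, β', βh, βh', hβ⟩ := hpos b hb hbe
  refine ⟨_, α, α', αh, αh', β, β', βh, βh', hα, hβ, fun U Ux Uxx Uy Uyy hs c η hη => ?_⟩
  obtain ⟨h1, h2⟩ := wf_main hs hα hβ c
  obtain ⟨s, G, k1, k2, k3, k4⟩ := hsim (bf αh αh' βh βh') _ (1 / (2 * (C + 1))) h1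
    (bf_cont hα hβ) (fun z hz => bf_bound hα hβ hz) h2 η hη
  refine ⟨s, G, k1, fun z => (k2 z).trans ?_, k3, k4⟩
  have : C * (1 / (2 * (C + 1))) = C / (C + 1) / 2 := by field_simp
  rw [this]
  have h5 : C / (C + 1) ≤ 1 := by
    rw [div_le_one (by positivity)]
    linarith
  linarith

/-- the transposed solution -/
theorem sol_swap {q U Ux Uxx Uy Uyy : ℝ → ℝ → ℝ} (h : Sol2 q U Ux Uxx Uy Uyy) :
    Sol2 (fun x y => q y x) (fun x y => U y x) (fun x y => Uy y x) (fun x y => Uyy y x)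
      (fun x y => Ux y x) (fun x y => Uxx y x) := by
  have sw : ∀ F : ℝ → ℝ → ℝ, Continuous (uncurry F) → Continuous (uncurry fun x y => F y x) :=
    fun F hF => hF.comp continuous_swap
  refine ⟨sw _ h.qc, sw _ h.c, sw _ h.cy, sw _ h.cyy, sw _ h.cx, sw _ h.cxx, fun x y => h.dy y x,
    fun x y => h.dyy y x, fun x y => h.dx y x, fun x y => h.dxx y x, fun x y => ?_⟩
  have := h.pde y x
  show Uyy y x + Uxx y x = -(q y x * U y x)
  linarith

/-- the lines with small energy -/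
theorem lines {q U Ux Uxx Uy Uyy : ℝ → ℝ → ℝ} (h : Sol2 q U Ux Uxx Uy Uyy) {m : ℝ}
    (hU : ∀ x y, |x| ≤ 1 → |y| ≤ 1 → |U x y| ≤ m) (hq : ∀ x y, q x y ≤ 1 / 2) :
    (∃ x ∈ Icc (1 / 4 : ℝ) (1 / 2), ∫ t in (-(1 / 2) : ℝ)..(1 / 2), Ux x t ^ 2 ≤ 548 * m ^ 2) ∧
    ∃ x ∈ Icc (-(1 / 2) : ℝ) (-(1 / 4)),
      ∫ t in (-(1 / 2) : ℝ)..(1 / 2), Ux x t ^ 2 ≤ 548 * m ^ 2 := by
  have h1 := cacc2 h (x0 := 0) (y0 := 0) (b := 1) (S := m) (Q := 1 / 2) one_pos
    (fun x y hx hy => hU x y (by simpa using hx) (by simpa using hy)) hq (by norm_num)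
  have cx : Continuous fun p : ℝ × ℝ => Ux p.1 p.2 := h.cx
  have c0 : Continuous fun p : ℝ × ℝ => U p.1 p.2 := h.c
  set F : ℝ → ℝ := fun x => ∫ t in (-(1 / 2) : ℝ)..(1 / 2), Ux x t ^ 2 with hF
  have hFc : Continuous F := by
    refine par_cont (F := fun x t => Ux x t ^ 2) ?_ _ _
    have : Continuous fun p : ℝ × ℝ => Ux p.1 p.2 ^ 2 := by fun_prop
    exact this
  have hF0 : ∀ x, 0 ≤ F x := fun x => intervalIntegral.integral_nonneg (by norm_num)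
    fun t _ => sq_nonneg _
  have h2 : ∫ x in (-(1 / 2) : ℝ)..(1 / 2), F x ≤ 137 * m ^ 2 := by
    have e1 : (0 : ℝ) - 1 / 2 = -(1 / 2) := by norm_num
    have e2 : (0 : ℝ) + 1 / 2 = 1 / 2 := by norm_num
    rw [e1, e2] at h1
    have h3 : ∫ x in (-(1 / 2) : ℝ)..(1 / 2), F x ≤ ∫ x in (-(1 / 2) : ℝ)..(1 / 2),
        ∫ y in (-(1 / 2) : ℝ)..(1 / 2), (U x y ^ 2 + 1 ^ 2 * Ux x y ^ 2) := by
      refine intervalIntegral.integral_mono_on (by norm_num) (hFc.intervalIntegrable _ _) ?_ ?_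
      · refine Continuous.intervalIntegrable ?_ _ _
        refine par_cont (F := fun x y => U x y ^ 2 + 1 ^ 2 * Ux x y ^ 2) ?_ _ _
        have : Continuous fun p : ℝ × ℝ => U p.1 p.2 ^ 2 + 1 ^ 2 * Ux p.1 p.2 ^ 2 := by fun_prop
        exact this
      · intro x _
        refine intervalIntegral.integral_mono_on (by norm_num) ?_ ?_ ?_
        · exact ((h.cx.comp (Continuous.prodMk_right x)).pow 2).intervalIntegrable _ _
        · exact (((h.c.comp (Continuous.prodMk_right x)).pow 2).add (continuous_const.mul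
            ((h.cx.comp (Continuous.prodMk_right x)).pow 2))).intervalIntegrable _ _
        · intro y _
          have := sq_nonneg (U x y)
          simp only [one_pow, one_mul]
          linarith
    refine h3.trans (h1.trans ?_)
    nlinarith [sq_nonneg m]
  constructor
  · obtain ⟨x, hx, h3⟩ := good_line hFc (a := 1 / 4) (b := 1 / 2) (by norm_num)
    refine ⟨x, hx, ?_⟩
    have h4 : ∫ t in (1 / 4 : ℝ)..(1 / 2), F t ≤ ∫ t in (-(1 / 2) : ℝ)..(1 / 2), F t :=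
      intervalIntegral.integral_mono_interval (by norm_num) (by norm_num) le_rfl
        (Filter.Eventually.of_forall hF0) (hFc.intervalIntegrable _ _)
    show F x ≤ 548 * m ^ 2
    linarith
  · obtain ⟨x, hx, h3⟩ := good_line hFc (a := -(1 / 2)) (b := -(1 / 4)) (by norm_num)
    refine ⟨x, hx, ?_⟩
    have h4 : ∫ t in (-(1 / 2) : ℝ)..(-(1 / 4)), F t ≤ ∫ t in (-(1 / 2) : ℝ)..(1 / 2), F t :=
      intervalIntegral.integral_mono_interval le_rfl (by norm_num) (by norm_num)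
        (Filter.Eventually.of_forall hF0) (hFc.intervalIntegrable _ _)
    show F x ≤ 548 * m ^ 2
    linarith

section

variable {τ : ℝ} {a b α α' αh αh' β β' βh βh' : ℝ → ℝ} {U Ux Uxx Uy Uyy : ℝ → ℝ → ℝ}
  (hs : Sol2 (fun x y => a x + b y) U Ux Uxx Uy Uyy) (hα : PF τ a α α' αh αh')
  (hβ : PF τ b β β' βh βh')

include hs hα hβ

/-- a good constant -/
theorem base {m : ℝ} (hm : 0 < m) (hU : ∀ x y, |x| ≤ 1 → |y| ≤ 1 → |U x y| ≤ m)
    (ha : ∀ x, |a x| ≤ 1 / 4) (hb : ∀ x, |b x| ≤ 1 / 4)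
    (hSm : ∀ c, Sm (wf α α' αh β βh U Ux Uy c)) :
    ∃ c0 : ℝ, ∀ v : ℂ, ‖v‖ ≤ 1 / 4 → ‖wf α α' αh β βh U Ux Uy c0 v‖ ≤ 27000 * m := by
  have hq : ∀ x y, a x + b y ≤ 1 / 2 := fun x y => by
    have h1 := (abs_le.1 (ha x)).2
    have h2 := (abs_le.1 (hb y)).2
    linarith
  obtain ⟨⟨xp, hxp, Exp⟩, xm, hxm, Exm⟩ := lines hs hU hq
  obtain ⟨⟨yp, hyp, Eyp⟩, ym, hym, Eym⟩ := lines (sol_swap hs) (fun x y hx hy => hU y x hy hx)
    (fun x y => hq y x)
  have axp : |xp| ≤ 1 / 2 := abs_le.2 ⟨by linarith [hxp.1], hxp.2⟩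
  have axm : |xm| ≤ 1 / 2 := abs_le.2 ⟨hxm.1, by linarith [hxm.2]⟩
  have ayp : |yp| ≤ 1 / 2 := abs_le.2 ⟨by linarith [hyp.1], hyp.2⟩
  have aym : |ym| ≤ 1 / 2 := abs_le.2 ⟨hym.1, by linarith [hym.2]⟩
  -- estimates of the derivatives of `psi`
  have bα : ∀ x, |x| ≤ 1 / 2 → |α x| ≤ 2 ∧ |α' x| ≤ 1 := fun x hx =>
    ⟨(hα.bd x (by linarith)).1, (hα.bd x (by linarith)).2.1⟩
  have bβ : ∀ x, |x| ≤ 1 / 2 → |β x| ≤ 2 ∧ |β' x| ≤ 1 := fun x hx =>
    ⟨(hβ.bd x (by linarith)).1, (hβ.bd x (by linarith)).2.1⟩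
  have prod : ∀ A B B' V V' : ℝ, |A| ≤ 2 → |B| ≤ 2 → |B'| ≤ 1 → |V'| ≤ m →
      |A * (B * V - B' * V')| ≤ 4 * |V| + 2 * m := by
    intro A B B' V V' hA hB hB' hV'
    have h1 : |B * V - B' * V'| ≤ 2 * |V| + m := by
      refine (abs_sub _ _).trans (add_le_add ?_ ?_)
      · rw [abs_mul]
        exact mul_le_mul_of_nonneg_right hB (abs_nonneg _)
      · rw [abs_mul]
        calc |B'| * |V'| ≤ 1 * m := mul_le_mul hB' hV' (abs_nonneg _) zero_le_one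
          _ = m := one_mul m
    rw [abs_mul]
    calc |A| * |B * V - B' * V'| ≤ 2 * (2 * |V| + m) :=
          mul_le_mul hA h1 (abs_nonneg _) (by norm_num)
      _ = _ := by ring
  have vert : ∀ x, |x| ≤ 1 / 2 → (∫ t in (-(1 / 2) : ℝ)..(1 / 2), Ux x t ^ 2 ≤ 548 * m ^ 2) →
      ∀ p q, |p| ≤ 1 / 2 → |q| ≤ 1 / 2 →
      |psi α α' β U Ux Uy x q - psi α α' β U Ux Uy x p| ≤ 1100 * m := by
    intro x hx hE p q hp hq
    have c1 : Continuous fun t => Ux x t := hs.cx.comp (Continuous.prodMk_right x)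
    have c2 : Continuous fun t => U x t := hs.c.comp (Continuous.prodMk_right x)
    have h1 := osc_line (D := fun y => psi α α' β U Ux Uy x y)
      (f := fun y => β y * (α x * Ux x y - α' x * U x y)) (u := fun y => Ux x y) (m := m)
      (E := 548) (psi_y hs hα hβ x)
      (hβ.c1.mul ((continuous_const.mul c1).sub (continuous_const.mul c2))) c1 hm
      (fun t ht => prod _ _ _ _ _ (bβ t ht).1 (bα x hx).1 (bα x hx).2
        (hU x t (by linarith) (by linarith))) hE hp hq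
    norm_num at h1
    exact h1
  have horz : ∀ y, |y| ≤ 1 / 2 → (∫ t in (-(1 / 2) : ℝ)..(1 / 2), Uy t y ^ 2 ≤ 548 * m ^ 2) →
      ∀ p q, |p| ≤ 1 / 2 → |q| ≤ 1 / 2 →
      |psi α α' β U Ux Uy q y - psi α α' β U Ux Uy p y| ≤ 1100 * m := by
    intro y hy hE p q hp hq
    have c1 : Continuous fun t => Uy t y := hs.cy.comp (Continuous.prodMk_left y)
    have c2 : Continuous fun t => U t y := hs.c.comp (Continuous.prodMk_left y)
    have h1 := osc_line (D := fun x => psi α α' β U Ux Uy x y)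
      (f := fun x => -(α x * (β y * Uy x y - β' y * U x y))) (u := fun x => Uy x y) (m := m)
      (E := 548) (fun x => psi_x hs hα hβ x y)
      (hα.c1.mul ((continuous_const.mul c1).sub (continuous_const.mul c2))).neg c1 hm
      (fun t ht => by
        rw [abs_neg]
        exact prod _ _ _ _ _ (bα t ht).1 (bβ y hy).1 (bβ y hy).2
          (hU t y (by linarith) (by linarith))) hE hp hq
    norm_num at h1
    exact h1
  refine ⟨-psi α α' β U Ux Uy xp yp, fun v hv => ?_⟩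
  have hBox : ∀ u ∈ Box xm xp ym yp, |u.re| ≤ 1 / 2 ∧ |u.im| ≤ 1 / 2 := by
    rintro u ⟨⟨k1, k2⟩, k3, k4⟩
    exact ⟨abs_le.2 ⟨by linarith [hxm.1], by linarith [hxp.2]⟩,
      abs_le.2 ⟨by linarith [hym.1], by linarith [hyp.2]⟩⟩
  refine (max_pr (hSm _) (x1 := xm) (x2 := xp) (y1 := ym) (y2 := yp) (M := 9000 * m) ?_ ?_
    ?_).trans (by linarith)
  · intro u hu
    obtain ⟨k1, k2⟩ := hBox u hu
    refine (Complex.norm_le_abs_re_add_abs_im u).trans ?_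
    linarith
  · intro u hu
    obtain ⟨k1, k2⟩ := hBox u hu.1
    have h1 : |psi α α' β U Ux Uy u.re u.im - psi α α' β U Ux Uy xp yp| ≤ 2200 * m := by
      rcases hu.2 with e | e | e | e
      · have e1 := vert xm axm Exm yp u.im ayp k2
        have e2 := horz yp ayp Eyp xp xm axp axm
        rw [e]
        rw [abs_le] at e1 e2 ⊢
        constructor <;> linarith [e1.1, e1.2, e2.1, e2.2]
      · have e1 := vert xp axp Exp yp u.im ayp k2
        rw [e]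
        linarith
      · have e1 := horz ym aym Eym xp u.re axp k1
        have e2 := vert xp axp Exp yp ym ayp aym
        rw [e]
        rw [abs_le] at e1 e2 ⊢
        constructor <;> linarith [e1.1, e1.2, e2.1, e2.2]
      · have e1 := horz yp ayp Eyp xp u.re axp k1
        rw [e]
        linarith
    have h2 : |chi α α' αh β βh U Ux Uy (-psi α α' β U Ux Uy xp yp) u.re u.im| ≤ 8800 * m := by
      unfold chi
      have h3 := hα.lo u.re
      have h4 := hβ.lo u.im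
      have h5 : 1 / 4 ≤ αh u.re * βh u.im := by nlinarith
      rw [abs_div, abs_of_pos (show 0 < αh u.re * βh u.im by linarith), div_le_iff₀ (by linarith),
        ← sub_eq_add_neg]
      nlinarith
    have h3 : |U u.re u.im| ≤ m := hU _ _ (by linarith) (by linarith)
    unfold wf
    refine (norm_add_le _ _).trans ?_
    rw [norm_mul, norm_I, one_mul, Complex.norm_real, Complex.norm_real, Real.norm_eq_abs,
      Real.norm_eq_abs]
    linarith
  · have h1 := abs_le.1 ((abs_re_le_norm v).trans hv)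
    have h2 := abs_le.1 ((abs_im_le_norm v).trans hv)
    exact ⟨⟨by linarith [hxm.2, h1.1], by linarith [hxp.1, h1.2]⟩,
      by linarith [hym.2, h2.1], by linarith [hyp.1, h2.2]⟩

end

/-- The local lemma. -/
theorem LL : ∃ ε : ℝ, 0 < ε ∧ ∀ (a b : ℝ → ℝ) (U Ux Uxx Uy Uyy : ℝ → ℝ → ℝ), Continuous a →
    Continuous b → (∀ x, |a x| ≤ ε) → (∀ x, |b x| ≤ ε) →
    Sol2 (fun x y => a x + b y) U Ux Uxx Uy Uyy →
    ∀ (a1 a2 b1 b2 : ℝ), a1 ∈ Icc (-4 : ℝ) (-3) → a2 ∈ Icc (3 : ℝ) 4 → b1 ∈ Icc (-4 : ℝ) (-3) →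
    b2 ∈ Icc (3 : ℝ) 4 → ∀ (Z1 Z2 Z3 Z4 : Finset ℝ) (n : ℕ),
    (∀ t ∈ Icc b1 b2, U a2 t = 0 → t ∈ Z1) → (∀ t ∈ Icc a1 a2, U t b2 = 0 → t ∈ Z2) →
    (∀ t ∈ Icc b1 b2, U a1 t = 0 → t ∈ Z3) → (∀ t ∈ Icc a1 a2, U t b1 = 0 → t ∈ Z4) →
    Z1.card + Z2.card + Z3.card + Z4.card ≤ n → ∀ m : ℝ, 0 < m →
    (∀ x y, |x| ≤ 1 → |y| ≤ 1 → |U x y| ≤ m) →
    ∀ x y, |x| ≤ 2 → |y| ≤ 2 → |U x y| ≤ m * Real.exp (20000 * (n + 1)) := by
  obtain ⟨ε, hε, hε4, H⟩ := wf_sm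
  refine ⟨ε, hε, ?_⟩
  intro a b U Ux Uxx Uy Uyy ha hb hae hbe hs a1 a2 b1 b2 ha1 ha2 hb1 hb2 Z1 Z2 Z3 Z4 n z1 z2 z3 z4
    hn m hm hU x y hx hy
  obtain ⟨τ, α, α', αh, αh', β, β', βh, βh', hα, hβ, hSm⟩ := H a b ha hb hae hbe
  have hSm' := hSm U Ux Uxx Uy Uyy hs
  obtain ⟨c0, hc0⟩ := base hs hα hβ hm hU (fun x => (hae x).trans hε4)
    (fun x => (hbe x).trans hε4) hSm'
  -- the exceptional constants
  set E : Finset ℝ := ((Z1.image fun t => -psi α α' β U Ux Uy a2 t - c0) ∪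
    (Z2.image fun t => -psi α α' β U Ux Uy t b2 - c0)) ∪
    ((Z3.image fun t => -psi α α' β U Ux Uy a1 t - c0) ∪
    (Z4.image fun t => -psi α α' β U Ux Uy t b1 - c0)) with hE
  obtain ⟨σ, hσ, hσE⟩ := (Set.Ioo_infinite hm).exists_notMem_finset E
  have hre : ∀ z, (wf α α' αh β βh U Ux Uy (c0 + σ) z).re = U z.re z.im := by
    intro z
    unfold wf
    simp
  have him : ∀ z, (wf α α' αh β βh U Ux Uy (c0 + σ) z).im =
      chi α α' αh β βh U Ux Uy (c0 + σ) z.re z.im := by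
    intro z
    unfold wf
    simp
  have hne : ∀ v ∈ Bd a1 a2 b1 b2, wf α α' αh β βh U Ux Uy (c0 + σ) v ≠ 0 := by
    intro v hv h0
    have h1 := hre v
    have h2 := him v
    rw [h0] at h1 h2
    simp only [Complex.zero_re, Complex.zero_im] at h1 h2
    have h3 : psi α α' β U Ux Uy v.re v.im + (c0 + σ) = 0 := by
      unfold chi at h2
      have h4 := hα.pos v.re
      have h5 := hβ.pos v.im
      have h6 := (div_eq_zero_iff.1 h2.symm)
      rcases h6 with h6 | h6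
      · exact h6
      · exact absurd h6 (mul_pos h4 h5).ne'
    have h4 : σ = -psi α α' β U Ux Uy v.re v.im - c0 := by linarith
    apply hσE
    obtain ⟨⟨⟨k1, k2⟩, k3, k4⟩, hv'⟩ := hv
    rw [hE, Finset.mem_union, Finset.mem_union, Finset.mem_union]
    rcases hv' with e | e | e | e
    · right; left
      rw [e] at h1 h4
      exact Finset.mem_image.2 ⟨v.im, z3 v.im ⟨k3, k4⟩ h1.symm, h4.symm⟩
    · left; left
      rw [e] at h1 h4
      exact Finset.mem_image.2 ⟨v.im, z1 v.im ⟨k3, k4⟩ h1.symm, h4.symm⟩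
    · right; right
      rw [e] at h1 h4
      exact Finset.mem_image.2 ⟨v.re, z4 v.re ⟨k1, k2⟩ h1.symm, h4.symm⟩
    · left; right
      rw [e] at h1 h4
      exact Finset.mem_image.2 ⟨v.re, z2 v.re ⟨k1, k2⟩ h1.symm, h4.symm⟩
  have hsmall : ∀ v : ℂ, ‖v‖ ≤ 1 / 4 → ‖wf α α' αh β βh U Ux Uy (c0 + σ) v‖ ≤ 28000 * m := by
    intro v hv
    have h1 := hc0 v hv
    have h2 : wf α α' αh β βh U Ux Uy (c0 + σ) v = wf α α' αh β βh U Ux Uy c0 v +
        I * ((σ / (αh v.re * βh v.im) : ℝ) : ℂ) := by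
      unfold wf chi
      push_cast
      ring
    have h3 := hα.lo v.re
    have h4 := hβ.lo v.im
    have h5 : 1 / 4 ≤ αh v.re * βh v.im := by nlinarith
    have h6 : ‖I * ((σ / (αh v.re * βh v.im) : ℝ) : ℂ)‖ ≤ 4 * m := by
      rw [norm_mul, norm_I, one_mul, Complex.norm_real, Real.norm_eq_abs, abs_div,
        abs_of_pos (show 0 < αh v.re * βh v.im by linarith), abs_of_pos hσ.1,
        div_le_iff₀ (by linarith)]
      nlinarith [hσ.2]
    rw [h2]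
    refine (norm_add_le _ _).trans ?_
    linarith
  have hv : ‖(⟨x, y⟩ : ℂ)‖ ≤ 29 / 10 := by
    have h1 : ‖(⟨x, y⟩ : ℂ)‖ ^ 2 = x ^ 2 + y ^ 2 := by
      rw [← Complex.normSq_eq_norm_sq, Complex.normSq_apply]
      ring
    have h2 : x ^ 2 ≤ 4 := by
      rw [← sq_abs]
      nlinarith [abs_nonneg x]
    have h3 : y ^ 2 ≤ 4 := by
      rw [← sq_abs]
      nlinarith [abs_nonneg y]
    nlinarith [norm_nonneg (⟨x, y⟩ : ℂ)]
  have h1 := growthW (wf_main hs hα hβ (c0 + σ)).1.continuous (hSm' (c0 + σ)) ha1 ha2 hb1 hb2 hne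
    (Z1 := Z1) (Z2 := Z2) (Z3 := Z3) (Z4 := Z4) (n := n)
    (fun t ht h0 => z1 t ht (by rw [hre] at h0; simpa using h0))
    (fun t ht h0 => z2 t ht (by rw [hre] at h0; simpa using h0))
    (fun t ht h0 => z3 t ht (by rw [hre] at h0; simpa using h0))
    (fun t ht h0 => z4 t ht (by rw [hre] at h0; simpa using h0)) hn hsmall ⟨x, y⟩ hv
  have h2 : |U x y| ≤ ‖wf α α' αh β βh U Ux Uy (c0 + σ) ⟨x, y⟩‖ := by
    have := abs_re_le_norm (wf α α' αh β βh U Ux Uy (c0 + σ) ⟨x, y⟩)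
    rw [hre] at this
    exact this
  refine h2.trans (h1.trans ?_)
  have h3 : (3 * 28000 : ℝ) ≤ Real.exp 12 := by
    have h4 : (2.7 : ℝ) ≤ Real.exp 1 := by
      have := Real.exp_one_gt_d9
      linarith
    have h5 : Real.exp 12 = Real.exp 1 ^ 12 := by
      rw [← Real.exp_nat_mul]; norm_num
    rw [h5]
    calc (3 * 28000 : ℝ) ≤ 2.7 ^ 12 := by norm_num
      _ ≤ Real.exp 1 ^ 12 := by gcongr
  have h4 : 3 * (28000 * m) * Real.exp (4500 * (n + 4)) ≤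
      m * (Real.exp 12 * Real.exp (4500 * (n + 4))) := by
    have h5 := Real.exp_pos (4500 * ((n : ℝ) + 4))
    have h6 := mul_le_mul_of_nonneg_right h3 (mul_pos hm h5).le
    nlinarith
  refine h4.trans (mul_le_mul_of_nonneg_left ?_ hm.le)
  rw [← Real.exp_add]
  refine Real.exp_le_exp.2 ?_
  have : (0 : ℝ) ≤ n := Nat.cast_nonneg n
  linarith

end Pool.Agent.NH44.LT
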