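import Pool.Agent.NH44.LT.Asm

/-!
# The average of the doubling indices: conclusion
-/

set_option autoImplicit false

open MeasureTheory Real Filter Topology Set Function
open Pool.Agent.Y291.DB Pool.Agent.Y291.PA Pool.Agent.R220.LV

namespace Pool.Agent.NH44.LT

theorem N_le {P β lam : ℝ} (hP : 0 < P) (hβ : 0 < β) (hlam : 0 < lam) :
    (⌈P / (β * dl lam)⌉₊ : ℝ) ≤ (2 * P / β + 1) * Real.sqrt (1 + lam) := by
  have hδ0 : 0 < β * dl lam := mul_pos hβ (dl_pos hlam)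
  obtain ⟨-, -, h1⟩ := grid_n hP hδ0
  have h2 : 1 ≤ Real.sqrt (1 + lam) := Real.one_le_sqrt.2 (by linarith)
  have h3 : P / (β * dl lam) = 2 * P / β * Real.sqrt (1 + lam) := by
    unfold dl
    field_simp
  have h4 : (2 * P / β + 1) * Real.sqrt (1 + lam) =
    2 * P / β * Real.sqrt (1 + lam) + Real.sqrt (1 + lam) := by ring
  rw [h4]
  linarith

section sums

variable {ρ : ℝ × ℝ → ℝ} {L ρm ρM : ℝ} (hL : 0 < L) (hρc : Continuous ρ)
  (hρx : ∀ p : ℝ × ℝ, ρ (p.1 + L, p.2 + 0) = ρ p) (hρy : ∀ p : ℝ × ℝ, ρ (p.1, p.2 + 2 * π) = ρ p)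
  (hρ0 : 0 < ρm) (hρm : ∀ p, ρm ≤ ρ p) (hρM : ∀ p, ρ p ≤ ρM) {C : ℝ} (hC : 0 < C)
  {β : ℝ} (hβ : 0 < β) (hβ1 : β ≤ 1) (hβC : 8 * β * Real.sqrt ρM ≤ C)

include hL hρc hρx hρy hρ0 hρm hρM hC hβ hβ1 hβC

theorem sum_cA {lam C₁ C₂ s0 ξ : ℝ} {φ : ℝ × ℝ → ℝ} (hlam : 0 < lam) (hs0 : 0 ≤ s0)
    {ι : Type} [Fintype ι] {c : ι → ℝ × ℝ} (hc : Admissible ρ L 0 lam φ C C₁ C₂ c) (hC1 : 0 < C₁)
    (D : ℕ) {V : ℕ → Finset ℝ} (hV : ∀ k, ((V k).card : ℝ) ≤ 2 * π * (Real.sqrt lam * s0)) :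
    ∑ i, (cA L (D * (β * dl lam)) ξ ⌈L / (β * dl lam)⌉₊ V (c i) : ℝ) ≤
      (2 * L / β + 1) * (2 * π * s0) * ((2 * D + 1) ^ 2 * C₁) * (1 + lam) := by
  classical
  have hM00 : 0 ≤ (2 * (D : ℝ) + 1) ^ 2 * C₁ := by positivity
  have h1 := double_count (ι := ι) (K := Finset.range ⌈L / (β * dl lam)⌉₊) (V := V)
    (R := fun k z i => Nr L (2 * π) (D * (β * dl lam))
      (ξ + k * (L / (⌈L / (β * dl lam)⌉₊ : ℕ))) z (c i).1 (c i).2)
    (M0 := (2 * (D : ℝ) + 1) ^ 2 * C₁)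
    (M1 := 2 * π * (Real.sqrt lam * s0)) hM00
    (fun k _ z _ => mult_count hL hρc hρx hρy hρ0 hρm hρM hC hβ hβ1 hβC le_rfl hlam hc D _ _)
    (fun k _ => hV k)
  have h0 : ∑ i, (cA L (D * (β * dl lam)) ξ ⌈L / (β * dl lam)⌉₊ V (c i) : ℝ) =
    ∑ i, ((∑ k ∈ Finset.range ⌈L / (β * dl lam)⌉₊, ((V k).filter fun z =>
      Nr L (2 * π) (D * (β * dl lam)) (ξ + k * (L / (⌈L / (β * dl lam)⌉₊ : ℕ))) z (c i).1
        (c i).2).card : ℕ) : ℝ) := by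
    refine Finset.sum_congr rfl fun i _ => ?_
    unfold cA
    congr!
  rw [h0]
  refine h1.trans ?_
  rw [Finset.card_range]
  have h2 : Real.sqrt lam ≤ Real.sqrt (1 + lam) := Real.sqrt_le_sqrt (by linarith)
  have h3 : Real.sqrt (1 + lam) * Real.sqrt (1 + lam) = 1 + lam :=
    Real.mul_self_sqrt (by linarith)
  have hN := N_le hL hβ hlam
  have hπ := Real.pi_pos
  calc (⌈L / (β * dl lam)⌉₊ : ℝ) * (2 * π * (Real.sqrt lam * s0)) * ((2 * (D : ℝ) + 1) ^ 2 * C₁)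
      ≤ ((2 * L / β + 1) * Real.sqrt (1 + lam)) * (2 * π * (Real.sqrt (1 + lam) * s0)) *
        ((2 * (D : ℝ) + 1) ^ 2 * C₁) := by gcongr
    _ = (2 * L / β + 1) * (2 * π * s0) * ((2 * D + 1) ^ 2 * C₁) *
        (Real.sqrt (1 + lam) * Real.sqrt (1 + lam)) := by ring
    _ = _ := by rw [h3]

theorem sum_cB {lam C₁ C₂ s0 η : ℝ} {φ : ℝ × ℝ → ℝ} (hlam : 0 < lam) (hs0 : 0 ≤ s0)
    {ι : Type} [Fintype ι] {c : ι → ℝ × ℝ} (hc : Admissible ρ L 0 lam φ C C₁ C₂ c) (hC1 : 0 < C₁)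
    (D : ℕ) {H : ℕ → Finset ℝ} (hH : ∀ k, ((H k).card : ℝ) ≤ L * (Real.sqrt lam * s0)) :
    ∑ i, (cB L (D * (β * dl lam)) η ⌈2 * π / (β * dl lam)⌉₊ H (c i) : ℝ) ≤
      (2 * (2 * π) / β + 1) * (L * s0) * ((2 * D + 1) ^ 2 * C₁) * (1 + lam) := by
  classical
  have hM00 : 0 ≤ (2 * (D : ℝ) + 1) ^ 2 * C₁ := by positivity
  have h1 := double_count (ι := ι) (K := Finset.range ⌈2 * π / (β * dl lam)⌉₊) (V := H)
    (R := fun k z i => Nr (2 * π) L (D * (β * dl lam))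
      (η + k * (2 * π / (⌈2 * π / (β * dl lam)⌉₊ : ℕ))) z (c i).2 (c i).1)
    (M0 := (2 * (D : ℝ) + 1) ^ 2 * C₁)
    (M1 := L * (Real.sqrt lam * s0)) hM00
    (fun k _ z _ => by
      have h2 := mult_count hL hρc hρx hρy hρ0 hρm hρM hC hβ hβ1 hβC le_rfl hlam hc D z
        (η + k * (2 * π / (⌈2 * π / (β * dl lam)⌉₊ : ℕ)))
      refine le_trans ?_ h2
      refine Nat.cast_le.2 (Finset.card_le_card fun i hi => ?_)
      obtain ⟨m, n, k1, k2⟩ := (Finset.mem_filter.1 hi).2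
      exact Finset.mem_filter.2 ⟨Finset.mem_univ _, n, m, k2, k1⟩)
    (fun k _ => hH k)
  have h0 : ∑ i, (cB L (D * (β * dl lam)) η ⌈2 * π / (β * dl lam)⌉₊ H (c i) : ℝ) =
    ∑ i, ((∑ k ∈ Finset.range ⌈2 * π / (β * dl lam)⌉₊, ((H k).filter fun z =>
      Nr (2 * π) L (D * (β * dl lam)) (η + k * (2 * π / (⌈2 * π / (β * dl lam)⌉₊ : ℕ))) z (c i).2
        (c i).1).card : ℕ) : ℝ) := by
    refine Finset.sum_congr rfl fun i _ => ?_
    unfold cB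
    congr!
  rw [h0]
  refine h1.trans ?_
  rw [Finset.card_range]
  have h2 : Real.sqrt lam ≤ Real.sqrt (1 + lam) := Real.sqrt_le_sqrt (by linarith)
  have h3 : Real.sqrt (1 + lam) * Real.sqrt (1 + lam) = 1 + lam :=
    Real.mul_self_sqrt (by linarith)
  have hN := N_le Real.two_pi_pos hβ hlam
  have hπ := Real.pi_pos
  calc (⌈2 * π / (β * dl lam)⌉₊ : ℝ) * (L * (Real.sqrt lam * s0)) * ((2 * (D : ℝ) + 1) ^ 2 * C₁)
      ≤ ((2 * (2 * π) / β + 1) * Real.sqrt (1 + lam)) * (L * (Real.sqrt (1 + lam) * s0)) *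
        ((2 * (D : ℝ) + 1) ^ 2 * C₁) := by gcongr
    _ = (2 * (2 * π) / β + 1) * (L * s0) * ((2 * D + 1) ^ 2 * C₁) *
        (Real.sqrt (1 + lam) * Real.sqrt (1 + lam)) := by ring
    _ = _ := by rw [h3]

/-- The doubling index of a disc from the growth on squares. -/
theorem disc_bound {lam E : ℝ} {φ : ℝ × ℝ → ℝ} (hlam : 0 < lam) (hφc : Continuous φ)
    (hpx : ∀ p : ℝ × ℝ, φ (p.1 + L, p.2 + 0) = φ p) (hpy : ∀ p : ℝ × ℝ, φ (p.1, p.2 + 2 * π) = φ p)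
    (p : ℝ × ℝ) (hE : 0 ≤ E) {N : ℕ}
    (hN : 6 * C / Real.sqrt ρm + 3 * L + 6 * π ≤ N * β)
    (hstep : ∀ q' : ℝ × ℝ, |q'.1 - p.1| ≤ N * (β * dl lam) → |q'.2 - p.2| ≤ N * (β * dl lam) →
      ∀ m : ℝ, 0 < m → (∀ q : ℝ × ℝ, |q.1 - q'.1| ≤ β * dl lam → |q.2 - q'.2| ≤ β * dl lam →
        |φ q| ≤ m) →
      ∀ q : ℝ × ℝ, |q.1 - q'.1| ≤ 2 * (β * dl lam) → |q.2 - q'.2| ≤ 2 * (β * dl lam) →
        |φ q| ≤ m * Real.exp E) :
    doubling ρ L 0 φ p (C / Real.sqrt lam) ≤ N * E / Real.log 2 := by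
  have hdl := dl_pos hlam
  have hδ0 : 0 < β * dl lam := mul_pos hβ hdl
  have h1 : doubling ρ L 0 φ p (C / Real.sqrt lam) ≤ Real.logb 2 (Real.exp (N * E)) := by
    refine dbl2 hL hρc hρx hρy hρ0 hρm hρM hC hβ hβ1 hβC le_rfl hlam hφc hpx hpy p
      (Real.one_le_exp (by positivity)) fun m hm hsmall q h1 h2 => ?_
    have h4 : (6 * C / Real.sqrt ρm + 3 * L + 6 * π) * dl lam ≤ ((N : ℝ) + 1) * (β * dl lam) := by
      have h5 := mul_le_mul_of_nonneg_right hN hdl.le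
      have h6 : ((N : ℝ) + 1) * (β * dl lam) = N * β * dl lam + β * dl lam := by ring
      linarith
    have h3 := chain_growth (p := p) (N := N) hδ0 hm hstep hsmall N le_rfl q (h1.trans h4)
      (h2.trans h4)
    rwa [mul_comm]
  refine h1.trans (le_of_eq ?_)
  rw [← Real.log_div_log, Real.log_exp]

end sums

variable {f g : ℝ → ℝ} {L : ℝ}

/-- The result. -/
theorem main (hf : Continuous f) (hg : Continuous g) (hL : 0 < L)
    (hfL : ∀ x, f (x + L) = f x) (hgp : ∀ y, g (y + 2 * π) = g y)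
    (hpos : ∀ x y, 0 < f x + g y) {C C₁ C₂ : ℝ} (hC : 0 < C) (hC1 : 0 < C₁) (hC2 : 0 < C₂) :
    ∃ a : ℝ, 0 < a ∧ ∀ (lam : ℝ) (φ : ℝ × ℝ → ℝ), Eigen (fun p => f p.1 + g p.2) L 0 lam φ →
      ∀ (ι : Type) [Fintype ι] (c : ι → ℝ × ℝ),
        Admissible (fun p => f p.1 + g p.2) L 0 lam φ C C₁ C₂ c →
        ∑ i, doubling (fun p => f p.1 + g p.2) L 0 φ (c i) (C / Real.sqrt lam) ≤
          a * Fintype.card ι := by
  have hπ := Real.pi_pos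
  have hπ3 := Real.pi_gt_three
  have hρc : Continuous fun p : ℝ × ℝ => f p.1 + g p.2 :=
    (hf.comp continuous_fst).add (hg.comp continuous_snd)
  have hρx : ∀ p : ℝ × ℝ, (fun p : ℝ × ℝ => f p.1 + g p.2) (p.1 + L, p.2 + 0) =
      (fun p : ℝ × ℝ => f p.1 + g p.2) p := fun p => by simp [hfL]
  have hρy : ∀ p : ℝ × ℝ, (fun p : ℝ × ℝ => f p.1 + g p.2) (p.1, p.2 + 2 * π) =
      (fun p : ℝ × ℝ => f p.1 + g p.2) p := fun p => by simp [hgp]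
  obtain ⟨ρm, hρm0, hρm⟩ := bounded_below_of_per hL hρc (fun p => hpos p.1 p.2) hρx hρy
  obtain ⟨ρM, hρM0', hρM'⟩ := bounded_of_per hL hρc hρx hρy
  have hρM : ∀ p : ℝ × ℝ, f p.1 + g p.2 ≤ ρM := fun p => (le_abs_self _).trans (hρM' p)
  obtain ⟨F, hF0, hF⟩ := per_bound hf hL hfL
  obtain ⟨G, hG0, hG⟩ := per_bound hg (by positivity : (0 : ℝ) < 2 * π) hgp
  have hsM : 0 ≤ Real.sqrt ρM := Real.sqrt_nonneg _
  have hsm : 0 < Real.sqrt ρm := Real.sqrt_pos.2 hρm0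
  obtain ⟨β0, hβ00, hβ01, hLL⟩ := LLs (L := L) hf hg hF hG
  -- the parameters
  obtain ⟨β, hβ, hββ0, hβC, hβL⟩ : ∃ β : ℝ, 0 < β ∧ β ≤ β0 ∧ 8 * β * Real.sqrt ρM ≤ C ∧
      8 * β ≤ L := by
    refine ⟨min β0 (min (C / (8 * (Real.sqrt ρM + 1))) (L / 8)), by positivity, min_le_left _ _,
      ?_, ?_⟩
    · have h1 : min β0 (min (C / (8 * (Real.sqrt ρM + 1))) (L / 8)) ≤
          C / (8 * (Real.sqrt ρM + 1)) := (min_le_right _ _).trans (min_le_left _ _)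
      calc 8 * min β0 (min (C / (8 * (Real.sqrt ρM + 1))) (L / 8)) * Real.sqrt ρM
          ≤ 8 * (C / (8 * (Real.sqrt ρM + 1))) * Real.sqrt ρM := by gcongr
        _ = C * (Real.sqrt ρM / (Real.sqrt ρM + 1)) := by field_simp
        _ ≤ C * 1 := by
          refine mul_le_mul_of_nonneg_left ?_ hC.le
          rw [div_le_one (by positivity)]
          linarith
        _ = C := mul_one C
    · have h1 : min β0 (min (C / (8 * (Real.sqrt ρM + 1))) (L / 8)) ≤ L / 8 :=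
        (min_le_right _ _).trans (min_le_right _ _)
      linarith
  have hβ1 : β ≤ 1 := hββ0.trans hβ01
  obtain ⟨N, hN⟩ := exists_nat_ge ((6 * C / Real.sqrt ρm + 3 * L + 6 * π) / β)
  rw [div_le_iff₀ hβ] at hN
  set s0 := Real.sqrt (2 * (F + G)) with hs0
  have hs00 : 0 ≤ s0 := Real.sqrt_nonneg _
  have hlog2 : 0 < Real.log 2 := Real.log_pos one_lt_two
  set M0 : ℝ := (2 * (N + 4 : ℕ) + 1) ^ 2 * C₁ with hM0
  have hM00 : 0 < M0 := by positivity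
  set K1 : ℝ := (2 * L / β + 1) * (2 * π * s0) * M0 with hK1
  set K2 : ℝ := (2 * (2 * π) / β + 1) * (L * s0) * M0 with hK2
  have hK10 : 0 ≤ K1 := by positivity
  have hK20 : 0 ≤ K2 := by positivity
  refine ⟨N * 20000 / Real.log 2 * ((2 * K1 + 2 * K2) * (1 + C₂) + 1) + 1, by positivity, ?_⟩
  intro lam φ hφ ι _ c hc
  have hlam := hφ.pos
  have hW := mem_of_eigen hf hg hφ
  obtain ⟨hz1, hz2⟩ := zeros_lines hf hg hL hlam hfL hgp hF hG hW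
  have hsl : Real.sqrt (lam * (2 * (F + G))) = Real.sqrt lam * s0 := by
    rw [hs0, Real.sqrt_mul hlam.le]
  rw [hsl] at hz1 hz2
  have hdl := dl_pos hlam
  have hδ0 : 0 < β * dl lam := mul_pos hβ hdl
  have hδ8 : 8 * (β * dl lam) ≤ 4 * β := by
    have h1 := dl_le hlam
    nlinarith
  have perx : ∀ x y, φ (x + L, y) = φ (x, y) := fun x y => by
    have := hφ.perx (x, y)
    simpa using this
  have pery : ∀ x y, φ (x, y + 2 * π) = φ (x, y) := fun x y => hφ.pery (x, y)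
  obtain ⟨ξ, η, V, H, hGD⟩ := exists_grid hL hδ0 perx pery hφ.ne hz1 hz2
  have hsumA := sum_cA (ξ := ξ) hL hρc hρx hρy hρm0 hρm hρM hC hβ hβ1 hβC hlam hs00 hc hC1
    (N + 4) hGD.vc
  have hsumB := sum_cB (η := η) hL hρc hρx hρy hρm0 hρm hρM hC hβ hβ1 hβC hlam hs00 hc hC1
    (N + 4) hGD.hc
  -- the doubling index of a disc
  have hdisc : ∀ i, doubling (fun p => f p.1 + g p.2) L 0 φ (c i) (C / Real.sqrt lam) ≤
      N * 20000 / Real.log 2 * (2 * (cA L ((N + 4 : ℕ) * (β * dl lam)) ξ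
        ⌈L / (β * dl lam)⌉₊ V (c i) : ℝ) + 2 * (cB L ((N + 4 : ℕ) * (β * dl lam)) η
        ⌈2 * π / (β * dl lam)⌉₊ H (c i) : ℝ) + 1) := by
    intro i
    have h1 := disc_bound hL hρc hρx hρy hρm0 hρm hρM hC hβ hβ1 hβC hlam
      hφ.smooth.continuous hφ.perx hφ.pery (c i)
      (E := 20000 * (((2 * cA L ((N + 4 : ℕ) * (β * dl lam)) ξ ⌈L / (β * dl lam)⌉₊ V (c i) +
        2 * cB L ((N + 4 : ℕ) * (β * dl lam)) η ⌈2 * π / (β * dl lam)⌉₊ H (c i) : ℕ) : ℝ) + 1))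
      (by positivity) hN (fun q' hq1 hq2 m hm hsmall => by
        obtain ⟨x1, x2, y1, y2, Z1, Z2, Z3, Z4, a1, a2, a3, a4, z1, z2, z3, z4, hcard⟩ :=
          rect_grid hGD hL hδ0 perx pery (by linarith) (by linarith) (c i) q' hq1 hq2
        exact hLL β lam hβ hββ0 hlam φ hW q' x1 x2 y1 y2 a1 a2 a3 a4 Z1 Z2 Z3 Z4 _ z1 z2 z3 z4
          hcard m hm hsmall)
    refine h1.trans (le_of_eq ?_)
    push_cast
    ring
  -- conclusion
  have hcard1 : (1 : ℝ) ≤ Fintype.card ι := by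
    have h1 : (0 : ℝ) < Fintype.card ι := lt_of_lt_of_le (by positivity) hc.lower
    have h2 : 0 < Fintype.card ι := by exact_mod_cast h1
    exact_mod_cast h2
  have hcard2 : lam ≤ C₂ * Fintype.card ι := by
    have := hc.lower
    rw [inv_mul_le_iff₀ hC2] at this
    exact this
  have hcard3 : 1 + lam ≤ (1 + C₂) * Fintype.card ι := by nlinarith
  have hN0 : 0 ≤ (N : ℝ) * 20000 / Real.log 2 := by positivity
  rw [← hM0, ← hK1] at hsumA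
  rw [← hM0, ← hK2] at hsumB
  calc ∑ i, doubling (fun p => f p.1 + g p.2) L 0 φ (c i) (C / Real.sqrt lam)
      ≤ ∑ i, (N * 20000 / Real.log 2) * (2 * (cA L ((N + 4 : ℕ) * (β * dl lam)) ξ
        ⌈L / (β * dl lam)⌉₊ V (c i) : ℝ) + 2 * (cB L ((N + 4 : ℕ) * (β * dl lam)) η
        ⌈2 * π / (β * dl lam)⌉₊ H (c i) : ℝ) + 1) :=
        Finset.sum_le_sum fun i _ => hdisc i
    _ = (N * 20000 / Real.log 2) * (2 * ∑ i, (cA L ((N + 4 : ℕ) * (β * dl lam)) ξ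
        ⌈L / (β * dl lam)⌉₊ V (c i) : ℝ) + 2 * ∑ i, (cB L ((N + 4 : ℕ) * (β * dl lam)) η
        ⌈2 * π / (β * dl lam)⌉₊ H (c i) : ℝ) + Fintype.card ι) := by
        rw [← Finset.mul_sum, Finset.sum_add_distrib, Finset.sum_add_distrib, ← Finset.mul_sum,
          ← Finset.mul_sum, Finset.sum_const, Finset.card_univ, nsmul_eq_mul, mul_one]
    _ ≤ (N * 20000 / Real.log 2) * (2 * (K1 * (1 + lam)) + 2 * (K2 * (1 + lam)) +
        Fintype.card ι) := by gcongr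
    _ ≤ (N * 20000 / Real.log 2) * (2 * (K1 * ((1 + C₂) * Fintype.card ι)) +
        2 * (K2 * ((1 + C₂) * Fintype.card ι)) + Fintype.card ι) := by gcongr
    _ = (N * 20000 / Real.log 2 * ((2 * K1 + 2 * K2) * (1 + C₂) + 1)) * Fintype.card ι := by ring
    _ ≤ (N * 20000 / Real.log 2 * ((2 * K1 + 2 * K2) * (1 + C₂) + 1) + 1) * Fintype.card ι := by
        refine mul_le_mul_of_nonneg_right ?_ (by linarith)
        linarith

end Pool.Agent.NH44.LT
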