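import Pool.Agent.NH44.LT.Pos
import Pool.Agent.H761R2.SV.Pomp
import Pool.Agent.R220.LV.Psi

/-!
# The conjugate function and the equation of `w`
-/

set_option autoImplicit false

open MeasureTheory Complex Filter Topology Metric Set Function
open scoped ComplexConjugate
open Pool.Agent.Y291.PA (Sol2)
open Pool.Agent.R220.LV (par_deriv par_cont contDiff_one_of)
open Pool.Agent.H761R2.SV (dbar)

namespace Pool.Agent.NH44.LT

theorem ftc {f : ℝ → ℝ} (hf : Continuous f) (a x : ℝ) :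
    HasDerivAt (fun y => ∫ t in a..y, f t) (f x) x :=
  intervalIntegral.integral_hasDerivAt_right (hf.intervalIntegrable _ _)
    (hf.stronglyMeasurableAtFilter _ _) hf.continuousAt

/-- the conjugate function -/
noncomputable def psi (α α' β : ℝ → ℝ) (U Ux Uy : ℝ → ℝ → ℝ) (x y : ℝ) : ℝ :=
  (∫ t in (0 : ℝ)..y, β t * (α x * Ux x t - α' x * U x t)) - ∫ s in (0 : ℝ)..x, α s * Uy s 0

section

variable {τ : ℝ} {a b α α' αh αh' β β' βh βh' : ℝ → ℝ} {U Ux Uxx Uy Uyy : ℝ → ℝ → ℝ}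

theorem PF.c1 (h : PF τ a α α' αh αh') : Continuous α :=
  continuous_iff_continuousAt.2 fun t => (h.d t).continuousAt

theorem PF.c2 (h : PF τ a α α' αh αh') : Continuous α' :=
  continuous_iff_continuousAt.2 fun t => (h.d' t).continuousAt

theorem PF.c3 (h : PF τ a α α' αh αh') : Continuous αh :=
  continuous_iff_continuousAt.2 fun t => (h.h t).continuousAt

theorem PF.pos (h : PF τ a α α' αh αh') (x : ℝ) : 0 < αh x := by
  have := h.lo x
  linarith

variable (hs : Sol2 (fun x y => a x + b y) U Ux Uxx Uy Uyy) (hα : PF τ a α α' αh αh')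
  (hβ : PF τ b β β' βh βh')

include hs hα hβ

theorem psi_y (x y : ℝ) : HasDerivAt (fun y => psi α α' β U Ux Uy x y)
    (β y * (α x * Ux x y - α' x * U x y)) y := by
  have c1 : Continuous fun t => Ux x t := hs.cx.comp (Continuous.prodMk_right x)
  have c2 : Continuous fun t => U x t := hs.c.comp (Continuous.prodMk_right x)
  have h1 : Continuous fun t => β t * (α x * Ux x t - α' x * U x t) :=
    hβ.c1.mul ((continuous_const.mul c1).sub (continuous_const.mul c2))
  exact (ftc h1 0 y).sub_const _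

theorem psi_x (x y : ℝ) : HasDerivAt (fun x => psi α α' β U Ux Uy x y)
    (-(α x * (β y * Uy x y - β' y * U x y))) x := by
  have c0 : Continuous fun p : ℝ × ℝ => U p.1 p.2 := hs.c
  have cx : Continuous fun p : ℝ × ℝ => Ux p.1 p.2 := hs.cx
  have cy : Continuous fun p : ℝ × ℝ => Uy p.1 p.2 := hs.cy
  have cyy : Continuous fun p : ℝ × ℝ => Uyy p.1 p.2 := hs.cyy
  have ca := hα.c1
  have ca' := hα.c2
  have cb := hβ.c1
  have cb' := hβ.c2
  have cbb := hβ.ac
  have k1 : Continuous (uncurry fun x t => β t * (α x * Ux x t - α' x * U x t)) := by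
    have : Continuous fun p : ℝ × ℝ => β p.2 * (α p.1 * Ux p.1 p.2 - α' p.1 * U p.1 p.2) := by
      fun_prop
    exact this
  have k2 : Continuous (uncurry fun x t => -(α x) * (β t * Uyy x t + b t * β t * U x t)) := by
    have : Continuous fun p : ℝ × ℝ => -(α p.1) * (β p.2 * Uyy p.1 p.2 +
        b p.2 * β p.2 * U p.1 p.2) := by
      fun_prop
    exact this
  have h1 : HasDerivAt (fun x => ∫ t in (0 : ℝ)..y, β t * (α x * Ux x t - α' x * U x t))
      (∫ t in (0 : ℝ)..y, -(α x) * (β t * Uyy x t + b t * β t * U x t)) x := by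
    refine par_deriv k1 k2 (fun x t => ?_) 0 y x
    have h2 := (((hα.d x).mul (hs.dxx x t)).sub ((hα.d' x).mul (hs.dx x t))).const_mul (β t)
    refine h2.congr_deriv ?_
    have h3 : Uxx x t + Uyy x t = -((a x + b t) * U x t) := hs.pde x t
    linear_combination (β t * α x) * h3
  have h2 : ∫ t in (0 : ℝ)..y, (β t * Uyy x t + b t * β t * U x t) =
      (β y * Uy x y - β' y * U x y) - (β 0 * Uy x 0 - β' 0 * U x 0) := by
    refine intervalIntegral.integral_eq_sub_of_hasDerivAt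
      (f := fun t => β t * Uy x t - β' t * U x t) (fun t _ => ?_) ?_
    · have h3 := ((hβ.d t).mul (hs.dyy x t)).sub ((hβ.d' t).mul (hs.dy x t))
      refine h3.congr_deriv ?_
      ring
    · have : Continuous fun t => β t * Uyy x t + b t * β t * U x t := by
        have e1 : Continuous fun t => Uyy x t := hs.cyy.comp (Continuous.prodMk_right x)
        have e2 : Continuous fun t => U x t := hs.c.comp (Continuous.prodMk_right x)
        fun_prop
      exact this.intervalIntegrable _ _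
  have h3 : HasDerivAt (fun x => ∫ s in (0 : ℝ)..x, α s * Uy s 0) (α x * Uy x 0) x := by
    have e1 : Continuous fun t => Uy t 0 := hs.cy.comp (Continuous.prodMk_left 0)
    exact ftc (ca.mul e1) 0 x
  refine (h1.sub h3).congr_deriv ?_
  rw [intervalIntegral.integral_const_mul, h2, hβ.z, hβ.z']
  ring

theorem psi_cx : Continuous (uncurry fun x y => -(α x * (β y * Uy x y - β' y * U x y))) := by
  have c0 : Continuous fun p : ℝ × ℝ => U p.1 p.2 := hs.c
  have cy : Continuous fun p : ℝ × ℝ => Uy p.1 p.2 := hs.cy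
  have ca := hα.c1
  have cb := hβ.c1
  have cb' := hβ.c2
  have : Continuous fun p : ℝ × ℝ => -(α p.1 * (β p.2 * Uy p.1 p.2 - β' p.2 * U p.1 p.2)) := by
    fun_prop
  exact this

theorem psi_cy : Continuous (uncurry fun x y => β y * (α x * Ux x y - α' x * U x y)) := by
  have c0 : Continuous fun p : ℝ × ℝ => U p.1 p.2 := hs.c
  have cx : Continuous fun p : ℝ × ℝ => Ux p.1 p.2 := hs.cx
  have ca := hα.c1
  have ca' := hα.c2
  have cb := hβ.c1
  have : Continuous fun p : ℝ × ℝ => β p.2 * (α p.1 * Ux p.1 p.2 - α' p.1 * U p.1 p.2) := by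
    fun_prop
  exact this

theorem psi_c1 : ContDiff ℝ 1 (uncurry (psi α α' β U Ux Uy)) :=
  (contDiff_one_of (psi_cx hs hα hβ) (psi_cy hs hα hβ) (psi_x hs hα hβ) (psi_y hs hα hβ)).2

end

/-- the imaginary part -/
noncomputable def chi (α α' αh β βh : ℝ → ℝ) (U Ux Uy : ℝ → ℝ → ℝ) (c x y : ℝ) : ℝ :=
  (psi α α' β U Ux Uy x y + c) / (αh x * βh y)

/-- the pseudoanalytic function -/
noncomputable def wf (α α' αh β βh : ℝ → ℝ) (U Ux Uy : ℝ → ℝ → ℝ) (c : ℝ) (z : ℂ) : ℂ :=
  (U z.re z.im : ℂ) + I * (chi α α' αh β βh U Ux Uy c z.re z.im : ℂ)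

/-- the coefficient -/
noncomputable def bf (αh αh' βh βh' : ℝ → ℝ) (z : ℂ) : ℂ :=
  ((αh' z.re / αh z.re : ℝ) + I * (βh' z.im / βh z.im : ℝ)) / 2

/-- `∂̄` in real coordinates -/
theorem dbar_ri {V Vx Vy X Xx Xy : ℝ → ℝ → ℝ} (h1 : Continuous (uncurry Vx))
    (h2 : Continuous (uncurry Vy)) (h3 : Continuous (uncurry Xx)) (h4 : Continuous (uncurry Xy))
    (d1 : ∀ x y, HasDerivAt (fun t => V t y) (Vx x y) x)
    (d2 : ∀ x y, HasDerivAt (fun t => V x t) (Vy x y) y)
    (d3 : ∀ x y, HasDerivAt (fun t => X t y) (Xx x y) x)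
    (d4 : ∀ x y, HasDerivAt (fun t => X x t) (Xy x y) y) :
    ContDiff ℝ 1 (fun z : ℂ => (V z.re z.im : ℂ) + I * (X z.re z.im : ℂ)) ∧
    ∀ z : ℂ, dbar (fun z : ℂ => (V z.re z.im : ℂ) + I * (X z.re z.im : ℂ)) z =
      (((Vx z.re z.im - Xy z.re z.im : ℝ) : ℂ) + I * ((Vy z.re z.im + Xx z.re z.im : ℝ) : ℂ)) /
        2 := by
  obtain ⟨f1, c1⟩ := contDiff_one_of h1 h2 d1 d2
  obtain ⟨f2, c2⟩ := contDiff_one_of h3 h4 d3 d4
  have hp : ∀ z : ℂ, HasFDerivAt (fun z : ℂ => (z.re, z.im))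
      (Complex.reCLM.prod Complex.imCLM) z := fun z =>
    (Complex.reCLM.prod Complex.imCLM).hasFDerivAt
  have hpc : ContDiff ℝ 1 (fun z : ℂ => (z.re, z.im)) :=
    (Complex.reCLM.prod Complex.imCLM).contDiff
  constructor
  · have e1 : ContDiff ℝ 1 fun z : ℂ => (V z.re z.im : ℂ) :=
      Complex.ofRealCLM.contDiff.comp (c1.comp hpc)
    have e2 : ContDiff ℝ 1 fun z : ℂ => (X z.re z.im : ℂ) :=
      Complex.ofRealCLM.contDiff.comp (c2.comp hpc)
    exact e1.add (contDiff_const.mul e2)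
  · intro z
    have g1 := (Complex.ofRealCLM.hasFDerivAt).comp z ((f1 (z.re, z.im)).comp z (hp z))
    have g2 := (Complex.ofRealCLM.hasFDerivAt).comp z ((f2 (z.re, z.im)).comp z (hp z))
    have g3 := g1.add (g2.const_mul I)
    have g4 : HasFDerivAt (fun z : ℂ => (V z.re z.im : ℂ) + I * (X z.re z.im : ℂ)) _ z := g3
    unfold dbar
    rw [g4.fderiv]
    simp
    ring_nf
    rw [Complex.I_sq]
    ring

section

variable {τ : ℝ} {a b α α' αh αh' β β' βh βh' : ℝ → ℝ} {U Ux Uxx Uy Uyy : ℝ → ℝ → ℝ}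
  (hs : Sol2 (fun x y => a x + b y) U Ux Uxx Uy Uyy) (hα : PF τ a α α' αh αh')
  (hβ : PF τ b β β' βh βh')

include hα hβ in
theorem bf_cont : Continuous (bf αh αh' βh βh') := by
  unfold bf
  have e1 : Continuous fun z : ℂ => αh' z.re / αh z.re :=
    (hα.hc.comp Complex.continuous_re).div (hα.c3.comp Complex.continuous_re)
      fun z => (hα.pos _).ne'
  have e2 : Continuous fun z : ℂ => βh' z.im / βh z.im :=
    (hβ.hc.comp Complex.continuous_im).div (hβ.c3.comp Complex.continuous_im)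
      fun z => (hβ.pos _).ne'
  exact ((Complex.continuous_ofReal.comp e1).add
    (continuous_const.mul (Complex.continuous_ofReal.comp e2))).div_const _

theorem PF.ratio (h : PF τ a α α' αh αh') {x : ℝ} (hx : |x| ≤ 24) : |αh' x / αh x| ≤ τ := by
  obtain ⟨e1, e2⟩ := h.eq x hx
  have h1 := (h.bd x hx).2.2
  have h2 := h.pos x
  rw [abs_div, abs_of_pos h2, div_le_iff₀ h2, e2, e1]
  exact h1

include hα hβ in
theorem bf_bound {z : ℂ} (hz : ‖z‖ ≤ 24) : ‖bf αh αh' βh βh' z‖ ≤ τ := by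
  have h1 := hα.ratio ((abs_re_le_norm z).trans hz)
  have h2 := hβ.ratio ((abs_im_le_norm z).trans hz)
  unfold bf
  rw [norm_div]
  have h3 : ‖((αh' z.re / αh z.re : ℝ) : ℂ) + I * ((βh' z.im / βh z.im : ℝ) : ℂ)‖ ≤ τ + τ := by
    refine (norm_add_le _ _).trans (add_le_add ?_ ?_)
    · rw [Complex.norm_real, Real.norm_eq_abs]
      exact h1
    · rw [norm_mul, norm_I, one_mul, Complex.norm_real, Real.norm_eq_abs]
      exact h2
  have h4 : ‖(2 : ℂ)‖ = 2 := by simp
  rw [h4, div_le_iff₀ two_pos]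
  linarith

include hs hα hβ in
theorem wf_main (c : ℝ) : ContDiff ℝ 1 (wf α α' αh β βh U Ux Uy c) ∧
    ∀ z : ℂ, ‖z‖ ≤ 24 → dbar (wf α α' αh β βh U Ux Uy c) z =
      bf αh αh' βh βh' z * conj (wf α α' αh β βh U Ux Uy c z) := by
  have c0 : Continuous fun p : ℝ × ℝ => U p.1 p.2 := hs.c
  have cx : Continuous fun p : ℝ × ℝ => Ux p.1 p.2 := hs.cx
  have cy : Continuous fun p : ℝ × ℝ => Uy p.1 p.2 := hs.cy
  have ca := hα.c1
  have ca' := hα.c2
  have cb := hβ.c1
  have cb' := hβ.c2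
  have cah := hα.c3
  have cah' := hα.hc
  have cbh := hβ.c3
  have cbh' := hβ.hc
  have cψ : Continuous fun p : ℝ × ℝ => psi α α' β U Ux Uy p.1 p.2 :=
    (psi_c1 hs hα hβ).continuous
  have hne : ∀ p : ℝ × ℝ, αh p.1 * βh p.2 ≠ 0 := fun p =>
    (mul_pos (hα.pos _) (hβ.pos _)).ne'
  -- the partial derivatives of `chi`
  set Xx : ℝ → ℝ → ℝ := fun x y => (-(α x * (β y * Uy x y - β' y * U x y)) * (αh x * βh y) -
    (psi α α' β U Ux Uy x y + c) * (αh' x * βh y)) / (αh x * βh y) ^ 2 with hXx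
  set Xy : ℝ → ℝ → ℝ := fun x y => (β y * (α x * Ux x y - α' x * U x y) * (αh x * βh y) -
    (psi α α' β U Ux Uy x y + c) * (αh x * βh' y)) / (αh x * βh y) ^ 2 with hXy
  have k3 : Continuous (uncurry Xx) := by
    have : Continuous fun p : ℝ × ℝ => (-(α p.1 * (β p.2 * Uy p.1 p.2 - β' p.2 * U p.1 p.2)) *
      (αh p.1 * βh p.2) - (psi α α' β U Ux Uy p.1 p.2 + c) * (αh' p.1 * βh p.2)) /
      (αh p.1 * βh p.2) ^ 2 := by
      refine Continuous.div (by fun_prop) (by fun_prop) fun p => pow_ne_zero _ (hne p)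
    exact this
  have k4 : Continuous (uncurry Xy) := by
    have : Continuous fun p : ℝ × ℝ => (β p.2 * (α p.1 * Ux p.1 p.2 - α' p.1 * U p.1 p.2) *
      (αh p.1 * βh p.2) - (psi α α' β U Ux Uy p.1 p.2 + c) * (αh p.1 * βh' p.2)) /
      (αh p.1 * βh p.2) ^ 2 := by
      refine Continuous.div (by fun_prop) (by fun_prop) fun p => pow_ne_zero _ (hne p)
    exact this
  have d3 : ∀ x y, HasDerivAt (fun t => chi α α' αh β βh U Ux Uy c t y) (Xx x y) x := by
    intro x y
    exact ((psi_x hs hα hβ x y).add_const c).div ((hα.h x).mul_const (βh y)) (hne (x, y))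
  have d4 : ∀ x y, HasDerivAt (fun t => chi α α' αh β βh U Ux Uy c x t) (Xy x y) y := by
    intro x y
    exact ((psi_y hs hα hβ x y).add_const c).div ((hβ.h y).const_mul (αh x)) (hne (x, y))
  obtain ⟨m1, m2⟩ := dbar_ri hs.cx hs.cy k3 k4 hs.dx hs.dy d3 d4
  refine ⟨m1, fun z hz => ?_⟩
  have m3 := m2 z
  have e : (fun z : ℂ => (U z.re z.im : ℂ) + I * (chi α α' αh β βh U Ux Uy c z.re z.im : ℂ)) =
      wf α α' αh β βh U Ux Uy c := rfl
  rw [e] at m3
  rw [m3]
  obtain ⟨e1, e2⟩ := hα.eq z.re ((abs_re_le_norm z).trans hz)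
  obtain ⟨e3, e4⟩ := hβ.eq z.im ((abs_im_le_norm z).trans hz)
  have p1 := hα.pos z.re
  have p2 := hβ.pos z.im
  set x := z.re with hx
  set y := z.im with hy
  set X := chi α α' αh β βh U Ux Uy c x y with hX
  have hXe : psi α α' β U Ux Uy x y + c = X * (αh x * βh y) := by
    rw [hX]
    unfold chi
    rw [div_mul_cancel₀ _ (hne (x, y))]
  have e5 : Ux x y - Xy x y = U x y * (αh' x / αh x) + X * (βh' y / βh y) := by
    rw [hXy]
    simp only
    rw [hXe, ← e1, ← e2, ← e3]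
    field_simp
    ring
  have e6 : Uy x y + Xx x y = U x y * (βh' y / βh y) - X * (αh' x / αh x) := by
    rw [hXx]
    simp only
    rw [hXe, ← e1, ← e3, ← e4]
    field_simp
    ring
  rw [e5, e6]
  have e7 : conj (wf α α' αh β βh U Ux Uy c z) = (U x y : ℂ) - I * X := by
    unfold wf
    rw [map_add, map_mul, Complex.conj_ofReal, Complex.conj_ofReal, Complex.conj_I]
    ring
  rw [e7]
  unfold bf
  push_cast
  linear_combination (((βh' y : ℂ) / (βh y : ℂ)) * X / 2) * Complex.I_mul_I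

end

end Pool.Agent.NH44.LT
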