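import Pool.Agent.NH44.LT.Arg

/-!
# Growth of a holomorphic function from the zeros of the real part on a rectangle
-/

set_option autoImplicit false

open Complex Filter Topology Metric Set

namespace Pool.Agent.NH44.LT

/-- closeness of `w e^{-s}` and `G` at a point -/
structure Cls (w s G : ℂ → ℂ) (m0 : ℝ) (v : ℂ) : Prop where
  lo : m0 ≤ ‖w v‖
  sm : ‖s v‖ ≤ 1 / 2
  er : ‖w v * exp (-(s v)) - G v‖ ≤ m0 / 10

theorem exp_neg_half : (3 : ℝ) / 5 ≤ Real.exp (-(1 / 2)) := by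
  have h1 : Real.exp (-(1 / 2) : ℝ) ^ 2 = Real.exp (-1) := by
    rw [← Real.exp_nat_mul]; norm_num
  have h2 : (0.36 : ℝ) ≤ Real.exp (-1) := by
    have := Real.exp_neg_one_gt_d9
    linarith
  have h3 := Real.exp_pos (-(1 / 2) : ℝ)
  nlinarith

theorem Cls.lower {w s G : ℂ → ℂ} {m0 : ℝ} {v : ℂ} (h : Cls w s G m0 v) :
    m0 / 2 ≤ ‖G v‖ := by
  have h1 : ‖w v * exp (-(s v))‖ ≤ ‖w v * exp (-(s v)) - G v‖ + ‖G v‖ := by
    have := norm_add_le (w v * exp (-(s v)) - G v) (G v)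
    rwa [sub_add_cancel] at this
  have h2 : m0 * (3 / 5) ≤ ‖w v * exp (-(s v))‖ := by
    rw [norm_mul, Complex.norm_exp]
    refine mul_le_mul h.lo (exp_neg_half.trans (Real.exp_le_exp.2 ?_)) (by norm_num)
      (norm_nonneg _)
    have h3 := (abs_re_le_norm (s v)).trans h.sm
    have h4 := (abs_le.1 h3).2
    rw [Complex.neg_re]
    linarith
  have h3 := h.er
  linarith

theorem sign_core {w s G : ℂ → ℂ} {m0 : ℝ} {v Λ : ℂ} {m : ℤ} (hm : 0 < m0)
    (h : Cls w s G m0 v) (hG : G v = exp Λ) (hΛ : Λ.im = Real.pi * m) :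
    0 < (-1 : ℝ) ^ m * (w v).re := by
  set R := Real.exp Λ.re with hR
  have hR0 : 0 < R := Real.exp_pos _
  have hGn : ‖G v‖ = R := by rw [hG, Complex.norm_exp]
  have hpow : exp ((Real.pi * m : ℝ) * I) = (-1 : ℂ) ^ m := by
    have : ((Real.pi * m : ℝ) : ℂ) * I = (m : ℂ) * (Real.pi * I) := by push_cast; ring
    rw [this, Complex.exp_int_mul, Complex.exp_pi_mul_I]
  have hGe : G v = (R : ℂ) * (-1 : ℂ) ^ m := by
    rw [hG]
    conv_lhs => rw [← Complex.re_add_im Λ]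
    rw [Complex.exp_add, hΛ, hpow, ← Complex.ofReal_exp]
  set e := w v * exp (-(s v)) - G v with he
  have hw : w v = (G v + e) * exp (s v) := by
    rw [he, add_sub_cancel, mul_assoc, ← Complex.exp_add]
    simp
  have hlow := h.lower
  have hen : ‖e‖ ≤ R / 5 := by
    have := h.er
    rw [hGn] at hlow
    linarith
  have hsq : ((-1 : ℂ) ^ m) * ((-1 : ℂ) ^ m) = 1 := by
    rw [← mul_zpow]; norm_num
  have e1 : (((-1 : ℝ) ^ m : ℝ) : ℂ) * w v =
      (R + (-1 : ℂ) ^ m * e) * exp (s v) := by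
    rw [hw, hGe]
    push_cast
    linear_combination (R * exp (s v)) * hsq
  have e2 : (-1 : ℝ) ^ m * (w v).re = ((((-1 : ℝ) ^ m : ℝ) : ℂ) * w v).re := by
    rw [Complex.re_ofReal_mul]
  rw [e2, e1, add_mul, Complex.add_re, Complex.re_ofReal_mul]
  have hsn := h.sm
  have h3 := (abs_im_le_norm (s v)).trans hsn
  have h5 : Real.exp (s v).re * (7 / 8) ≤ (exp (s v)).re := by
    rw [Complex.exp_re]
    refine mul_le_mul_of_nonneg_left ?_ (Real.exp_pos _).le
    have h6 := Real.one_sub_sq_div_two_le_cos (x := (s v).im)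
    have h7 : (s v).im ^ 2 ≤ 1 / 4 := by
      rw [← sq_abs]
      have := abs_nonneg (s v).im
      nlinarith
    linarith
  have h6 : -(R / 5 * Real.exp (s v).re) ≤ ((-1 : ℂ) ^ m * e * exp (s v)).re := by
    have h7 := (abs_re_le_norm ((-1 : ℂ) ^ m * e * exp (s v)))
    have h8 : ‖(-1 : ℂ) ^ m * e * exp (s v)‖ ≤ R / 5 * Real.exp (s v).re := by
      rw [norm_mul, norm_mul, norm_zpow, norm_neg, norm_one, one_zpow, one_mul, Complex.norm_exp]
      exact mul_le_mul_of_nonneg_right hen (Real.exp_pos _).le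
    have h9 := (abs_le.1 (h7.trans h8)).1
    linarith
  have h7 := mul_le_mul_of_nonneg_left h5 hR0.le
  have h8 : 0 < R * Real.exp (s v).re := mul_pos hR0 (Real.exp_pos _)
  nlinarith

section side

variable {k : ℕ} (z : Fin k → ℂ) (g : ℂ → ℂ) (γ : ℝ → ℂ) (θ : ℝ)

/-- the argument along a side -/
noncomputable def Aside (t : ℝ) : ℝ :=
  (g (γ t)).im + ∑ j, (θ + (log (exp (-(θ * I)) * (γ t - z j))).im)

variable {z g γ θ}

theorem side {w s G : ℂ → ℂ} {m0 a b : ℝ} {n : ℕ} {Z : Finset ℝ} (hm : 0 < m0) (hab : a ≤ b)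
    (hγ : Continuous γ) (hg : ContinuousOn (fun t => g (γ t)) (Icc a b))
    (hwc : ContinuousOn (fun t => w (γ t)) (Icc a b))
    (hfac : ∀ t ∈ Icc a b, G (γ t) = (∏ j, (γ t - z j)) * exp (g (γ t)))
    (hθ : ∀ j, ∀ t ∈ Icc a b, 0 < (exp (-(θ * I)) * (γ t - z j)).re)
    (hcls : ∀ t ∈ Icc a b, Cls w s G m0 (γ t))
    (hZ : ∀ t ∈ Ioo a b, (w (γ t)).re = 0 → t ∈ Z) (hn : Z.card ≤ n) :
    |Aside z g γ θ b - Aside z g γ θ a| ≤ 2 * Real.pi * (n + 1) := by
  refine arg_osc (U := fun t => (w (γ t)).re) n a b Z hn hab ?_ ?_ ?_ hZ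
  · refine ContinuousOn.add (Complex.continuous_im.comp_continuousOn hg) ?_
    refine continuousOn_finsetSum _ fun j _ => ContinuousOn.add continuousOn_const ?_
    refine Complex.continuous_im.comp_continuousOn ?_
    refine ContinuousOn.clog (by fun_prop) fun t ht => Or.inl (hθ j t ht)
  · exact Complex.continuous_re.comp_continuousOn hwc
  · intro t ht m hm'
    refine sign_core (G := G) hm (hcls t ht) (Λ := g (γ t) + ∑ j, ((θ : ℂ) * I +
      log (exp (-(θ * I)) * (γ t - z j)))) ?_ ?_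
    · rw [hfac t ht, Complex.exp_add, Complex.exp_sum, mul_comm]
      congr 1
      refine Finset.prod_congr rfl fun j _ => ?_
      have h1 : exp (-(θ * I)) * (γ t - z j) ≠ 0 := by
        intro h2
        have h3 := hθ j t ht
        rw [h2] at h3
        simp at h3
      rw [Complex.exp_add, Complex.exp_log h1, ← mul_assoc, ← Complex.exp_add]
      simp
    · rw [← hm']
      unfold Aside
      rw [Complex.add_im, Complex.im_sum]
      congr 1
      refine Finset.sum_congr rfl fun j _ => ?_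
      simp

theorem side_osc {w s G : ℂ → ℂ} {m0 a b : ℝ} {n : ℕ} {Z : Finset ℝ} (hm : 0 < m0)
    (hγ : Continuous γ) (hg : ContinuousOn (fun t => g (γ t)) (Icc a b))
    (hwc : ContinuousOn (fun t => w (γ t)) (Icc a b))
    (hfac : ∀ t ∈ Icc a b, G (γ t) = (∏ j, (γ t - z j)) * exp (g (γ t)))
    (hθ : ∀ j, ∀ t ∈ Icc a b, 0 < (exp (-(θ * I)) * (γ t - z j)).re)
    (hcls : ∀ t ∈ Icc a b, Cls w s G m0 (γ t))
    (hZ : ∀ t ∈ Ioo a b, (w (γ t)).re = 0 → t ∈ Z) (hn : Z.card ≤ n) {t t' : ℝ}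
    (ht : t ∈ Icc a b) (ht' : t' ∈ Icc a b) :
    |(g (γ t')).im - (g (γ t)).im| ≤ 2 * Real.pi * (n + 1) + k * Real.pi := by
  wlog htt : t ≤ t' generalizing t t'
  · rw [abs_sub_comm]
    exact this ht' ht (le_of_not_ge htt)
  have hsub : Icc t t' ⊆ Icc a b := Icc_subset_Icc ht.1 ht'.2
  have h1 := side (z := z) (g := g) (γ := γ) (θ := θ) (s := s) (G := G) (Z := Z) hm htt hγ
    (hg.mono hsub) (hwc.mono hsub) (fun u hu => hfac u (hsub hu)) (fun j u hu => hθ j u (hsub hu))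
    (fun u hu => hcls u (hsub hu))
    (fun u hu => hZ u ⟨ht.1.trans_lt hu.1, hu.2.trans_le ht'.2⟩) hn
  have h2 : ∀ u ∈ Icc a b, ∀ u' ∈ Icc a b,
      |∑ j, (θ + (log (exp (-(θ * I)) * (γ u' - z j))).im) -
        ∑ j, (θ + (log (exp (-(θ * I)) * (γ u - z j))).im)| ≤ k * Real.pi := by
    intro u hu u' hu'
    rw [← Finset.sum_sub_distrib]
    refine (Finset.abs_sum_le_sum_abs _ _).trans ?_
    have h3 : ∀ j ∈ (Finset.univ : Finset (Fin k)),
        |θ + (log (exp (-(θ * I)) * (γ u' - z j))).im -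
          (θ + (log (exp (-(θ * I)) * (γ u - z j))).im)| ≤ Real.pi := by
      intro j _
      rw [Complex.log_im, Complex.log_im]
      have h4 := (Complex.abs_arg_lt_pi_div_two_iff.2 (Or.inl (hθ j u hu)))
      have h5 := (Complex.abs_arg_lt_pi_div_two_iff.2 (Or.inl (hθ j u' hu')))
      rw [abs_lt] at h4 h5
      rw [abs_le]
      constructor <;> linarith [h4.1, h4.2, h5.1, h5.2]
    refine (Finset.sum_le_sum h3).trans ?_
    rw [Finset.sum_const, Finset.card_univ, Fintype.card_fin, nsmul_eq_mul]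
  have h3 := h2 t ht t' ht'
  unfold Aside at h1
  rw [abs_le] at *
  constructor <;> linarith [h1.1, h1.2, h3.1, h3.2]

end side

/-- the argument and the rotation by a quarter -/
theorem quarter {ζ : ℂ} (h1 : 0 < ζ.re) (h2 : 0 < ζ.im) :
    (log ζ).im = Real.pi / 2 + (log (-I * ζ)).im := by
  rw [Complex.log_im, Complex.log_im]
  have hr : 0 < ‖ζ‖ := norm_pos_iff.2 (by rintro rfl; simp at h1)
  have e1 := Complex.arg_mem_Ioc ζ
  have h3 : |ζ.arg| < Real.pi / 2 := Complex.abs_arg_lt_pi_div_two_iff.2 (Or.inl h1)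
  rw [abs_lt] at h3
  have e2 : -I * ζ = (‖ζ‖ : ℂ) * (Complex.cos ((ζ.arg - Real.pi / 2 : ℝ)) +
      Complex.sin ((ζ.arg - Real.pi / 2 : ℝ)) * I) := by
    conv_lhs => rw [← Complex.norm_mul_cos_add_sin_mul_I ζ]
    push_cast
    rw [Complex.cos_sub_pi_div_two, Complex.sin_sub_pi_div_two]
    linear_combination (-(‖ζ‖ : ℂ) * Complex.sin ζ.arg) * Complex.I_mul_I
  rw [e2, Complex.arg_mul_cos_add_sin_mul_I hr ⟨by linarith [h3.1], by linarith [h3.2]⟩]
  ring

theorem rot_succ (θ : ℝ) : exp (-(((θ + Real.pi / 2 : ℝ) : ℂ) * I)) =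
    -I * exp (-((θ : ℂ) * I)) := by
  have h1 : -(((θ + Real.pi / 2 : ℝ) : ℂ) * I) = -((θ : ℂ) * I) + -(Real.pi / 2 * I) := by
    push_cast; ring
  rw [h1, Complex.exp_add]
  have h2 : exp (-(Real.pi / 2 * I)) = -I := by
    rw [Complex.exp_neg, Complex.exp_pi_div_two_mul_I, Complex.inv_I]
  rw [h2]
  ring

theorem corner {θ : ℝ} {ζ : ℂ} (h1 : 0 < (exp (-(θ * I)) * ζ).re)
    (h2 : 0 < (exp (-(((θ + Real.pi / 2 : ℝ) : ℂ) * I)) * ζ).re) :
    θ + (log (exp (-(θ * I)) * ζ)).im =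
      (θ + Real.pi / 2) + (log (exp (-(((θ + Real.pi / 2 : ℝ) : ℂ) * I)) * ζ)).im := by
  rw [rot_succ] at h2 ⊢
  rw [mul_assoc] at h2 ⊢
  have h3 : 0 < (exp (-(θ * I)) * ζ).im := by
    have : (-I * (exp (-(θ * I)) * ζ)).re = (exp (-(θ * I)) * ζ).im := by
      simp
    rwa [this] at h2
  rw [quarter h1 h3]
  ring

end Pool.Agent.NH44.LT
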