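import Mathlib

/-!
# Zeros of sums of eigenfunctions of a periodic Sturm and Liouville operator
-/

set_option autoImplicit false

open Filter Topology Metric Set

namespace Pool.Agent.NH44.LT

section second

variable {F F' F'' q : ℝ → ℝ} (hF : ∀ x, HasDerivAt F (F' x) x)
  (hF' : ∀ x, HasDerivAt F' (F'' x) x)

include hF hF'

theorem snd_nonpos {p : ℝ} (h : IsLocalMax F p) : F'' p ≤ 0 := by
  by_contra hcon
  rw [not_le] at hcon
  have e1 : deriv F = F' := funext fun x => (hF x).deriv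
  have e2 : deriv (deriv F) p = F'' p := by rw [e1]; exact (hF' p).deriv
  have h1 := isLocalMin_of_deriv_deriv_pos (f := F) (x₀ := p) (by rw [e2]; exact hcon)
    h.deriv_eq_zero (hF p).continuousAt
  have h2 : F =ᶠ[𝓝 p] fun _ => F p := by
    filter_upwards [h, h1] with x k1 k2
    exact le_antisymm k1 k2
  have h3 : deriv F =ᶠ[𝓝 p] fun _ => 0 := by
    have := h2.deriv
    refine this.trans ?_
    exact Eventually.of_forall fun x => deriv_const _ _
  have h4 : deriv (deriv F) p = 0 := by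
    rw [h3.deriv_eq]
    exact deriv_const _ _
  rw [e2] at h4
  linarith

theorem snd_nonneg {p : ℝ} (h : IsLocalMin F p) : 0 ≤ F'' p := by
  have h1 := snd_nonpos (F := fun x => -F x) (F' := fun x => -F' x) (F'' := fun x => -F'' x)
    (fun x => (hF x).neg) (fun x => (hF' x).neg) (p := p) h.neg
  linarith

variable (hFc : Continuous F'') (hqc : Continuous q) (hq : ∀ x, 0 < q x)

include hq

/-- points where `|F|` has a nonzero local maximum -/
theorem good_pos {p : ℝ} (h0 : 0 < F p) (h : IsLocalMax F p) : 0 < -F'' p + q p * F p := by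
  have h1 := snd_nonpos hF hF' h
  have h2 := mul_pos (hq p) h0
  linarith

theorem good_neg {p : ℝ} (h0 : F p < 0) (h : IsLocalMin F p) : -F'' p + q p * F p < 0 := by
  have h1 := snd_nonneg hF hF' h
  have h2 := mul_neg_of_pos_of_neg (hq p) h0
  linarith

include hFc hqc

theorem between_pos {p p' z : ℝ} (hp : 0 < F p) (hpm : IsLocalMax F p) (hp' : 0 < F p')
    (h1 : p < z) (h2 : z < p') (hz : F z = 0) :
    ∃ ζ ∈ Ioo p p', -F'' ζ + q ζ * F ζ = 0 := by
  have hFcont : Continuous F := continuous_iff_continuousAt.2 fun t => (hF t).continuousAt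
  have hpp : p ≤ p' := (h1.trans h2).le
  obtain ⟨ξ, hξ, hmin⟩ := (isCompact_Icc (a := p) (b := p')).exists_isMinOn ⟨p, le_rfl, hpp⟩
    hFcont.continuousOn
  have h3 : F ξ ≤ 0 := by
    have := hmin ⟨h1.le, h2.le⟩
    rwa [mem_ofPred_eq, hz] at this
  have h4 : p < ξ := lt_of_le_of_ne hξ.1 (by rintro rfl; linarith)
  have h5 : ξ < p' := lt_of_le_of_ne hξ.2 (by rintro rfl; linarith)
  have h6 : IsLocalMin F ξ := by
    filter_upwards [Icc_mem_nhds h4 h5] with x hx
    exact hmin hx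
  have h7 : -F'' ξ + q ξ * F ξ ≤ 0 := by
    have k1 := snd_nonneg hF hF' h6
    have k2 := mul_nonpos_of_nonneg_of_nonpos (hq ξ).le h3
    linarith
  have h8 := good_pos hF hF' hq hp hpm
  have hc : ContinuousOn (fun x => -F'' x + q x * F x) (Icc p ξ) := by fun_prop
  obtain ⟨ζ, hζ, e⟩ := intermediate_value_Icc' h4.le hc (show (0 : ℝ) ∈ Icc _ _ from ⟨h7, h8.le⟩)
  have e' : -F'' ζ + q ζ * F ζ = 0 := e
  refine ⟨ζ, ⟨lt_of_le_of_ne hζ.1 ?_, hζ.2.trans_lt h5⟩, e'⟩
  rintro rfl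
  linarith

/-- points where `|F|` has a nonzero local maximum -/
def Gd (F : ℝ → ℝ) (p : ℝ) : Prop := (0 < F p ∧ IsLocalMax F p) ∨ (F p < 0 ∧ IsLocalMin F p)

theorem between {p p' z : ℝ} (hp : Gd F p) (hp' : Gd F p') (h1 : p < z) (h2 : z < p')
    (hz : F z = 0) : ∃ ζ ∈ Ioo p p', -F'' ζ + q ζ * F ζ = 0 := by
  have hFcont : Continuous F := continuous_iff_continuousAt.2 fun t => (hF t).continuousAt
  have hc : ContinuousOn (fun x => -F'' x + q x * F x) (Icc p p') := by fun_prop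
  have hpp : p ≤ p' := (h1.trans h2).le
  rcases hp with ⟨a1, a2⟩ | ⟨a1, a2⟩ <;> rcases hp' with ⟨b1, b2⟩ | ⟨b1, b2⟩
  · exact between_pos hF hF' hFc hqc hq a1 a2 b1 h1 h2 hz
  · exact intermediate_value_Ioo' hpp hc ⟨good_neg hF hF' hq b1 b2, good_pos hF hF' hq a1 a2⟩
  · exact intermediate_value_Ioo hpp hc ⟨good_neg hF hF' hq a1 a2, good_pos hF hF' hq b1 b2⟩
  · obtain ⟨ζ, hζ, e⟩ := between_pos (F := fun x => -F x) (F' := fun x => -F' x)
      (F'' := fun x => -F'' x) (fun x => (hF x).neg) (fun x => (hF' x).neg) hFc.neg hqc hq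
      (p := p) (p' := p') (z := z) (by linarith) a2.neg (by linarith) h1 h2 (by rw [hz, neg_zero])
    exact ⟨ζ, hζ, by linarith⟩

end second

/-- infinitely many zeros with a linear upper bound -/
def Zs (F : ℝ → ℝ) (h : ℝ) : Prop :=
  ∃ (z : ℕ → ℝ) (K : ℝ), StrictMono z ∧ (∀ i, F (z i) = 0) ∧ ∀ i : ℕ, z i ≤ K + i * h

theorem exists_gd {F : ℝ → ℝ} (hF : Continuous F) {a b : ℝ} (ha : F a = 0) (hb : F b = 0)
    (hne : ∃ x ∈ Ioo a b, F x ≠ 0) : ∃ p ∈ Ioo a b, Gd F p := by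
  obtain ⟨x, hx, hx0⟩ := hne
  obtain ⟨p, hp, hmax⟩ := (isCompact_Icc (a := a) (b := b)).exists_isMaxOn
    ⟨x, hx.1.le, hx.2.le⟩ hF.abs.continuousOn
  have h1 : |F x| ≤ |F p| := hmax ⟨hx.1.le, hx.2.le⟩
  have h2 : 0 < |F p| := (abs_pos.2 hx0).trans_le h1
  have h3 : F p ≠ 0 := abs_pos.1 h2
  have h4 : a < p := lt_of_le_of_ne hp.1 (by rintro rfl; exact h3 ha)
  have h5 : p < b := lt_of_le_of_ne hp.2 (by rintro rfl; exact h3 hb)
  refine ⟨p, ⟨h4, h5⟩, ?_⟩
  rcases lt_or_gt_of_ne h3 with h6 | h6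
  · right
    refine ⟨h6, ?_⟩
    filter_upwards [Icc_mem_nhds h4 h5] with y hy
    have h7 : |F y| ≤ |F p| := hmax hy
    rw [abs_of_neg h6] at h7
    linarith [neg_abs_le (F y)]
  · left
    refine ⟨h6, ?_⟩
    filter_upwards [Icc_mem_nhds h4 h5] with y hy
    have h7 : |F y| ≤ |F p| := hmax hy
    rw [abs_of_pos h6] at h7
    exact (le_abs_self _).trans h7

theorem Zs_step {F F' F'' q : ℝ → ℝ} (hF : ∀ x, HasDerivAt F (F' x) x)
    (hF' : ∀ x, HasDerivAt F' (F'' x) x) (hFc : Continuous F'') (hqc : Continuous q)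
    (hq : ∀ x, 0 < q x) (hne : ∀ a b, a < b → ∃ x ∈ Ioo a b, F x ≠ 0) {h : ℝ} (hZ : Zs F h) :
    Zs (fun x => -F'' x + q x * F x) h := by
  have hFcont : Continuous F := continuous_iff_continuousAt.2 fun t => (hF t).continuousAt
  obtain ⟨z, K, hz, hz0, hzK⟩ := hZ
  have h1 : ∀ i, ∃ p ∈ Ioo (z i) (z (i + 1)), Gd F p := fun i =>
    exists_gd hFcont (hz0 i) (hz0 (i + 1)) (hne _ _ (hz (Nat.lt_succ_self i)))
  choose p hp hG using h1
  have h2 : ∀ i, ∃ ζ ∈ Ioo (p i) (p (i + 1)), -F'' ζ + q ζ * F ζ = 0 := fun i =>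
    between hF hF' hFc hqc hq (hG i) (hG (i + 1)) (hp i).2 (hp (i + 1)).1 (hz0 (i + 1))
  choose ζ hζ h0 using h2
  refine ⟨ζ, K + 2 * h, strictMono_nat_of_lt_succ fun i => (hζ i).2.trans (hζ (i + 1)).1, h0,
    fun i => ?_⟩
  have h3 := (hζ i).2
  have h4 := (hp (i + 1)).2
  have h5 := hzK (i + 1 + 1)
  push_cast at h5
  linarith

theorem Zs_gap {F : ℝ → ℝ} {h : ℝ} (hZ : Zs F h) {ε : ℝ} (hε : 0 < ε) :
    ∃ s t, s < t ∧ F s = 0 ∧ F t = 0 ∧ t - s ≤ h + ε := by
  obtain ⟨z, K, hz, hz0, hzK⟩ := hZ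
  by_contra hcon
  push Not at hcon
  have h1 : ∀ i : ℕ, z 0 + i * (h + ε) ≤ z i := by
    intro i
    induction i with
    | zero => simp
    | succ i ih =>
      have h2 := hcon (z i) (z (i + 1)) (hz (Nat.lt_succ_self i)) (hz0 i) (hz0 (i + 1))
      push_cast
      linarith
  obtain ⟨i, hi⟩ := exists_nat_gt ((K - z 0) / ε)
  rw [div_lt_iff₀ hε] at hi
  have h2 := h1 i
  have h3 := hzK i
  linarith

/-- uniqueness -/
theorem ode_zero {v v' r : ℝ → ℝ} {Λ s : ℝ} (hv : ∀ x, HasDerivAt v (v' x) x)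
    (hv' : ∀ x, HasDerivAt v' (r x * v x) x) (hr : ∀ x, |r x| ≤ Λ) (h0 : v s = 0)
    (h1 : v' s = 0) (x : ℝ) : v x = 0 := by
  have hΛ : 0 ≤ Λ := (abs_nonneg _).trans (hr 0)
  set V : ℝ → ℝ × ℝ → ℝ × ℝ := fun t p => (p.2, r t * p.1) with hV
  have hL : ∀ t, LipschitzOnWith (Real.toNNReal (1 + Λ)) (V t) univ := by
    intro t
    rw [lipschitzOnWith_univ]
    refine LipschitzWith.of_dist_le_mul fun a b => ?_
    rw [Real.coe_toNNReal _ (by positivity), Prod.dist_eq]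
    have k1 : dist a.1 b.1 ≤ dist a b := by rw [Prod.dist_eq]; exact le_max_left _ _
    have k2 : dist a.2 b.2 ≤ dist a b := by rw [Prod.dist_eq]; exact le_max_right _ _
    have k3 : 0 ≤ dist a b := dist_nonneg
    refine max_le ?_ ?_
    · show dist a.2 b.2 ≤ _
      nlinarith
    · show dist (r t * a.1) (r t * b.1) ≤ _
      rw [Real.dist_eq, ← mul_sub, abs_mul, ← Real.dist_eq]
      have := mul_le_mul (hr t) k1 dist_nonneg hΛ
      nlinarith
  have h2 := ODE_solution_unique_univ (v := V) (s := fun _ => univ) (t₀ := s)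
    (f := fun t => (v t, v' t)) (g := fun _ => (0, 0)) hL
    (fun t => ⟨(hv t).prodMk (hv' t), mem_univ _⟩)
    (fun t => ⟨by
      have h3 : V t (0, 0) = 0 := by
        rw [hV]
        simp
      rw [h3]
      exact hasDerivAt_const _ _, mem_univ _⟩) (by rw [h0, h1])
  have h3 := congrFun h2 x
  exact congrArg Prod.fst h3

/-- no zero of `v` close to a zero of `v'` -/
theorem no_close {v v' r : ℝ → ℝ} {Λ s t l : ℝ} (hv : ∀ x, HasDerivAt v (v' x) x)
    (hv' : ∀ x, HasDerivAt v' (r x * v x) x) (hr : ∀ x, |r x| ≤ Λ) (ht : 0 ≤ t) (htl : t ≤ l)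
    (hl : Λ * l ^ 2 < 1) (h0 : v s = 0) (h1 : v' (s + t) = 0) (x : ℝ) : v x = 0 := by
  have hΛ : 0 ≤ Λ := (abs_nonneg _).trans (hr 0)
  have hvc : Continuous v := continuous_iff_continuousAt.2 fun t => (hv t).continuousAt
  have hst : s ≤ s + t := by linarith
  obtain ⟨p, hp, hmax⟩ := (isCompact_Icc (a := s) (b := s + t)).exists_isMaxOn ⟨s, le_rfl, hst⟩
    hvc.abs.continuousOn
  set M := |v p| with hM
  have hMx : ∀ x ∈ Icc s (s + t), |v x| ≤ M := fun x hx => hmax hx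
  have hM0 : 0 ≤ M := abs_nonneg _
  have hcv : Convex ℝ (Icc s (s + t)) := convex_Icc _ _
  have hs : s ∈ Icc s (s + t) := ⟨le_rfl, hst⟩
  have hst' : s + t ∈ Icc s (s + t) := ⟨hst, le_rfl⟩
  have k1 : ∀ x ∈ Icc s (s + t), |v' x| ≤ Λ * M * l := by
    intro x hx
    have h2 := hcv.norm_image_sub_le_of_norm_hasDerivWithin_le (f := v')
      (f' := fun t => r t * v t) (C := Λ * M) (fun t _ => (hv' t).hasDerivWithinAt)
      (fun t ht => by
        rw [norm_mul, Real.norm_eq_abs, Real.norm_eq_abs]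
        exact mul_le_mul (hr t) (hMx t ht) (abs_nonneg _) hΛ) hst' hx
    rw [h1, sub_zero, Real.norm_eq_abs, Real.norm_eq_abs] at h2
    have h3 : |x - (s + t)| ≤ l := by
      rw [abs_le]
      constructor <;> linarith [hx.1, hx.2]
    exact h2.trans (mul_le_mul_of_nonneg_left h3 (by positivity))
  have hl0 : 0 ≤ l := ht.trans htl
  have k2 : M ≤ Λ * M * l * l := by
    have h2 := hcv.norm_image_sub_le_of_norm_hasDerivWithin_le (f := v)
      (f' := v') (C := Λ * M * l) (fun t _ => (hv t).hasDerivWithinAt)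
      (fun t ht => by
        rw [Real.norm_eq_abs]
        exact k1 t ht) hs hp
    rw [h0, sub_zero, Real.norm_eq_abs, Real.norm_eq_abs] at h2
    have h3 : |p - s| ≤ l := by
      rw [abs_le]
      constructor <;> linarith [hp.1, hp.2]
    exact h2.trans (mul_le_mul_of_nonneg_left h3 (by positivity))
  have k3 : M = 0 := by
    rcases hM0.eq_or_lt with h | h
    · exact h.symm
    · nlinarith
  refine ode_zero hv hv' hr h0 ?_ x
  have := k1 s hs
  rw [k3, mul_zero, zero_mul] at this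
  exact abs_eq_zero.1 (le_antisymm this (abs_nonneg _))

end Pool.Agent.NH44.LT
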